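import Pool.Agent.H19.RH.Pw

set_option autoImplicit false
open Set Metric Filter Topology Complex
open scoped Real

/-! Asymptotics of a function at a boundary point from the asymptotics of its derivative. -/

namespace Pool.Agent.H19.RH

lemma pw_one {z : ℂ} (h0 : z ≠ 0) : pw 1 z = z := by
  unfold pw
  rw [ofReal_one, one_mul, Complex.exp_add, Complex.exp_log (mul_ne_zero (neg_ne_zero.2 I_ne_zero) h0),
    Complex.exp_pi_div_two_mul_I]
  linear_combination (-z) * I_mul_I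

lemma pw_add (e e' : ℝ) (z : ℂ) : pw (e + e') z = pw e z * pw e' z := by
  unfold pw
  rw [← Complex.exp_add]
  congr 1
  push_cast
  ring

lemma pw_zero (z : ℂ) : pw 0 z = 1 := by
  unfold pw
  simp

lemma pw_hasDeriv (e : ℝ) {z : ℂ} (hz : 0 ≤ z.im) (h0 : z ≠ 0) :
    HasDerivAt (pw (1 - e)) (((1 - e : ℝ) : ℂ) * pw (-e) z) z := by
  have h1 : HasDerivAt (fun z : ℂ => -I * z) (-I * 1) z := (hasDerivAt_id z).const_mul (-I)
  have h2 := ((h1.clog (pw_slit hz h0)).add_const ((π : ℂ) / 2 * I)).const_mul ((1 - e : ℝ) : ℂ)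
  have h3 := h2.cexp
  have e1 : (-I * 1) / (-I * z) = 1 / z := by
    rw [mul_div_mul_left _ _ (neg_ne_zero.2 I_ne_zero)]
  have e2 : pw (1 - e) z = pw (-e) z * z := by
    rw [show 1 - e = -e + 1 by ring, pw_add, pw_one h0]
  have h4 : HasDerivAt (pw (1 - e)) (pw (1 - e) z * (((1 - e : ℝ) : ℂ) * ((-I * 1) / (-I * z)))) z := h3
  rw [e1, e2] at h4
  have e3 : pw (-e) z * z * (((1 - e : ℝ) : ℂ) * (1 / z)) = ((1 - e : ℝ) : ℂ) * pw (-e) z := by
    field_simp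
  rwa [e3] at h4

theorem asym {A α : ℂ → ℂ} {x0 e : ℝ} {a α0 : ℂ} (he1 : e < 1)
    (hd : DifferentiableOn ℂ A UP) (hlim : Tendsto A (𝓝[UP] (x0 : ℂ)) (𝓝 a))
    (hα : Tendsto α (𝓝[UP] (x0 : ℂ)) (𝓝 α0))
    (hder : ∀ᶠ z in 𝓝[UP] (x0 : ℂ), deriv A z = α z * pw (-e) (z - x0)) :
    Tendsto (fun z => (A z - a) / pw (1 - e) (z - x0)) (𝓝[UP] (x0 : ℂ))
      (𝓝 (α0 / ((1 - e : ℝ) : ℂ))) := by
  have hs : 0 < 1 - e := by linarith
  have hsC : ((1 - e : ℝ) : ℂ) ≠ 0 := by exact_mod_cast hs.ne'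
  set A1 : ℂ → ℂ := fun z => A z - α0 / ((1 - e : ℝ) : ℂ) * pw (1 - e) (z - x0) with hA1
  rw [Metric.tendsto_nhds]
  intro ε hε
  set ε' := ε * (1 - e) / 2 with hε'
  have hε'0 : 0 < ε' := by positivity
  have hev : ∀ᶠ z in 𝓝[UP] (x0 : ℂ), ‖α z - α0‖ < ε' ∧ deriv A z = α z * pw (-e) (z - x0) := by
    refine Filter.Eventually.and ?_ hder
    have := Metric.tendsto_nhds.1 hα ε' hε'0
    filter_upwards [this] with z hz
    rwa [dist_eq_norm] at hz
  rw [eventually_nhdsWithin_iff, Metric.eventually_nhds_iff] at hev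
  obtain ⟨r, hr, hev⟩ := hev
  have hball : ball (x0 : ℂ) r ∈ 𝓝 (x0 : ℂ) := ball_mem_nhds _ hr
  filter_upwards [self_mem_nhdsWithin, mem_nhdsWithin_of_mem_nhds hball] with z hz hzr
  set ζ : ℂ := z - x0 with hζ
  have hzim : 0 < z.im := hz
  have hζim : 0 < ζ.im := by rw [hζ]; simpa using hzim
  have hζ0 : ζ ≠ 0 := by rintro h; rw [h] at hζim; simp at hζim
  have hζn : 0 < ‖ζ‖ := norm_pos_iff.2 hζ0
  have hζr : ‖ζ‖ < r := by rw [mem_ball, dist_eq_norm] at hzr; exact hzr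
  -- the path
  have hpath : ∀ t : ℝ, 0 < t → t ≤ 1 → 0 < ((x0 : ℂ) + t * ζ).im ∧
      dist ((x0 : ℂ) + t * ζ) (x0 : ℂ) < r ∧ ‖(t : ℂ) * ζ‖ = t * ‖ζ‖ ∧ 0 < ((t : ℂ) * ζ).im := by
    intro t h0 h1
    have e1 : ((t : ℂ) * ζ).im = t * ζ.im := by simp
    have e2 : ‖(t : ℂ) * ζ‖ = t * ‖ζ‖ := by
      rw [norm_mul, Complex.norm_real, Real.norm_eq_abs, abs_of_pos h0]
    have e3 : 0 < ((t : ℂ) * ζ).im := by rw [e1]; exact mul_pos h0 hζim
    refine ⟨?_, ?_, e2, e3⟩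
    · rw [add_im, ofReal_im, zero_add]; exact e3
    · rw [dist_eq_norm, add_sub_cancel_left, e2]
      calc t * ‖ζ‖ ≤ 1 * ‖ζ‖ := mul_le_mul_of_nonneg_right h1 hζn.le
        _ < r := by rw [one_mul]; exact hζr
  -- derivative of A1
  have hA1d : ∀ u : ℂ, 0 < u.im → dist u (x0 : ℂ) < r →
      HasDerivAt A1 ((α u - α0) * pw (-e) (u - x0)) u := by
    intro u hu hur
    have h1 : HasDerivAt A (deriv A u) u := (hd.differentiableAt (isOpen_UP.mem_nhds hu)).hasDerivAt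
    have hu0 : u - x0 ≠ 0 := by
      intro h
      have := congrArg Complex.im h
      simp at this
      linarith
    have h2 : HasDerivAt (fun z : ℂ => pw (1 - e) (z - x0))
        (((1 - e : ℝ) : ℂ) * pw (-e) (u - x0)) u := by
      have h3 := pw_hasDeriv e (z := u - x0) (by simpa using hu.le) hu0
      exact HasDerivAt.comp_sub_const u (x0 : ℂ) h3
    have h3 := h1.sub (h2.const_mul (α0 / ((1 - e : ℝ) : ℂ)))
    rw [(hev hur hu).2] at h3
    refine h3.congr_deriv ?_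
    field_simp
  have key : ∀ t0 : ℝ, 0 < t0 → t0 < 1 → ‖A1 z - A1 ((x0 : ℂ) + t0 * ζ)‖ ≤
      ε' * ‖ζ‖ ^ (1 - e) / (1 - e) := by
    intro t0 h0 h1
    set f : ℝ → ℂ := fun t => A1 ((x0 : ℂ) + t * ζ) - A1 ((x0 : ℂ) + t0 * ζ) with hf
    set f' : ℝ → ℂ := fun t => ((α ((x0 : ℂ) + t * ζ) - α0) * pw (-e) (t * ζ)) * ζ with hf'
    set B : ℝ → ℝ := fun t => ε' * ‖ζ‖ ^ (1 - e) / (1 - e) * (t ^ (1 - e) - t0 ^ (1 - e)) with hB
    set B' : ℝ → ℝ := fun t => ε' * ‖ζ‖ ^ (1 - e) * t ^ (-e) with hB'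
    have hfd : ∀ t ∈ Icc t0 1, HasDerivAt f (f' t) t := by
      intro t ht
      obtain ⟨p1, p2, p3, p4⟩ := hpath t (h0.trans_le ht.1) ht.2
      have q1 := hA1d _ p1 p2
      have q2 : HasDerivAt (fun t : ℝ => (x0 : ℂ) + t * ζ) ζ t := by
        have := (((Complex.ofRealCLM.hasDerivAt (x := t)).mul_const ζ).const_add (x0 : ℂ))
        simpa using this
      have q3 := (HasDerivAt.comp t q1 q2).sub_const (A1 ((x0 : ℂ) + t0 * ζ))
      rw [add_sub_cancel_left] at q3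
      exact q3
    have hBd : ∀ t ∈ Icc t0 1, HasDerivAt B (B' t) t := by
      intro t ht
      have ht0 : 0 < t := h0.trans_le ht.1
      have q1 := ((Real.hasDerivAt_rpow_const (x := t) (p := 1 - e) (Or.inl ht0.ne')).sub_const
        (t0 ^ (1 - e))).const_mul (ε' * ‖ζ‖ ^ (1 - e) / (1 - e))
      refine q1.congr_deriv ?_
      rw [hB']
      have : (1 - e - 1) = -e := by ring
      rw [this]
      field_simp
    have hbound : ∀ t ∈ Ico t0 1, ‖f' t‖ ≤ B' t := by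
      intro t ht
      have ht0 : 0 < t := h0.trans_le ht.1
      obtain ⟨p1, p2, p3, p4⟩ := hpath t ht0 ht.2.le
      have hne : (t : ℂ) * ζ ≠ 0 := mul_ne_zero (by exact_mod_cast ht0.ne') hζ0
      simp only [hf', hB']
      rw [norm_mul, norm_mul, norm_pw _ hne, p3, Real.mul_rpow ht0.le hζn.le]
      have q1 := (hev p2 p1).1.le
      calc ‖α ((x0 : ℂ) + t * ζ) - α0‖ * (t ^ (-e) * ‖ζ‖ ^ (-e)) * ‖ζ‖
          ≤ ε' * (t ^ (-e) * ‖ζ‖ ^ (-e)) * ‖ζ‖ := by gcongr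
        _ = ε' * (‖ζ‖ ^ (-e) * ‖ζ‖) * t ^ (-e) := by ring
        _ = ε' * ‖ζ‖ ^ (1 - e) * t ^ (-e) := by
            congr 2
            rw [show (1 - e) = -e + 1 by ring, Real.rpow_add hζn, Real.rpow_one]
    have hmain := image_norm_le_of_norm_deriv_right_le_deriv_boundary' (f := f) (f' := f')
      (a := t0) (b := 1) (B := B) (B' := B')
      (fun t ht => (hfd t ht).continuousAt.continuousWithinAt)
      (fun t ht => (hfd t ⟨ht.1, ht.2.le⟩).hasDerivWithinAt) (by simp [hf, hB])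
      (fun t ht => (hBd t ht).continuousAt.continuousWithinAt)
      (fun t ht => (hBd t ⟨ht.1, ht.2.le⟩).hasDerivWithinAt) hbound
    have h2 := hmain (right_mem_Icc.2 h1.le)
    simp only [hf, hB] at h2
    rw [ofReal_one, one_mul, Real.one_rpow] at h2
    have e1 : (x0 : ℂ) + ζ = z := by rw [hζ]; ring
    rw [e1] at h2
    refine h2.trans ?_
    have q2 : 0 ≤ t0 ^ (1 - e) := by positivity
    have q3 : 0 ≤ ε' * ‖ζ‖ ^ (1 - e) / (1 - e) := by positivity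
    nlinarith
  -- limit t0 → 0
  have hlimA1 : Tendsto A1 (𝓝[UP] (x0 : ℂ)) (𝓝 a) := by
    have h1 : Tendsto (fun z : ℂ => pw (1 - e) (z - x0)) (𝓝[UP] (x0 : ℂ)) (𝓝 0) := by
      rw [tendsto_zero_iff_norm_tendsto_zero]
      have h2 : Tendsto (fun z : ℂ => ‖z - x0‖ ^ (1 - e)) (𝓝[UP] (x0 : ℂ)) (𝓝 0) := by
        have h3 : Tendsto (fun z : ℂ => ‖z - x0‖) (𝓝 (x0 : ℂ)) (𝓝 0) := by
          have : Continuous fun z : ℂ => ‖z - x0‖ := by fun_prop
          have := this.tendsto (x0 : ℂ)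
          rwa [sub_self, norm_zero] at this
        have h4 := h3.rpow_const (p := 1 - e) (Or.inr hs.le)
        rw [Real.zero_rpow hs.ne'] at h4
        exact h4.mono_left nhdsWithin_le_nhds
      refine h2.congr' ?_
      filter_upwards [self_mem_nhdsWithin] with u hu
      have hu0 : u - x0 ≠ 0 := by
        intro h
        have h5 := congrArg Complex.im h
        have h6 : (0:ℝ) < u.im := hu
        simp at h5
        linarith
      exact (norm_pw _ hu0).symm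
    have h2 := hlim.sub (h1.const_mul (α0 / ((1 - e : ℝ) : ℂ)))
    rwa [mul_zero, sub_zero] at h2
  have hpt : Tendsto (fun t0 : ℝ => (x0 : ℂ) + t0 * ζ) (𝓝[>] 0) (𝓝[UP] (x0 : ℂ)) := by
    rw [tendsto_nhdsWithin_iff]
    constructor
    · have : Continuous fun t0 : ℝ => (x0 : ℂ) + t0 * ζ := by fun_prop
      have := this.tendsto 0
      rw [ofReal_zero, zero_mul, add_zero] at this
      exact this.mono_left nhdsWithin_le_nhds
    · filter_upwards [self_mem_nhdsWithin, mem_nhdsWithin_of_mem_nhds (Iio_mem_nhds one_pos)]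
        with t ht ht'
      exact (hpath t ht (le_of_lt ht')).1
  have hfin : ‖A1 z - a‖ ≤ ε' * ‖ζ‖ ^ (1 - e) / (1 - e) := by
    have h1 : Tendsto (fun t0 : ℝ => ‖A1 z - A1 ((x0 : ℂ) + t0 * ζ)‖) (𝓝[>] 0)
        (𝓝 ‖A1 z - a‖) := ((hlimA1.comp hpt).const_sub (A1 z)).norm
    refine le_of_tendsto h1 ?_
    filter_upwards [self_mem_nhdsWithin, mem_nhdsWithin_of_mem_nhds (Iio_mem_nhds one_pos)]
      with t ht ht'
    exact key t ht ht'
  have hpwn : ‖pw (1 - e) ζ‖ = ‖ζ‖ ^ (1 - e) := norm_pw _ hζ0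
  have hpw0 := pw_ne (1 - e) ζ
  rw [dist_eq_norm]
  have e1 : (A z - a) / pw (1 - e) ζ - α0 / ((1 - e : ℝ) : ℂ) = (A1 z - a) / pw (1 - e) ζ := by
    simp only [hA1]
    rw [← hζ]
    field_simp
    ring
  rw [e1, norm_div, hpwn, div_lt_iff₀ (by positivity)]
  have h3 : ε' * ‖ζ‖ ^ (1 - e) / (1 - e) = ε / 2 * ‖ζ‖ ^ (1 - e) := by
    rw [hε']
    field_simp
  rw [h3] at hfin
  have h4 : 0 < ‖ζ‖ ^ (1 - e) := by positivity
  nlinarith

/-- The ratio form, on the closed half plane. -/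
theorem asym_ratio {A B α β : ℂ → ℂ} {x0 e : ℝ} {a b α0 β0 : ℂ} (he1 : e < 1) (hβ0 : β0 ≠ 0)
    (hA : DifferentiableOn ℂ A UP) (hB : DifferentiableOn ℂ B UP)
    (hAl : ∀ t : ℝ, Tendsto A (𝓝[UP] (t : ℂ)) (𝓝 (A t)))
    (hBl : ∀ t : ℝ, Tendsto B (𝓝[UP] (t : ℂ)) (𝓝 (B t)))
    (ha : A x0 = a) (hb : B x0 = b)
    (hα : Tendsto α (𝓝[UP] (x0 : ℂ)) (𝓝 α0)) (hβ : Tendsto β (𝓝[UP] (x0 : ℂ)) (𝓝 β0))
    (hdA : ∀ᶠ z in 𝓝[UP] (x0 : ℂ), deriv A z = α z * pw (-e) (z - x0))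
    (hdB : ∀ᶠ z in 𝓝[UP] (x0 : ℂ), deriv B z = β z * pw (-e) (z - x0)) {ε : ℝ} (hε : 0 < ε) :
    ∃ r > 0, ∀ z : ℂ, 0 ≤ z.im → z ≠ x0 → dist z (x0 : ℂ) < r →
      B z ≠ b ∧ ‖(A z - a) - α0 / β0 * (B z - b)‖ ≤ ε * ‖B z - b‖ := by
  have hs : 0 < 1 - e := by linarith
  have hsC : ((1 - e : ℝ) : ℂ) ≠ 0 := by exact_mod_cast hs.ne'
  have l1 := asym he1 hA (ha ▸ hAl x0) hα hdA
  have l2 := asym he1 hB (hb ▸ hBl x0) hβ hdB
  set c := ‖β0 / ((1 - e : ℝ) : ℂ)‖ with hc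
  have hc0 : 0 < c := norm_pos_iff.2 (div_ne_zero hβ0 hsC)
  have l3 : Tendsto (fun z => (A z - a) / pw (1 - e) (z - x0) -
      α0 / β0 * ((B z - b) / pw (1 - e) (z - x0))) (𝓝[UP] (x0 : ℂ)) (𝓝 0) := by
    have := l1.sub (l2.const_mul (α0 / β0))
    have e1 : α0 / ((1 - e : ℝ) : ℂ) - α0 / β0 * (β0 / ((1 - e : ℝ) : ℂ)) = 0 := by
      field_simp
      ring
    rwa [e1] at this
  have e1 := l2.norm.eventually (lt_mem_nhds (show c / 2 < c by linarith))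
  have e2 := l3.norm.eventually (gt_mem_nhds (show ‖(0:ℂ)‖ < ε * (c / 2) by
    rw [norm_zero]; positivity))
  have e3 := e1.and e2
  rw [eventually_nhdsWithin_iff, Metric.eventually_nhds_iff] at e3
  obtain ⟨r, hr, h⟩ := e3
  -- upper half plane
  have hup : ∀ z : ℂ, 0 < z.im → dist z (x0 : ℂ) < r →
      c / 2 * ‖z - x0‖ ^ (1 - e) ≤ ‖B z - b‖ ∧
      ‖(A z - a) - α0 / β0 * (B z - b)‖ ≤ ε * ‖B z - b‖ := by
    intro z hz hzr
    obtain ⟨h1, h2⟩ := h hzr hz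
    have hz0 : z - x0 ≠ 0 := by
      intro h
      have h5 := congrArg Complex.im h
      simp at h5
      linarith
    have hn : ‖pw (1 - e) (z - x0)‖ = ‖z - x0‖ ^ (1 - e) := norm_pw _ hz0
    have hnp : 0 < ‖z - x0‖ ^ (1 - e) := Real.rpow_pos_of_pos (norm_pos_iff.2 hz0) _
    have hp0 := pw_ne (1 - e) (z - x0)
    rw [norm_div, hn, lt_div_iff₀ hnp] at h1
    have e4 : (A z - a) / pw (1 - e) (z - x0) - α0 / β0 * ((B z - b) / pw (1 - e) (z - x0)) =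
        ((A z - a) - α0 / β0 * (B z - b)) / pw (1 - e) (z - x0) := by
      field_simp
    rw [e4, norm_div, hn, div_lt_iff₀ hnp] at h2
    refine ⟨h1.le, h2.le.trans ?_⟩
    have := mul_le_mul_of_nonneg_left h1.le hε.le
    linarith
  refine ⟨r, hr, ?_⟩
  intro z hz hz0 hzr
  have hzn : 0 < ‖z - x0‖ := norm_pos_iff.2 (sub_ne_zero.2 hz0)
  have hmain : c / 2 * ‖z - x0‖ ^ (1 - e) ≤ ‖B z - b‖ ∧
      ‖(A z - a) - α0 / β0 * (B z - b)‖ ≤ ε * ‖B z - b‖ := by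
    rcases eq_or_lt_of_le hz with h0 | h0
    · have hzr' : z = ((z.re : ℝ) : ℂ) := Complex.ext (by simp) (by simp [h0.symm])
      have hne : (𝓝[UP] z).NeBot := nhdsUP_neBot h0.le
      have tA : Tendsto A (𝓝[UP] z) (𝓝 (A z)) := by
        rw [hzr']; exact hAl _
      have tB : Tendsto B (𝓝[UP] z) (𝓝 (B z)) := by
        rw [hzr']; exact hBl _
      have hball : ∀ᶠ u in 𝓝[UP] z, dist u (x0 : ℂ) < r :=
        mem_nhdsWithin_of_mem_nhds (isOpen_ball.mem_nhds (mem_ball.2 hzr))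
      constructor
      · have t1 : Tendsto (fun u : ℂ => c / 2 * ‖u - x0‖ ^ (1 - e)) (𝓝[UP] z)
            (𝓝 (c / 2 * ‖z - x0‖ ^ (1 - e))) := by
          have h3 : Tendsto (fun u : ℂ => ‖u - x0‖) (𝓝 z) (𝓝 ‖z - x0‖) := by
            have : Continuous fun u : ℂ => ‖u - x0‖ := by fun_prop
            exact this.tendsto z
          exact ((h3.rpow_const (Or.inr hs.le)).const_mul (c / 2)).mono_left nhdsWithin_le_nhds
        refine le_of_tendsto_of_tendsto t1 (tB.sub_const b).norm ?_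
        filter_upwards [self_mem_nhdsWithin, hball] with u hu hur
        exact (hup u hu hur).1
      · refine le_of_tendsto_of_tendsto ((tA.sub_const a).sub ((tB.sub_const b).const_mul
          (α0 / β0))).norm ((tB.sub_const b).norm.const_mul ε) ?_
        filter_upwards [self_mem_nhdsWithin, hball] with u hu hur
        exact (hup u hu hur).2
    · exact hup z h0 hzr
  refine ⟨?_, hmain.2⟩
  intro hB0
  have h5 : 0 < c / 2 * ‖z - x0‖ ^ (1 - e) := by positivity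
  rw [hB0, sub_self, norm_zero] at hmain
  linarith [hmain.1]

end Pool.Agent.H19.RH
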