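import Pool.Agent.H19.RH.Sol
import Pool.Agent.H19.RH.Asym
import Pool.Agent.H87.FM.Main
import Pool.Agent.H13.Q1.FourH
import Pool.Agent.H13.Q1.FourG

set_option autoImplicit false
open Set Metric Filter Topology Complex
open scoped Real ComplexConjugate

/-! The ratio of the increments at the first mark is Cardy's function of the cross ratio. -/

namespace Pool.Agent.H19.RH

open Pool.Agent.Q1.M4
open Pool.Agent.H75.Perc (dir dir_cases)
open Pool.Agent.H69.Car (IsHalf HC HO)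
open H87.FM (w HP CH Sg Sol4)
open Pool.Agent.H13.Q1.Four (JJ rho J14 sig cardy)

variable {P : PType} {x y : ℤ → ℝ} {φ : ℂ → ℂ} {m2 m3 m4 : ℕ} {H : Fin 4 → ℂ → ℂ}

/-- Cross ratio of the preimages of the four marks under the chart `φ`. -/
noncomputable def lam (P : PType) (x y : ℤ → ℝ) (m2 m3 m4 : ℕ) (φ : ℂ → ℂ) : ℝ :=
  (cc P x y φ (P.N + m2) - cc P x y φ P.N) * (cc P x y φ (P.N + m4) - cc P x y φ (P.N + m3)) /
    ((cc P x y φ (P.N + m3) - cc P x y φ P.N) * (cc P x y φ (P.N + m4) - cc P x y φ (P.N + m2)))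

namespace Cht

lemma marks_lt (C : Cht P x y φ) (F : Fam P x y m2 m3 m4 H) :
    cc P x y φ P.N < cc P x y φ (P.N + m2) ∧ cc P x y φ (P.N + m2) < cc P x y φ (P.N + m3) ∧
      cc P x y φ (P.N + m3) < cc P x y φ (P.N + m4) := by
  have p0 := F.p0
  have p1 := F.p1
  have p2 := F.p2
  have p3 := F.p3
  have hN := N_pos P
  have s1 : P.N ∈ SS P := Finset.mem_Ico.2 ⟨le_rfl, by omega⟩
  have s2 : P.N + m2 ∈ SS P := Finset.mem_Ico.2 ⟨by omega, by omega⟩
  have s3 : P.N + m3 ∈ SS P := Finset.mem_Ico.2 ⟨by omega, by omega⟩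
  have s4 : P.N + m4 ∈ SS P := Finset.mem_Ico.2 ⟨by omega, by omega⟩
  exact ⟨(C.cc_lt s1 s2).2 (by omega), (C.cc_lt s2 s3).2 (by omega), (C.cc_lt s3 s4).2 (by omega)⟩

/-- the rest of the weight at the first mark -/
noncomputable def rest (P : PType) (x y : ℤ → ℝ) (φ : ℂ → ℂ) (m2 m3 m4 : ℕ) (z : ℂ) : ℂ :=
  kap P * Pi' ((SS P).erase P.N) (cc P x y φ) (ee P m2 m3 m4) z

lemma wt_rest (z : ℂ) : wt P x y φ m2 m3 m4 z =
    pw (ee P m2 m3 m4 P.N) (z - cc P x y φ P.N) * rest P x y φ m2 m3 m4 z := by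
  have s1 : P.N ∈ SS P := Finset.mem_Ico.2 ⟨le_rfl, by have := N_pos P; omega⟩
  unfold wt rest Pi'
  rw [← Finset.mul_prod_erase (SS P) (fun n => pw (ee P m2 m3 m4 n) (z - cc P x y φ n)) s1]
  ring

lemma kap_ne : kap P ≠ 0 := by
  intro h
  have := norm_phase (-(P.side (2 * P.N - 1)).2) 0
  unfold kap at h
  rw [h, norm_zero] at this
  norm_num at this

lemma rest_ne (z : ℂ) : rest P x y φ m2 m3 m4 z ≠ 0 := mul_ne_zero kap_ne (Pi'_ne z)

lemma rest_lim (C : Cht P x y φ) : Tendsto (rest P x y φ m2 m3 m4)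
    (𝓝[UP] (cc P x y φ P.N : ℂ)) (𝓝 (rest P x y φ m2 m3 m4 (cc P x y φ P.N))) := by
  have s1 : P.N ∈ SS P := Finset.mem_Ico.2 ⟨le_rfl, by have := N_pos P; omega⟩
  have h1 : AnalyticAt ℂ (Pi' ((SS P).erase P.N) (cc P x y φ) (ee P m2 m3 m4))
      (cc P x y φ P.N : ℂ) := by
    apply Pi'_analytic (by simp)
    intro n hn he
    have h2 := C.cc_inj s1 (Finset.mem_of_mem_erase hn) (by exact_mod_cast he)
    exact Finset.ne_of_mem_erase hn h2.symm
  exact (continuousAt_const.mul h1.continuousAt).tendsto.mono_left nhdsWithin_le_nhds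

/-- the exponent at the first mark -/
lemma ee_first (F : Fam P x y m2 m3 m4 H) : ee P m2 m3 m4 P.N < 1 := by
  have p0 := F.p0
  have p1 := F.p1
  have p2 := F.p2
  have hN := N_pos P
  have hmk : mkk P m2 m3 m4 P.N = 1 := by
    unfold mkk
    rw [if_pos rfl, if_neg (by omega), if_neg (by omega), if_neg (by omega)]
    norm_num
  have ht := P.turn (P.N - 1)
  rw [show P.N - 1 + 1 = P.N by omega] at ht
  unfold ee
  rw [hmk]
  have h1 : ((P.side P.N).2 - (P.side (P.N - 1)).2 + 1 : ℤ) ≤ 2 := by omega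
  have h2 : (((P.side P.N).2 - (P.side (P.N - 1)).2 + 1 : ℤ) : ℝ) ≤ 2 := by exact_mod_cast h1
  linarith

/-- if all the derivatives vanish, `H i` is constant -/
lemma const_of_deriv (C : Cht P x y φ) (F : Fam P x y m2 m3 m4 H) {i : Fin 4}
    (h : ∀ z : ℂ, 0 < z.im → deriv (fun z => H i (φ z)) z = 0) :
    ∀ z ∈ Reg P.Q x y, ∀ z' ∈ Reg P.Q x y, H i z = H i z' := by
  have hconv : Convex ℝ (UP : Set ℂ) := (convex_halfSpace_im_gt 0)
  have h1 : ∀ u ∈ UP, ∀ v ∈ UP, H i (φ u) = H i (φ v) := by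
    intro u hu v hv
    exact hconv.is_const_of_fderivWithin_eq_zero (𝕜 := ℂ) (f := fun z => H i (φ z))
      (C.comp_diff F i) (fun z hz => by
        rw [fderivWithin_of_isOpen isOpen_UP hz]
        ext
        rw [fderiv_apply_one_eq_deriv, h z hz]
        simp) hu hv
  have h2 : ∀ z ∈ Om P.Q x y, ∀ z' ∈ Om P.Q x y, H i z = H i z' := by
    intro z hz z' hz'
    rw [← C.half.image] at hz hz'
    obtain ⟨u, hu, rfl⟩ := hz
    obtain ⟨v, hv, rfl⟩ := hz'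
    exact h1 u hu v hv
  obtain ⟨z0, hz0⟩ := Om_nonempty C.hx C.hy P.good.ne
  have h3 : ∀ z ∈ Reg P.Q x y, H i z = H i z0 := by
    intro z hz
    have hcl : z ∈ closure (Om P.Q x y) := by rw [closure_Om C.hx C.hy]; exact hz
    have hne : (𝓝[Om P.Q x y] z).NeBot := mem_closure_iff_nhdsWithin_neBot.1 hcl
    have hsub : Om P.Q x y ⊆ Reg P.Q x y := by
      rw [← closure_Om C.hx C.hy]; exact subset_closure
    have t1 : Tendsto (H i) (𝓝[Om P.Q x y] z) (𝓝 (H i z)) :=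
      (F.cont i z hz).mono_left (nhdsWithin_mono _ hsub)
    have t2 : Tendsto (H i) (𝓝[Om P.Q x y] z) (𝓝 (H i z0)) := by
      refine tendsto_const_nhds.congr' ?_
      filter_upwards [self_mem_nhdsWithin] with u hu
      exact h2 z0 hz0 u hu
    exact tendsto_nhds_unique t1 t2
  intro z hz z' hz'
  rw [h3 z hz, h3 z' hz']

/-- **The ratio at the first mark**, line form. -/
theorem ratio_fam (C : Cht P x y φ) (F : Fam P x y m2 m3 m4 H)
    (hne : ∃ z ∈ Reg P.Q x y, ∃ z' ∈ Reg P.Q x y, H 1 z ≠ H 1 z') {ε : ℝ} (hε : 0 < ε) :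
    ∃ r > 0, ∀ z ∈ Reg P.Q x y, z ≠ pt x y (P.vert 0) → dist z (pt x y (P.vert 0)) < r →
      H 1 z ≠ H 1 (pt x y (P.vert 0)) ∧
      ‖(H 0 z - H 0 (pt x y (P.vert 0))) - (cardy (lam P x y m2 m3 m4 φ) : ℂ) *
        (H 1 z - H 1 (pt x y (P.vert 0)))‖ ≤ ε * ‖H 1 z - H 1 (pt x y (P.vert 0))‖ := by
  obtain ⟨l1, l2, l3⟩ := C.marks_lt F
  set c1 := cc P x y φ P.N with hc1
  set c2 := cc P x y φ (P.N + m2) with hc2
  set c3 := cc P x y φ (P.N + m3) with hc3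
  set c4 := cc P x y φ (P.N + m4) with hc4
  have hsol := C.sol4 F
  rw [← hc1, ← hc2, ← hc3, ← hc4] at hsol
  -- explicit solution
  set X : Fin 4 → ℝ := ![c1, c2, c3, c4] with hX
  have hXm : StrictMono X := by
    rw [Fin.strictMono_iff_lt_succ]
    intro i
    fin_cases i
    · exact l1
    · exact l2
    · exact l3
  have hex : Sol4 c1 c2 c3 c4 ∅ (JJ (rho X) c1 c2) (JJ (rho X) c2 c3) (JJ (rho X) c3 c4)
      (J14 X) := Pool.Agent.H13.Q1.Four.sol4 hXm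
  have hmarkR : (c1 : ℂ) ∈ CH := by
    show (0:ℝ) ≤ (c1 : ℂ).im
    simp
  have hUPHP : (UP : Set ℂ) ⊆ CH := fun z hz => le_of_lt (show (0:ℝ) < z.im from hz)
  have hi := fun a b => Pool.Agent.H13.Q1.Four.rho_int hXm.injective a b
  have g12 : Tendsto (JJ (rho X) c1 c2) (𝓝[HP] (c1 : ℂ)) (𝓝 (JJ (rho X) c1 c2 c1)) :=
    (Pool.Agent.H13.Q1.Four.JJ_cont (hi c1 c2) (c1 : ℂ) hmarkR).mono_left
      (nhdsWithin_mono _ hUPHP)
  have g23 : Tendsto (JJ (rho X) c2 c3) (𝓝[HP] (c1 : ℂ)) (𝓝 (JJ (rho X) c2 c3 c1)) :=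
    (Pool.Agent.H13.Q1.Four.JJ_cont (hi c2 c3) (c1 : ℂ) hmarkR).mono_left
      (nhdsWithin_mono _ hUPHP)
  have v12 : JJ (rho X) c1 c2 c1 = w * ((∫ u in c1..c2, sig X u : ℝ) : ℂ) :=
    Pool.Agent.H13.Q1.Four.val12 hXm
  have v23 : JJ (rho X) c2 c3 c1 = w * ((∫ u in c2..c3, sig X u : ℝ) : ℂ) :=
    Pool.Agent.H13.Q1.Four.val23 hXm
  have hratio : (∫ u in c1..c2, sig X u) / (∫ u in c2..c3, sig X u) =
      cardy (lam P x y m2 m3 m4 φ) := Pool.Agent.H13.Q1.Four.ratio_cardy l1 l2 l3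
  set I12 : ℝ := ∫ u in c1..c2, sig X u with hI12
  set I23 : ℝ := ∫ u in c2..c3, sig X u with hI23
  -- the cross ratio is in (0, 1), so the value is positive
  have hlam0 : 0 < lam P x y m2 m3 m4 φ := by
    unfold lam
    apply div_pos <;> apply mul_pos <;> linarith
  have hlam1 : lam P x y m2 m3 m4 φ < 1 := by
    unfold lam
    rw [div_lt_one (mul_pos (by linarith) (by linarith))]
    nlinarith
  have hcpos : 0 < cardy (lam P x y m2 m3 m4 φ) := by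
    have := Pool.Agent.H13.Q1.Four.cardy_strictMono (left_mem_Icc.2 zero_le_one)
      ⟨hlam0.le, hlam1.le⟩ hlam0
    rwa [Pool.Agent.H13.Q1.Four.cardy_zero] at this
  have hI23 : I23 ≠ 0 := by
    intro h
    rw [h, div_zero] at hratio
    linarith
  have hI23C : (I23 : ℂ) ≠ 0 := by exact_mod_cast hI23
  have hB23 : JJ (rho X) c2 c3 c1 ≠ 0 := by
    rw [v23]
    exact mul_ne_zero H87.FM.w_ne hI23C
  have hnz : ∃ z ∈ HP, JJ (rho X) c1 c2 z ≠ 0 ∨ JJ (rho X) c2 c3 z ≠ 0 ∨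
      JJ (rho X) c3 c4 z ≠ 0 ∨ J14 X z ≠ 0 := by
    have hneb : (𝓝[HP] (c1 : ℂ)).NeBot := nhdsUP_neBot (by simp)
    obtain ⟨z, hz, hz'⟩ := ((g23.eventually_ne hB23).and self_mem_nhdsWithin).exists
    exact ⟨z, hz', Or.inr (Or.inl hz)⟩
  obtain ⟨κ, hκ⟩ := Sol4.uniq_smul l1 l2 l3 hex hsol hnz
  -- κ is not zero
  have hκ0 : κ ≠ 0 := by
    rintro rfl
    obtain ⟨z, hz, z', hz', hzz⟩ := hne
    refine hzz (C.const_of_deriv F (i := 1) ?_ z hz z' hz')
    intro u hu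
    have h1 := (hκ u hu).2.1
    rw [ofReal_zero, zero_mul] at h1
    unfold ff at h1
    rw [C.dd_up F hu] at h1
    rcases mul_eq_zero.1 h1 with h2 | h2
    · exfalso
      rw [wt_rest] at h2
      exact mul_ne_zero (pw_ne _ _) (rest_ne _) h2
    · exact h2
  have hκC : (κ : ℂ) ≠ 0 := by exact_mod_cast hκ0
  -- limits of the transferred functions
  have f12 : Tendsto (ff P x y φ m2 m3 m4 H 0) (𝓝[UP] (c1 : ℂ))
      (𝓝 (κ * JJ (rho X) c1 c2 c1)) := by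
    refine (g12.const_mul (κ : ℂ)).congr' ?_
    filter_upwards [self_mem_nhdsWithin] with z hz
    exact (hκ z hz).1.symm
  have f23 : Tendsto (ff P x y φ m2 m3 m4 H 1) (𝓝[UP] (c1 : ℂ))
      (𝓝 (κ * JJ (rho X) c2 c3 c1)) := by
    refine (g23.const_mul (κ : ℂ)).congr' ?_
    filter_upwards [self_mem_nhdsWithin] with z hz
    exact (hκ z hz).2.1.symm
  -- the derivatives
  set R0 := rest P x y φ m2 m3 m4 c1 with hR0
  have hR0ne : R0 ≠ 0 := rest_ne _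
  have hrl : Tendsto (rest P x y φ m2 m3 m4) (𝓝[UP] (c1 : ℂ)) (𝓝 R0) := C.rest_lim
  have hder : ∀ i, ∀ᶠ z in 𝓝[UP] (c1 : ℂ), deriv (fun z => H i (φ z)) z =
      (ff P x y φ m2 m3 m4 H i z / rest P x y φ m2 m3 m4 z) *
        pw (-(ee P m2 m3 m4 P.N)) (z - c1) := by
    intro i
    filter_upwards [self_mem_nhdsWithin] with z hz
    unfold ff
    rw [C.dd_up F hz, wt_rest, ← hc1]
    have h1 : pw (ee P m2 m3 m4 P.N) (z - c1) * pw (-(ee P m2 m3 m4 P.N)) (z - c1) = 1 := by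
      rw [← pw_add, add_neg_cancel, pw_zero]
    have h2 := rest_ne (P := P) (x := x) (y := y) (φ := φ) (m2 := m2) (m3 := m3) (m4 := m4) z
    field_simp
    linear_combination (-deriv (fun z => H i (φ z)) z) * h1
  have hN2 := two_le_N P
  have hbt : (P.N : ℝ) ∈ Ioo (bt P) (bt P + P.N) := by
    have : (2:ℝ) ≤ P.N := by exact_mod_cast hN2
    unfold bt
    constructor <;> linarith
  have hφ1 : φ c1 = pt x y (P.vert 0) := by
    rw [hc1, show cc P x y φ P.N = sg P x y φ (P.N : ℝ) from rfl, C.sg_spec hbt,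
      crv_eq P (n := P.N) le_rfl (by linarith), sub_self, P.sidePt_zero, P.vert_N]
  have hA := asym_ratio (A := fun z => H 0 (φ z)) (B := fun z => H 1 (φ z)) (x0 := c1)
    (ee_first F) (div_ne_zero (mul_ne_zero hκC hB23) hR0ne)
    (C.comp_diff F 0) (C.comp_diff F 1) (C.comp_lim F 0) (C.comp_lim F 1) rfl rfl
    (f12.div hrl hR0ne) (f23.div hrl hR0ne) (hder 0) (hder 1) hε
  obtain ⟨r, hr, h⟩ := hA
  have hq : (κ * JJ (rho X) c1 c2 c1 / R0) / (κ * JJ (rho X) c2 c3 c1 / R0) =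
      (cardy (lam P x y m2 m3 m4 φ) : ℂ) := by
    rw [← hratio, v12, v23]
    push_cast
    have := H87.FM.w_ne
    field_simp
  rw [hq] at h
  -- pull back
  obtain ⟨δ, hδ, hinv⟩ := inv_cont C.half (real_HC c1) hr
  have hb : pt x y (P.vert 0) ≠ P.sidePt x y (P.N - 1) (1 / 2) := by
    rw [← hφ1, hc1, show cc P x y φ P.N = sg P x y φ (P.N : ℝ) from rfl, C.sg_spec hbt]
    exact C.crv_ne_b hbt
  refine ⟨min δ (dist (pt x y (P.vert 0)) (P.sidePt x y (P.N - 1) (1 / 2))),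
    lt_min hδ (dist_pos.2 hb), ?_⟩
  intro z hz hz0 hzd
  have hzb : z ≠ P.sidePt x y (P.N - 1) (1 / 2) := by
    rintro rfl
    have := hzd.trans_le (min_le_right _ _)
    rw [dist_comm] at this
    exact lt_irrefl _ this
  have hzi : z ∈ φ '' HC := by
    rw [C.half.closure, closure_Om C.hx C.hy]
    exact ⟨hz, hzb⟩
  obtain ⟨u, hu, rfl⟩ := hzi
  have hu1 : u ≠ c1 := by
    rintro rfl
    exact hz0 hφ1
  have hud := hinv u hu (by rw [hφ1]; exact hzd.trans_le (min_le_left _ _))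
  have := h u hu hu1 hud
  rw [hφ1] at this
  exact this

end Cht

variable {h12 h23 h34 : ℂ → ℂ}

/-- **The ratio at the first mark.** For limit data `D` with `h23` not constant, near the first mark
`h12` increases `cardy lam` times as fast as `h23`, `lam` the cross ratio of the four marks. -/
theorem Data4.ratio (C : Cht P x y φ) (D : Data4 P x y m2 m3 m4 h12 h23 h34)
    (hne : ∃ z ∈ Reg P.Q x y, ∃ z' ∈ Reg P.Q x y, h23 z ≠ h23 z') {ε : ℝ} (hε : 0 < ε) :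
    ∃ r > 0, ∀ z ∈ Reg P.Q x y, z ≠ pt x y (P.vert 0) → dist z (pt x y (P.vert 0)) < r →
      h23 z ≠ h23 (pt x y (P.vert 0)) ∧
      ‖(h12 z - h12 (pt x y (P.vert 0))) - (cardy (lam P x y m2 m3 m4 φ) : ℂ) *
        (h23 z - h23 (pt x y (P.vert 0)))‖ ≤ ε * ‖h23 z - h23 (pt x y (P.vert 0))‖ :=
  C.ratio_fam D.fam hne hε

/-- limit form -/
theorem Data4.ratio_tendsto (C : Cht P x y φ) (D : Data4 P x y m2 m3 m4 h12 h23 h34)
    (hne : ∃ z ∈ Reg P.Q x y, ∃ z' ∈ Reg P.Q x y, h23 z ≠ h23 z') :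
    Tendsto (fun z => (h12 z - h12 (pt x y (P.vert 0))) / (h23 z - h23 (pt x y (P.vert 0))))
      (𝓝[Reg P.Q x y \ {pt x y (P.vert 0)}] (pt x y (P.vert 0)))
      (𝓝 (cardy (lam P x y m2 m3 m4 φ) : ℂ)) := by
  rw [Metric.tendsto_nhdsWithin_nhds]
  intro ε hε
  obtain ⟨r, hr, h⟩ := D.ratio C hne (ε := ε / 2) (by linarith)
  refine ⟨r, hr, ?_⟩
  rintro z ⟨hz, hz0⟩ hzr
  obtain ⟨h1, h2⟩ := h z hz hz0 hzr
  have h3 : h23 z - h23 (pt x y (P.vert 0)) ≠ 0 := sub_ne_zero.2 h1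
  rw [dist_eq_norm]
  have e : (h12 z - h12 (pt x y (P.vert 0))) / (h23 z - h23 (pt x y (P.vert 0))) -
      (cardy (lam P x y m2 m3 m4 φ) : ℂ) =
      ((h12 z - h12 (pt x y (P.vert 0))) - (cardy (lam P x y m2 m3 m4 φ) : ℂ) *
        (h23 z - h23 (pt x y (P.vert 0)))) / (h23 z - h23 (pt x y (P.vert 0))) := by
    field_simp
  rw [e, norm_div, div_lt_iff₀ (norm_pos_iff.2 h3)]
  have := norm_pos_iff.2 h3
  nlinarith

end Pool.Agent.H19.RH
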