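import Mathlib

set_option autoImplicit false
open Set Metric Filter Topology MeasureTheory Complex
open scoped Real ComplexConjugate Interval

/-! Reflection principle for the upper half plane: local and global forms, Liouville. -/

namespace Pool.Agent.H19.RH

/-- open upper half plane -/
abbrev UP : Set ℂ := {z | 0 < z.im}

lemma isOpen_UP : IsOpen UP := isOpen_lt continuous_const Complex.continuous_im

/-- A continuous function which is holomorphic off the real line is holomorphic. -/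
theorem diff_of_line {f : ℂ → ℂ} {U : Set ℂ} (hU : IsOpen U) (hc : ContinuousOn f U)
    (hd : ∀ z ∈ U, z.im ≠ 0 → DifferentiableAt ℂ f z) : DifferentiableOn ℂ f U := by
  rw [← isConservativeOn_and_continuousOn_iff_isDifferentiableOn hU]
  refine ⟨?_, hc⟩
  intro z w hzw
  rw [← add_eq_zero_iff_eq_neg, wedgeIntegral_add_wedgeIntegral_eq]
  have hR : ([[z.re, w.re]] ×ℂ [[z.im, w.im]]) ⊆ U := hzw
  by_cases h0 : (0:ℝ) ∈ Ioo (min z.im w.im) (max z.im w.im)
  · -- split
    have h0' : (0:ℝ) ∈ [[z.im, w.im]] := by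
      rw [uIcc]; exact ⟨h0.1.le, h0.2.le⟩
    have hsub1 : [[z.im, 0]] ⊆ [[z.im, w.im]] := uIcc_subset_uIcc_left h0'
    have hsub2 : [[0, w.im]] ⊆ [[z.im, w.im]] := uIcc_subset_uIcc_right h0'
    have e1 := integral_boundary_rect_eq_zero_of_continuousOn_of_differentiableOn f z
      (⟨w.re, 0⟩ : ℂ) (hc.mono (fun p hp => hR ⟨hp.1, hsub1 hp.2⟩)) (by
        intro p hp
        have hp2 : p.im ∈ Ioo (min z.im 0) (max z.im 0) := hp.2
        have hp1 : p.re ∈ Ioo (min z.re w.re) (max z.re w.re) := hp.1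
        have hpU : p ∈ U := hR ⟨⟨hp1.1.le, hp1.2.le⟩, hsub1 ⟨hp2.1.le, hp2.2.le⟩⟩
        refine (hd p hpU ?_).differentiableWithinAt
        intro h
        rw [h] at hp2
        rcases le_total z.im 0 with hz | hz
        · rw [max_eq_right hz] at hp2; exact lt_irrefl _ hp2.2
        · rw [min_eq_right hz] at hp2; exact lt_irrefl _ hp2.1)
    have e2 := integral_boundary_rect_eq_zero_of_continuousOn_of_differentiableOn f
      (⟨z.re, 0⟩ : ℂ) w (hc.mono (fun p hp => hR ⟨hp.1, hsub2 hp.2⟩)) (by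
        intro p hp
        have hp2 : p.im ∈ Ioo (min 0 w.im) (max 0 w.im) := hp.2
        have hp1 : p.re ∈ Ioo (min z.re w.re) (max z.re w.re) := hp.1
        have hpU : p ∈ U := hR ⟨⟨hp1.1.le, hp1.2.le⟩, hsub2 ⟨hp2.1.le, hp2.2.le⟩⟩
        refine (hd p hpU ?_).differentiableWithinAt
        intro h
        rw [h] at hp2
        rcases le_total w.im 0 with hz | hz
        · rw [max_eq_left hz] at hp2; exact lt_irrefl _ hp2.2
        · rw [min_eq_left hz] at hp2; exact lt_irrefl _ hp2.1)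
    have i1 : ∀ x ∈ [[z.re, w.re]], ∀ a b : ℝ, [[a, b]] ⊆ [[z.im, w.im]] →
        IntervalIntegrable (fun y : ℝ => f (x + y * I)) volume a b := by
      intro x hx a b hab
      apply ContinuousOn.intervalIntegrable
      refine hc.comp (by fun_prop) ?_
      intro y hy
      apply hR
      constructor
      · simpa using hx
      · simpa using hab hy
    have a1 := intervalIntegral.integral_add_adjacent_intervals
      (i1 w.re right_mem_uIcc z.im 0 hsub1) (i1 w.re right_mem_uIcc 0 w.im hsub2)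
    have a2 := intervalIntegral.integral_add_adjacent_intervals
      (i1 z.re left_mem_uIcc z.im 0 hsub1) (i1 z.re left_mem_uIcc 0 w.im hsub2)
    rw [← a1, ← a2]
    simp only [smul_eq_mul] at e1 e2 ⊢
    linear_combination e1 + e2
  · refine integral_boundary_rect_eq_zero_of_continuousOn_of_differentiableOn f z w
      (hc.mono hR) ?_
    intro p hp
    have hp2 : p.im ∈ Ioo (min z.im w.im) (max z.im w.im) := hp.2
    have hp1 : p.re ∈ Ioo (min z.re w.re) (max z.re w.re) := hp.1
    have hpU : p ∈ U := hR ⟨⟨hp1.1.le, hp1.2.le⟩, ⟨hp2.1.le, hp2.2.le⟩⟩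
    refine (hd p hpU ?_).differentiableWithinAt
    intro h
    rw [h] at hp2
    exact h0 hp2

/-- The reflected extension of `f`. -/
noncomputable def refl (f : ℂ → ℂ) (z : ℂ) : ℂ :=
  if 0 ≤ z.im then extendFrom UP f z else conj (extendFrom UP f (conj z))

lemma closure_UP : {z : ℂ | 0 ≤ z.im} ⊆ closure UP := by
  intro z hz
  rw [Metric.mem_closure_iff]
  intro ε hε
  refine ⟨z + (ε / 2 : ℝ) * I, ?_, ?_⟩
  · have : (z + (ε / 2 : ℝ) * I).im = z.im + ε / 2 := by simp
    show 0 < (z + (ε / 2 : ℝ) * I).im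
    rw [this]
    have : 0 ≤ z.im := hz
    linarith
  · rw [dist_eq_norm]
    have : z - (z + (ε / 2 : ℝ) * I) = -((ε / 2 : ℝ) * I) := by ring
    rw [this, norm_neg, norm_mul, norm_I, mul_one, Complex.norm_real, Real.norm_eq_abs,
      abs_of_pos (by linarith)]
    linarith

lemma nhdsUP_neBot {z : ℂ} (hz : 0 ≤ z.im) : (𝓝[UP] z).NeBot :=
  mem_closure_iff_nhdsWithin_neBot.1 (closure_UP hz)

lemma extendFrom_eq_of_UP {f : ℂ → ℂ} {z : ℂ} (hz : 0 < z.im) (hf : ContinuousAt f z) :
    extendFrom UP f z = f z := by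
  have : (𝓝[UP] z).NeBot := nhdsUP_neBot hz.le
  exact extendFrom_eq (closure_UP hz.le) (hf.tendsto.mono_left nhdsWithin_le_nhds)

/-- Reflection principle on a symmetric open set. -/
theorem refl_diff {f : ℂ → ℂ} {U : Set ℂ} (hU : IsOpen U) (hs : ∀ z ∈ U, conj z ∈ U)
    (hd : DifferentiableOn ℂ f (U ∩ UP))
    (hl : ∀ y : ℝ, (y : ℂ) ∈ U → ∃ v : ℝ, Tendsto f (𝓝[UP] (y : ℂ)) (𝓝 (v : ℂ))) :
    DifferentiableOn ℂ (refl f) U ∧ (∀ z ∈ U, 0 < z.im → refl f z = f z) ∧
      (∀ y : ℝ, (y : ℂ) ∈ U → (refl f y).im = 0) ∧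
      (∀ y : ℝ, (y : ℂ) ∈ U → Tendsto f (𝓝[UP] (y : ℂ)) (𝓝 (refl f y))) ∧
      (∀ z ∈ U, refl f (conj z) = conj (refl f z)) := by
  have hUP : ∀ z ∈ U, 0 < z.im → DifferentiableAt ℂ f z := fun z hz hz' =>
    hd.differentiableAt ((hU.inter isOpen_UP).mem_nhds ⟨hz, hz'⟩)
  have hlim : ∀ z ∈ U ∩ {z : ℂ | 0 ≤ z.im}, ∃ v, Tendsto f (𝓝[UP] z) (𝓝 v) := by
    rintro z ⟨hz, hz'⟩
    rcases eq_or_lt_of_le (show 0 ≤ z.im from hz') with h | h
    · have hz2 : z = ((z.re : ℝ) : ℂ) := by
        apply Complex.ext <;> simp [h.symm]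
      rw [hz2] at hz ⊢
      obtain ⟨v, hv⟩ := hl z.re hz
      exact ⟨v, hv⟩
    · exact ⟨f z, (hUP z hz h).continuousAt.tendsto.mono_left nhdsWithin_le_nhds⟩
  set e := extendFrom UP f with he
  have hec : ContinuousOn e (U ∩ {z : ℂ | 0 ≤ z.im}) :=
    continuousOn_extendFrom (fun z hz => closure_UP hz.2) hlim
  have heU : ∀ z ∈ U, 0 < z.im → e z = f z := fun z hz hz' =>
    extendFrom_eq_of_UP hz' (hUP z hz hz').continuousAt
  have hereal : ∀ y : ℝ, (y : ℂ) ∈ U → ∃ v : ℝ, e y = v ∧ Tendsto f (𝓝[UP] (y : ℂ)) (𝓝 (v : ℂ)) := by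
    intro y hy
    obtain ⟨v, hv⟩ := hl y hy
    have : (𝓝[UP] (y : ℂ)).NeBot := nhdsUP_neBot (by simp)
    exact ⟨v, extendFrom_eq (closure_UP (by simp)) hv, hv⟩
  have hrU : ∀ z, 0 ≤ z.im → refl f z = e z := fun z hz => if_pos hz
  have hrL : ∀ z ∈ U, z.im ≤ 0 → refl f z = conj (e (conj z)) := by
    intro z hz hz'
    rcases eq_or_lt_of_le hz' with h | h
    · have hz2 : z = ((z.re : ℝ) : ℂ) := by
        apply Complex.ext <;> simp [h]
      rw [hrU z h.ge]
      rw [hz2, Complex.conj_ofReal]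
      rw [hz2] at hz
      obtain ⟨v, hv, -⟩ := hereal z.re hz
      rw [hv, Complex.conj_ofReal]
    · exact if_neg (not_le.2 h)
  have hcont : ContinuousOn (refl f) U := by
    have h1 : ContinuousOn (refl f) (U ∩ {z : ℂ | 0 ≤ z.im}) :=
      hec.congr (fun z hz => hrU z hz.2)
    have h2 : ContinuousOn (refl f) (U ∩ {z : ℂ | z.im ≤ 0}) := by
      have : ContinuousOn (fun z => conj (e (conj z))) (U ∩ {z : ℂ | z.im ≤ 0}) := by
        refine Complex.continuous_conj.comp_continuousOn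
          (hec.comp Complex.continuous_conj.continuousOn ?_)
        rintro z ⟨hz, hz'⟩
        refine ⟨hs z hz, ?_⟩
        show 0 ≤ (conj z).im
        rw [conj_im]
        have : z.im ≤ 0 := hz'
        linarith
      exact this.congr (fun z hz => hrL z hz.1 hz.2)
    intro z hz
    rcases lt_trichotomy z.im 0 with h | h | h
    · have hn : U ∩ {z : ℂ | z.im ≤ 0} ∈ 𝓝 z := inter_mem (hU.mem_nhds hz)
        (mem_of_superset ((isOpen_lt Complex.continuous_im continuous_const).mem_nhds h)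
          (fun w (hw : w.im < 0) => (hw.le : w.im ≤ 0)))
      exact (h2.continuousAt hn).continuousWithinAt
    · have a1 := h1 z ⟨hz, h.ge⟩
      have a2 := h2 z ⟨hz, h.le⟩
      have := a1.union a2
      rw [← inter_union_distrib_left] at this
      have huniv : {z : ℂ | 0 ≤ z.im} ∪ {z : ℂ | z.im ≤ 0} = univ := by
        ext w
        exact iff_of_true (le_total 0 w.im) trivial
      rwa [huniv, inter_univ] at this
    · have hn : U ∩ {z : ℂ | 0 ≤ z.im} ∈ 𝓝 z := inter_mem (hU.mem_nhds hz)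
        (mem_of_superset ((isOpen_lt continuous_const Complex.continuous_im).mem_nhds h)
          (fun w (hw : 0 < w.im) => (hw.le : 0 ≤ w.im)))
      exact (h1.continuousAt hn).continuousWithinAt
  refine ⟨diff_of_line hU hcont ?_, fun z hz hz' => (hrU z hz'.le).trans (heU z hz hz'), ?_, ?_, ?_⟩
  · intro z hz hz'
    rcases lt_or_gt_of_ne hz' with h | h
    · have hev : refl f =ᶠ[𝓝 z] fun w => conj (f (conj w)) := by
        filter_upwards [hU.mem_nhds hz,
          (isOpen_lt Complex.continuous_im continuous_const).mem_nhds h] with w hw hw'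
        have hw2 : w.im < 0 := hw'
        rw [hrL w hw hw2.le, heU (conj w) (hs w hw) (by rw [conj_im]; linarith)]
      rw [hev.differentiableAt_iff]
      have : DifferentiableAt ℂ f (conj z) := hUP (conj z) (hs z hz) (by rw [conj_im]; linarith)
      exact differentiableAt_conj_conj_iff.mpr this
    · have hev : refl f =ᶠ[𝓝 z] f := by
        filter_upwards [hU.mem_nhds hz,
          (isOpen_lt continuous_const Complex.continuous_im).mem_nhds h] with w hw hw'
        have hw2 : 0 < w.im := hw'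
        rw [hrU w hw2.le, heU w hw hw2]
      rw [hev.differentiableAt_iff]
      exact hUP z hz h
  · intro y hy
    obtain ⟨v, hv, -⟩ := hereal y hy
    rw [hrU _ (by simp), hv, ofReal_im]
  · intro y hy
    obtain ⟨v, hv, hv'⟩ := hereal y hy
    rw [hrU _ (by simp), hv]
    exact hv'
  · intro z hz
    rcases le_total 0 z.im with h | h
    · rw [hrU z h, hrL (conj z) (hs z hz) (by rw [conj_im]; linarith), Complex.conj_conj]
    · rw [hrL z hz h, hrU (conj z) (by rw [conj_im]; linarith), Complex.conj_conj]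

/-- `f` extends holomorphically across the real point `x`, with real values on the real line. -/
def RX (f : ℂ → ℂ) (x : ℝ) : Prop :=
  ∃ r > 0, ∃ g : ℂ → ℂ, DifferentiableOn ℂ g (ball (x : ℂ) r) ∧
    (∀ z ∈ ball (x : ℂ) r, 0 < z.im → g z = f z) ∧
    ∀ y : ℝ, (y : ℂ) ∈ ball (x : ℂ) r → (g y).im = 0

lemma conj_ball {x : ℝ} {r : ℝ} {z : ℂ} (hz : z ∈ ball (x : ℂ) r) : conj z ∈ ball (x : ℂ) r := by
  rw [mem_ball, dist_eq_norm] at hz ⊢
  rw [← Complex.conj_ofReal x, ← map_sub, Complex.norm_conj]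
  exact hz

/-- Local reflection with one exceptional point. -/
theorem rx_of_growth {f : ℂ → ℂ} {x r : ℝ} (hr : 0 < r)
    (hd : DifferentiableOn ℂ f (ball (x : ℂ) r ∩ UP))
    (hl : ∀ y : ℝ, (y : ℂ) ∈ ball (x : ℂ) r → y ≠ x →
      ∃ v : ℝ, Tendsto f (𝓝[UP] (y : ℂ)) (𝓝 (v : ℂ)))
    (hg : Tendsto (fun z => (z - x) * f z) (𝓝[UP] (x : ℂ)) (𝓝 0)) : RX f x := by
  set U : Set ℂ := ball (x : ℂ) r \ {(x : ℂ)} with hU
  have hUo : IsOpen U := isOpen_ball.sdiff isClosed_singleton
  have hUs : ∀ z ∈ U, conj z ∈ U := by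
    rintro z ⟨hz, hz'⟩
    refine ⟨conj_ball hz, ?_⟩
    intro h
    apply hz'
    have h2 : conj z = (x : ℂ) := h
    show z = x
    rw [← Complex.conj_conj z, h2, Complex.conj_ofReal]
  obtain ⟨h1, h2, h3, h4, h5⟩ := refl_diff hUo hUs
    (hd.mono (inter_subset_inter_left _ sdiff_subset))
    (fun y hy => hl y hy.1 (fun h => hy.2 (by rw [h]; rfl)))
  set F := refl f with hF
  have hb : ball (x : ℂ) r ∈ 𝓝 (x : ℂ) := ball_mem_nhds _ hr
  -- growth of F
  have hgF : Tendsto (fun z => (z - x) * F z) (𝓝[≠] (x : ℂ)) (𝓝 0) := by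
    rw [Metric.tendsto_nhdsWithin_nhds]
    intro ε hε
    rw [Metric.tendsto_nhdsWithin_nhds] at hg
    obtain ⟨δ, hδ, hδ'⟩ := hg (ε / 2) (by linarith)
    have key : ∀ z, 0 < z.im → dist z (x : ℂ) < δ → ‖(z - x) * f z‖ < ε / 2 := by
      intro z hz hzd
      have := hδ' hz hzd
      rwa [dist_zero_right] at this
    refine ⟨min δ r, lt_min hδ hr, ?_⟩
    intro z hz hzd
    have hz1 : dist z (x : ℂ) < δ := lt_of_lt_of_le hzd (min_le_left _ _)
    have hzU : z ∈ U := ⟨mem_ball.2 (lt_of_lt_of_le hzd (min_le_right _ _)), hz⟩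
    rw [dist_zero_right]
    rcases lt_trichotomy z.im 0 with h | h | h
    · have hc : 0 < (conj z).im := by rw [conj_im]; linarith
      have hcd : dist (conj z) (x : ℂ) < δ := by
        rw [dist_eq_norm] at hz1 ⊢
        rw [← Complex.conj_ofReal x, ← map_sub, Complex.norm_conj]
        exact hz1
      have e1 : F z = conj (f (conj z)) := by
        rw [← h2 (conj z) (hUs z hzU) hc, h5 z hzU, Complex.conj_conj]
      have e2 : ‖(z - x) * F z‖ = ‖(conj z - x) * f (conj z)‖ := by
        rw [e1, norm_mul, norm_mul, Complex.norm_conj, ← Complex.norm_conj (z - x), map_sub,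
          Complex.conj_ofReal]
      rw [e2]
      exact (key _ hc hcd).trans (by linarith)
    · have hz2 : z = ((z.re : ℝ) : ℂ) := by
        apply Complex.ext <;> simp [h]
      have hlim : Tendsto (fun w => ‖(w - x) * f w‖) (𝓝[UP] z) (𝓝 ‖(z - x) * F z‖) := by
        have hzU' := hzU
        rw [hz2] at hzU'
        have := h4 z.re hzU'
        rw [← hz2] at this
        have h6 : Tendsto (fun w : ℂ => w - x) (𝓝[UP] z) (𝓝 (z - x)) :=
          ((continuous_id.sub continuous_const).tendsto z).mono_left nhdsWithin_le_nhds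
        exact (h6.mul this).norm
      have : (𝓝[UP] z).NeBot := nhdsUP_neBot h.ge
      have hle : ‖(z - x) * F z‖ ≤ ε / 2 := by
        refine le_of_tendsto hlim ?_
        have h7 : ∀ᶠ w in 𝓝[UP] z, w ∈ UP := self_mem_nhdsWithin
        have h8 : ∀ᶠ w in 𝓝[UP] z, dist w (x : ℂ) < δ :=
          mem_nhdsWithin_of_mem_nhds ((isOpen_lt (continuous_id.dist continuous_const)
            continuous_const).mem_nhds hz1)
        filter_upwards [h7, h8] with w hw1 hw2
        exact (key w hw1 hw2).le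
      linarith
    · rw [h2 z hzU h]
      exact (key z h hz1).trans (by linarith)
  have hlo : (fun z => F z - F x) =o[𝓝[≠] (x : ℂ)] fun z => (z - x)⁻¹ := by
    rw [Asymptotics.isLittleO_iff_tendsto']
    · have h6 : Tendsto (fun z : ℂ => (z - x) * F x) (𝓝[≠] (x : ℂ)) (𝓝 0) := by
        have : Continuous fun z : ℂ => (z - x) * F x := by fun_prop
        have h7 := (this.tendsto (x : ℂ)).mono_left (nhdsWithin_le_nhds (s := {(x : ℂ)}ᶜ))
        simpa using h7
      have h7 := hgF.sub h6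
      rw [sub_zero] at h7
      refine h7.congr ?_
      intro z
      rw [div_inv_eq_mul]
      ring
    · filter_upwards [self_mem_nhdsWithin] with z hz h
      exfalso
      rw [inv_eq_zero, sub_eq_zero] at h
      exact hz h
  set g := Function.update F (x : ℂ) (limUnder (𝓝[≠] (x : ℂ)) F) with hgdef
  have hgd : DifferentiableOn ℂ g (ball (x : ℂ) r) :=
    differentiableOn_update_limUnder_of_isLittleO hb h1 hlo
  have hgne : ∀ z, z ≠ (x : ℂ) → g z = F z := fun z hz => Function.update_of_ne hz _ _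
  refine ⟨r, hr, g, hgd, ?_, ?_⟩
  · intro z hz hz'
    have hne : z ≠ x := by
      intro h
      rw [h] at hz'
      simp at hz'
    rw [hgne z hne]
    exact h2 z ⟨hz, hne⟩ hz'
  · intro y hy
    by_cases hyx : y = x
    · subst hyx
      have hc : ContinuousAt g (y : ℂ) := (hgd.differentiableAt hb).continuousAt
      have h6 : Tendsto (fun t : ℝ => (g t).im) (𝓝[≠] y) (𝓝 (g y).im) := by
        have : Tendsto (fun t : ℝ => g t) (𝓝 y) (𝓝 (g y)) :=
          hc.tendsto.comp (Complex.continuous_ofReal.tendsto y)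
        exact (Complex.continuous_im.tendsto _).comp (this.mono_left nhdsWithin_le_nhds)
      have h7 : Tendsto (fun t : ℝ => (g t).im) (𝓝[≠] y) (𝓝 0) := by
        refine tendsto_const_nhds.congr' ?_
        have hb' : ∀ᶠ t : ℝ in 𝓝[≠] y, (t : ℂ) ∈ ball (y : ℂ) r :=
          mem_nhdsWithin_of_mem_nhds ((Complex.continuous_ofReal.tendsto y) hb)
        filter_upwards [hb', self_mem_nhdsWithin] with t ht ht'
        have hne : (t : ℂ) ≠ (y : ℂ) := fun h => ht' (Complex.ofReal_injective h)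
        rw [hgne _ hne]
        exact (h3 t ⟨ht, hne⟩).symm
      exact tendsto_nhds_unique h6 h7
    · have hne : (y : ℂ) ≠ (x : ℂ) := fun h => hyx (Complex.ofReal_injective h)
      rw [hgne _ hne]
      exact h3 y ⟨hy, hne⟩

/-- Entire extension. -/
theorem entire_of_limits {f : ℂ → ℂ} (hd : DifferentiableOn ℂ f UP)
    (hl : ∀ y : ℝ, ∃ v : ℝ, Tendsto f (𝓝[UP] (y : ℂ)) (𝓝 (v : ℂ))) :
    Differentiable ℂ (refl f) ∧ (∀ z, 0 < z.im → refl f z = f z) ∧
      (∀ y : ℝ, (refl f y).im = 0) ∧ (∀ z, refl f (conj z) = conj (refl f z)) := by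
  obtain ⟨h1, h2, h3, h4, h5⟩ := refl_diff (f := f) isOpen_univ (fun z _ => mem_univ _)
    (by rw [univ_inter]; exact hd) (fun y _ => hl y)
  exact ⟨fun z => h1.differentiableAt univ_mem, fun z hz => h2 z (mem_univ _) hz,
    fun y => h3 y (mem_univ _), fun z => h5 z (mem_univ _)⟩

/-- Liouville in the half plane. -/
theorem const_of_limits {f : ℂ → ℂ} (hd : DifferentiableOn ℂ f UP)
    (hl : ∀ y : ℝ, ∃ v : ℝ, Tendsto f (𝓝[UP] (y : ℂ)) (𝓝 (v : ℂ)))
    {C R : ℝ} (hb : ∀ z, 0 < z.im → R ≤ ‖z‖ → ‖f z‖ ≤ C) :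
    ∃ c : ℝ, ∀ z, 0 < z.im → f z = c := by
  obtain ⟨h1, h2, h3, h5⟩ := entire_of_limits hd hl
  have hbd : ∀ z, R + 1 ≤ ‖z‖ → ‖refl f z‖ ≤ C := by
    intro z hz
    rcases lt_trichotomy z.im 0 with h | h | h
    · have hc : 0 < (conj z).im := by rw [conj_im]; linarith
      have := hb (conj z) hc (by rw [Complex.norm_conj]; linarith)
      rw [← h2 _ hc, h5, Complex.norm_conj] at this
      exact this
    · have hne : (𝓝[UP] z).NeBot := nhdsUP_neBot h.ge
      have hlim : Tendsto (fun w => ‖refl f w‖) (𝓝[UP] z) (𝓝 ‖refl f z‖) :=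
        ((h1 z).continuousAt.norm.tendsto).mono_left nhdsWithin_le_nhds
      refine le_of_tendsto hlim ?_
      have h8 : ∀ᶠ w in 𝓝[UP] z, R < ‖w‖ :=
        mem_nhdsWithin_of_mem_nhds ((isOpen_lt continuous_const continuous_norm).mem_nhds
          (show R < ‖z‖ by linarith))
      filter_upwards [self_mem_nhdsWithin, h8] with w hw1 hw2
      rw [h2 w hw1]
      exact hb w hw1 hw2.le
    · rw [h2 z h]
      exact hb z h (by linarith)
  have hB : Bornology.IsBounded (range (refl f)) := by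
    obtain ⟨C', hC'⟩ := (isCompact_closedBall (0:ℂ) (R + 1)).exists_bound_of_continuousOn
      h1.continuous.continuousOn
    rw [isBounded_iff_forall_norm_le]
    refine ⟨max C C', ?_⟩
    rintro _ ⟨z, rfl⟩
    rcases le_total (R + 1) ‖z‖ with h | h
    · exact (hbd z h).trans (le_max_left _ _)
    · exact (hC' z (mem_closedBall_zero_iff.2 h)).trans (le_max_right _ _)
  refine ⟨(refl f 0).re, ?_⟩
  intro z hz
  rw [← h2 z hz, h1.apply_eq_apply_of_bounded hB z 0]
  apply Complex.ext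
  · simp
  · have := h3 0
    simpa using this

end Pool.Agent.H19.RH
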