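import Pool.Agent.H19.RH.Vert
import Pool.Agent.H87.FM.Defs
import Pool.Agent.Q1.M4.Data

set_option autoImplicit false
open Set Metric Filter Topology Complex
open scoped Real ComplexConjugate

/-! Four marks: the data which the lattice gives on a polyomino domain, and the line form. -/

namespace Pool.Agent.H19.RH

open Pool.Agent.Q1.M4
open Pool.Agent.H75.Perc (dir dir_cases)
open H87.FM (w)

/-- Limits of the (normalised) primitives of the four mark parafermions on the polyomino domain of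
`P` with the grid `x, y`. The marks are the boundary vertices `0 < m2 < m3 < m4` of the boundary
walk; `w = exp (2 π i / 3)`; along a side with lifted direction `k` the masses `a, b, c, d` of the
four components are real numbers. -/
structure Data4 (P : PType) (x y : ℤ → ℝ) (m2 m3 m4 : ℕ) (h12 h23 h34 : ℂ → ℂ) : Prop where
  p0 : 0 < m2
  p1 : m2 < m3
  p2 : m3 < m4
  p3 : m4 < P.N
  cont12 : ContinuousOn h12 (Reg P.Q x y)
  cont23 : ContinuousOn h23 (Reg P.Q x y)
  cont34 : ContinuousOn h34 (Reg P.Q x y)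
  holo12 : DifferentiableOn ℂ h12 (Om P.Q x y)
  holo23 : DifferentiableOn ℂ h23 (Om P.Q x y)
  holo34 : DifferentiableOn ℂ h34 (Om P.Q x y)
  hold12 : ∃ C > 0, ∃ r > 0, ∀ z ∈ Reg P.Q x y, ∀ z' ∈ Reg P.Q x y, ‖z - z'‖ ≤ r →
    ‖h12 z - h12 z'‖ ≤ C * ‖z - z'‖ ^ (2 / 3 : ℝ)
  hold23 : ∃ C > 0, ∃ r > 0, ∀ z ∈ Reg P.Q x y, ∀ z' ∈ Reg P.Q x y, ‖z - z'‖ ≤ r →
    ‖h23 z - h23 z'‖ ≤ C * ‖z - z'‖ ^ (2 / 3 : ℝ)
  hold34 : ∃ C > 0, ∃ r > 0, ∀ z ∈ Reg P.Q x y, ∀ z' ∈ Reg P.Q x y, ‖z - z'‖ ≤ r →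
    ‖h34 z - h34 z'‖ ≤ C * ‖z - z'‖ ^ (2 / 3 : ℝ)
  side1 : ∀ n, n < m2 → ∀ t t' : ℝ, 0 ≤ t → t ≤ t' → t' ≤ 1 → ∃ a c d : ℝ,
    h23 (P.sidePt x y n t') - h23 (P.sidePt x y n t) = phase (P.side n).2 0 * (a + c) ∧
    h34 (P.sidePt x y n t') - h34 (P.sidePt x y n t) = phase (P.side n).2 0 * (a + c + d) ∧
    h12 (P.sidePt x y n t') - h12 (P.sidePt x y n t) = phase (P.side n).2 0 * (c + w ^ 2 * d)
  side2 : ∀ n, m2 ≤ n → n < m3 → ∀ t t' : ℝ, 0 ≤ t → t ≤ t' → t' ≤ 1 → ∃ a b d : ℝ,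
    h23 (P.sidePt x y n t') - h23 (P.sidePt x y n t) = phase (P.side n).2 (-1) * (w * a + b) ∧
    h34 (P.sidePt x y n t') - h34 (P.sidePt x y n t) = phase (P.side n).2 (-1) * (w * (a + d)) ∧
    h12 (P.sidePt x y n t') - h12 (P.sidePt x y n t) = phase (P.side n).2 (-1) * (b + d)
  side3 : ∀ n, m3 ≤ n → n < m4 → ∀ t t' : ℝ, 0 ≤ t → t ≤ t' → t' ≤ 1 → ∃ b c d : ℝ,
    h23 (P.sidePt x y n t') - h23 (P.sidePt x y n t) = phase (P.side n).2 0 * (b + c) ∧
    h34 (P.sidePt x y n t') - h34 (P.sidePt x y n t) = phase (P.side n).2 0 * (c + w * d) ∧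
    h12 (P.sidePt x y n t') - h12 (P.sidePt x y n t) = phase (P.side n).2 0 * (b + c + d)
  side4 : ∀ n, m4 ≤ n → n < P.N → ∀ t t' : ℝ, 0 ≤ t → t ≤ t' → t' ≤ 1 → ∃ a b c : ℝ,
    h23 (P.sidePt x y n t') - h23 (P.sidePt x y n t) = phase (P.side n).2 1 * (a + b + c) ∧
    h34 (P.sidePt x y n t') - h34 (P.sidePt x y n t) = phase (P.side n).2 1 * (a + c) ∧
    h12 (P.sidePt x y n t') - h12 (P.sidePt x y n t) = phase (P.side n).2 1 * (b + c)

/-- the four functions -/
noncomputable def fam (h12 h23 h34 : ℂ → ℂ) : Fin 4 → ℂ → ℂ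
  | 0 => h12
  | 1 => h23
  | 2 => h34
  | 3 => fun z => -(w * h23 z + h34 z + w ^ 2 * h12 z)

/-- the arc of a side -/
def arc (m2 m3 m4 n : ℕ) : Fin 4 := if n < m2 then 0 else if n < m3 then 1 else if n < m4 then 2
  else 3

/-- phase exponents -/
def pe : Fin 4 → Fin 4 → ℤ
  | 0, 3 => 4
  | 0, _ => 0
  | 1, 2 => 1
  | 1, _ => -1
  | 2, _ => 0
  | 3, _ => 1

/-- The line form of the boundary conditions. -/
structure Fam (P : PType) (x y : ℤ → ℝ) (m2 m3 m4 : ℕ) (H : Fin 4 → ℂ → ℂ) : Prop where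
  p0 : 0 < m2
  p1 : m2 < m3
  p2 : m3 < m4
  p3 : m4 < P.N
  cont : ∀ i, ContinuousOn (H i) (Reg P.Q x y)
  holo : ∀ i, DifferentiableOn ℂ (H i) (Om P.Q x y)
  hold : ∀ i, ∃ C > 0, ∃ r > 0, ∀ z ∈ Reg P.Q x y, ∀ z' ∈ Reg P.Q x y, ‖z - z'‖ ≤ r →
    ‖H i z - H i z'‖ ≤ C * ‖z - z'‖ ^ (2 / 3 : ℝ)
  rel : ∀ z, w * H 1 z + H 2 z + w ^ 2 * H 0 z + H 3 z = 0
  line : ∀ n < P.N, ∀ i, i ≠ arc m2 m3 m4 n → ∀ t ∈ Icc (0:ℝ) 1, ∀ t' ∈ Icc (0:ℝ) 1, ∃ ρ : ℝ,
    H i (P.sidePt x y n t') - H i (P.sidePt x y n t) =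
      ρ * phase (P.side n).2 (pe (arc m2 m3 m4 n) i)

lemma phase_add (k e e' : ℤ) : phase k (e + e') = phase k e * phase 0 e' := by
  unfold phase
  rw [← Complex.exp_add]
  congr 1
  push_cast
  ring

lemma phase_two : phase 0 2 = w := by
  unfold phase H87.FM.w
  congr 1
  push_cast
  ring

lemma phase_four : phase 0 4 = w ^ 2 := by
  rw [show (4:ℤ) = 2 + 2 by norm_num, phase_add, phase_two]
  ring

lemma phase_six : phase 0 6 = 1 := by
  rw [show (6:ℤ) = 4 + 2 by norm_num, phase_add, phase_two, phase_four]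
  rw [← H87.FM.w_cube]
  ring

lemma norm_phase (k e : ℤ) : ‖phase k e‖ = 1 := by
  unfold phase
  exact Complex.norm_exp_ofReal_mul_I _

variable {P : PType} {x y : ℤ → ℝ} {m2 m3 m4 : ℕ} {h12 h23 h34 : ℂ → ℂ}

theorem Data4.fam (D : Data4 P x y m2 m3 m4 h12 h23 h34) :
    Fam P x y m2 m3 m4 (fam h12 h23 h34) := by
  have hw := H87.FM.w_rel
  have hw2 : w ^ 2 = -1 - w := H87.FM.w_sq
  have hw4 : ∀ k, phase k 4 = phase k 0 * w ^ 2 := by
    intro k
    rw [← phase_four, ← phase_add]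
    rfl
  have hw1 : ∀ k, phase k 1 = phase k (-1) * w := by
    intro k
    rw [← phase_two, ← phase_add]
    rfl
  have key : ∀ n < P.N, ∀ i, i ≠ arc m2 m3 m4 n → ∀ t t' : ℝ, 0 ≤ t → t ≤ t' → t' ≤ 1 → ∃ ρ : ℝ,
      RH.fam h12 h23 h34 i (P.sidePt x y n t') - RH.fam h12 h23 h34 i (P.sidePt x y n t) =
        ρ * phase (P.side n).2 (pe (arc m2 m3 m4 n) i) := by
    intro n hn i hi t t' h0 h1 h2
    unfold arc at hi ⊢
    by_cases c1 : n < m2
    · rw [if_pos c1] at hi ⊢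
      obtain ⟨a, c, d, e1, e2, e3⟩ := D.side1 n c1 t t' h0 h1 h2
      fin_cases i
      · exact absurd rfl hi
      · exact ⟨a + c, by simp only [RH.fam, pe]; rw [e1]; push_cast; ring⟩
      · exact ⟨a + c + d, by simp only [RH.fam, pe]; rw [e2]; push_cast; ring⟩
      · refine ⟨a + d, ?_⟩
        show -(w * h23 (P.sidePt x y n t') + h34 (P.sidePt x y n t') +
            w ^ 2 * h12 (P.sidePt x y n t')) - -(w * h23 (P.sidePt x y n t) +
            h34 (P.sidePt x y n t) + w ^ 2 * h12 (P.sidePt x y n t)) =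
          ((a + d : ℝ) : ℂ) * phase (P.side n).2 4
        rw [hw4]
        push_cast
        linear_combination (-w) * e1 - e2 - w ^ 2 * e3 - phase (P.side n).2 0 *
          ((a + c + d) * hw + d * (w ^ 2 - w) * hw)
    · rw [if_neg c1] at hi ⊢
      by_cases c2 : n < m3
      · rw [if_pos c2] at hi ⊢
        obtain ⟨a, b, d, e1, e2, e3⟩ := D.side2 n (not_lt.1 c1) c2 t t' h0 h1 h2
        fin_cases i
        · exact ⟨b + d, by simp only [RH.fam, pe]; rw [e3]; push_cast; ring⟩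
        · exact absurd rfl hi
        · refine ⟨a + d, ?_⟩
          show h34 (P.sidePt x y n t') - h34 (P.sidePt x y n t) =
            ((a + d : ℝ) : ℂ) * phase (P.side n).2 1
          rw [e2, hw1]
          push_cast
          ring
        · refine ⟨a + b + d, ?_⟩
          simp only [RH.fam, pe]
          push_cast
          linear_combination (-w) * e1 - e2 - w ^ 2 * e3 - phase (P.side n).2 (-1) *
            ((a + b + d) * hw)
      · rw [if_neg c2] at hi ⊢
        by_cases c3 : n < m4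
        · rw [if_pos c3] at hi ⊢
          obtain ⟨b, c, d, e1, e2, e3⟩ := D.side3 n (not_lt.1 c2) c3 t t' h0 h1 h2
          fin_cases i
          · exact ⟨b + c + d, by simp only [RH.fam, pe]; rw [e3]; push_cast; ring⟩
          · exact ⟨b + c, by simp only [RH.fam, pe]; rw [e1]; push_cast; ring⟩
          · exact absurd rfl hi
          · refine ⟨b + d, ?_⟩
            simp only [RH.fam, pe]
            push_cast
            linear_combination (-w) * e1 - e2 - w ^ 2 * e3 - phase (P.side n).2 0 *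
              ((b + c + d) * hw)
        · rw [if_neg c3] at hi ⊢
          obtain ⟨a, b, c, e1, e2, e3⟩ := D.side4 n (not_lt.1 c3) hn t t' h0 h1 h2
          fin_cases i
          · exact ⟨b + c, by simp only [RH.fam, pe]; rw [e3]; push_cast; ring⟩
          · exact ⟨a + b + c, by simp only [RH.fam, pe]; rw [e1]; push_cast; ring⟩
          · exact ⟨a + c, by simp only [RH.fam, pe]; rw [e2]; push_cast; ring⟩
          · exact absurd rfl hi
  refine ⟨D.p0, D.p1, D.p2, D.p3, ?_, ?_, ?_, ?_, ?_⟩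
  · intro i
    fin_cases i
    · exact D.cont12
    · exact D.cont23
    · exact D.cont34
    · exact (((D.cont23.const_smul w).add D.cont34).add (D.cont12.const_smul (w ^ 2))).neg
  · intro i
    fin_cases i
    · exact D.holo12
    · exact D.holo23
    · exact D.holo34
    · exact (((D.holo23.const_mul w).add D.holo34).add (D.holo12.const_mul (w ^ 2))).neg
  · intro i
    fin_cases i
    · exact D.hold12
    · exact D.hold23
    · exact D.hold34
    · obtain ⟨C1, hC1, r1, hr1, b1⟩ := D.hold12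
      obtain ⟨C2, hC2, r2, hr2, b2⟩ := D.hold23
      obtain ⟨C3, hC3, r3, hr3, b3⟩ := D.hold34
      refine ⟨C1 + C2 + C3, by positivity, min r1 (min r2 r3), lt_min hr1 (lt_min hr2 hr3), ?_⟩
      intro z hz z' hz' hd
      have a1 := b1 z hz z' hz' (hd.trans (min_le_left _ _))
      have a2 := b2 z hz z' hz' (hd.trans ((min_le_right _ _).trans (min_le_left _ _)))
      have a3 := b3 z hz z' hz' (hd.trans ((min_le_right _ _).trans (min_le_right _ _)))
      have hwn : ‖w‖ = 1 := by rw [← phase_two]; exact norm_phase _ _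
      have e : RH.fam h12 h23 h34 3 z - RH.fam h12 h23 h34 3 z' =
          -(w * (h23 z - h23 z') + (h34 z - h34 z') + w ^ 2 * (h12 z - h12 z')) := by
        simp only [RH.fam]
        ring
      show ‖RH.fam h12 h23 h34 3 z - RH.fam h12 h23 h34 3 z'‖ ≤ _
      rw [e, norm_neg]
      refine (norm_add_le _ _).trans ((add_le_add (norm_add_le _ _) le_rfl).trans ?_)
      rw [norm_mul, norm_mul, norm_pow, hwn, one_pow, one_mul, one_mul]
      linarith
  · intro z
    simp only [RH.fam]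
    ring
  · intro n hn i hi t ht t' ht'
    rcases le_total t t' with h | h
    · exact key n hn i hi t t' ht.1 h ht'.2
    · obtain ⟨ρ, hρ⟩ := key n hn i hi t' t ht'.1 h ht.2
      exact ⟨-ρ, by push_cast; linear_combination -hρ⟩

end Pool.Agent.H19.RH
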