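import Pool.Agent.Q1.M4.Geo7
import Pool.Agent.H69.Car.Half

set_option autoImplicit false
open Set Metric Filter Topology Complex
open scoped Real

/-! The boundary curve of a polyomino domain, `Om P.Q x y` is a Jordan domain. -/

namespace Pool.Agent.H19.RH

open Pool.Agent.Q1.M4
open Pool.Agent.H75.Perc (dir dir_cases)
open Pool.Agent.H81.Q1 (IsJordanDomain)

variable {x y : ℤ → ℝ}

/-- the point of the open grid edge of a side -/
noncomputable def spt (x y : ℤ → ℝ) (s : Cell × ℤ) (t : ℝ) : ℂ :=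
  pt x y (tail s) + (t * len x y s : ℝ) * udir s.2

lemma sidePt_spt (P : PType) (n : ℕ) (t : ℝ) : P.sidePt x y n t = spt x y (P.side n) t := by
  rw [P.sidePt_eq]; rfl

lemma grid_no (hx : StrictMono x) {i a : ℤ} (h1 : x i < x a) (h2 : x a < x (i + 1)) : False := by
  rw [hx.lt_iff_lt] at h1 h2
  omega

/-- the labels of the side of an open side point -/
lemma spt_pos (hx : StrictMono x) (hy : StrictMono y) (s : Cell × ℤ) {t : ℝ}
    (ht : t ∈ Ioo (0:ℝ) 1) :
    (∃ i j : ℤ, Pool.Agent.Q1.M4.lab s = (2 * i + 1, 2 * j) ∧ (spt x y s t).im = y j ∧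
      x i < (spt x y s t).re ∧ (spt x y s t).re < x (i + 1)) ∨
    (∃ i j : ℤ, Pool.Agent.Q1.M4.lab s = (2 * i, 2 * j + 1) ∧ (spt x y s t).re = x i ∧
      y j < (spt x y s t).im ∧ (spt x y s t).im < y (j + 1)) := by
  obtain ⟨⟨i, j⟩, k⟩ := s
  have X1 : x i < x (i + 1) := hx (by omega)
  have Y1 : y j < y (j + 1) := hy (by omega)
  obtain ⟨h0, h1⟩ := ht
  rcases udir_cases k with ⟨a, e⟩ | ⟨a, e⟩ | ⟨a, e⟩ | ⟨a, e⟩ <;>
  rcases dir_cases k with ⟨b, f⟩ | ⟨b, f⟩ | ⟨b, f⟩ | ⟨b, f⟩ <;>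
  try (exfalso; omega)
  · left
    have h2 : k % 2 = 0 := by omega
    refine ⟨i, j, ?_, ?_, ?_, ?_⟩
    · rw [lab_eq_tail]; simp [tail, a, f]; constructor <;> ring
    · simp [spt, pt, tail, len, a, h2, e]
    · simp [spt, pt, tail, len, a, h2, e]; nlinarith
    · simp [spt, pt, tail, len, a, h2, e]; nlinarith
  · right
    have h2 : k % 2 = 1 := by omega
    refine ⟨i + 1, j, ?_, ?_, ?_, ?_⟩
    · rw [lab_eq_tail]; simp [tail, a, f]; constructor <;> ring
    · simp [spt, pt, tail, len, a, h2, e]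
    · simp [spt, pt, tail, len, a, h2, e]; nlinarith
    · simp [spt, pt, tail, len, a, h2, e]; nlinarith
  · left
    have h2 : k % 2 = 0 := by omega
    refine ⟨i, j + 1, ?_, ?_, ?_, ?_⟩
    · rw [lab_eq_tail]; simp [tail, a, f]; constructor <;> ring
    · simp [spt, pt, tail, len, a, h2, e]
    · simp [spt, pt, tail, len, a, h2, e]; nlinarith
    · simp [spt, pt, tail, len, a, h2, e]; nlinarith
  · right
    have h2 : k % 2 = 1 := by omega
    refine ⟨i, j, ?_, ?_, ?_, ?_⟩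
    · rw [lab_eq_tail]; simp [tail, a, f]; constructor <;> ring
    · simp [spt, pt, tail, len, a, h2, e]
    · simp [spt, pt, tail, len, a, h2, e]; nlinarith
    · simp [spt, pt, tail, len, a, h2, e]; nlinarith

lemma spt_lab (hx : StrictMono x) (hy : StrictMono y) {s s' : Cell × ℤ} {t t' : ℝ}
    (ht : t ∈ Ioo (0:ℝ) 1) (ht' : t' ∈ Ioo (0:ℝ) 1) (h : spt x y s t = spt x y s' t') :
    Pool.Agent.Q1.M4.lab s = Pool.Agent.Q1.M4.lab s' := by
  rcases spt_pos hx hy s ht with ⟨i, j, e, a, b, c⟩ | ⟨i, j, e, a, b, c⟩ <;>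
  rcases spt_pos hx hy s' ht' with ⟨i', j', e', a', b', c'⟩ | ⟨i', j', e', a', b', c'⟩ <;>
  rw [← h] at a' b' c'
  · have h1 : j = j' := hy.injective (a.symm.trans a')
    have h2 : i' = i := line_uniq hx b c b'.le c'.le
    rw [e, e', h1, h2]
  · rw [a'] at b c
    exact (grid_no hx b c).elim
  · rw [a] at b' c'
    exact (grid_no hx b' c').elim
  · have h1 : i = i' := hx.injective (a.symm.trans a')
    have h2 : j' = j := line_uniq hy b c b'.le c'.le
    rw [e, e', h1, h2]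

lemma spt_congr {s s' : Cell × ℤ} (h : Eqv s s') (t : ℝ) : spt x y s t = spt x y s' t := by
  unfold spt
  rw [h.tail, h.len, h.udir]

lemma spt_inj_t (hx : StrictMono x) (hy : StrictMono y) (s : Cell × ℤ) {t t' : ℝ}
    (h : spt x y s t = spt x y s t') : t = t' := by
  unfold spt at h
  have h1 := add_left_cancel h
  have h2 := mul_right_cancel₀ (udir_ne s.2) h1
  have h3 : t * len x y s = t' * len x y s := by exact_mod_cast h2
  exact mul_right_cancel₀ (side_len_pos hx hy s).ne' h3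

lemma open_side_inj (P : PType) (hx : StrictMono x) (hy : StrictMono y) {n n' : ℕ}
    (hn : n < P.N) (hn' : n' < P.N) {t t' : ℝ} (ht : t ∈ Ioo (0:ℝ) 1) (ht' : t' ∈ Ioo (0:ℝ) 1)
    (h : P.sidePt x y n t = P.sidePt x y n' t') : n = n' ∧ t = t' := by
  rw [sidePt_spt, sidePt_spt] at h
  have h1 := spt_lab hx hy ht ht' h
  have h2 := lab_inj (P.side_isSide n) (P.side_isSide n') h1
  have h3 : n = n' := P.inj n hn n' hn' h2.1 h2.2
  subst h3
  exact ⟨rfl, spt_inj_t hx hy _ h⟩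

/-- periodicity of the sides -/
lemma side_add_N (P : PType) (n : ℕ) : P.side (n + P.N) = ((P.side n).1, (P.side n).2 + 4) := by
  have h0 : P.side P.N = (P.s0.1, P.s0.2 + 4) := P.period
  have h1 : Eqv (P.side P.N) P.s0 := by rw [h0]; exact ⟨rfl, by simp⟩
  have h2 := h1.iter (Q := P.Q) n
  have h3 : (nextSide P.Q)^[n] (P.side P.N) = P.side (n + P.N) := by
    unfold PType.side
    rw [← Function.iterate_add_apply]
  have h4 : (nextSide P.Q)^[n] P.s0 = P.side n := rfl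
  rw [h3, h4, h0] at h2
  apply Prod.ext
  · exact h2.1
  · have := h2.2
    simp only at this ⊢
    omega

lemma sidePt_add_N (P : PType) (n : ℕ) (t : ℝ) : P.sidePt x y (n + P.N) t = P.sidePt x y n t := by
  rw [sidePt_spt, sidePt_spt]
  apply spt_congr
  rw [side_add_N]
  exact ⟨rfl, by simp⟩

/-- The boundary curve. -/
noncomputable def crv (P : PType) (x y : ℤ → ℝ) (u : ℝ) : ℂ := P.sidePt x y ⌊u⌋₊ (u - ⌊u⌋₊)

lemma crv_eq (P : PType) {n : ℕ} {u : ℝ} (h1 : (n : ℝ) ≤ u) (h2 : u ≤ n + 1) :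
    crv P x y u = P.sidePt x y n (u - n) := by
  unfold crv
  rcases eq_or_lt_of_le h2 with h | h
  · have : ⌊u⌋₊ = n + 1 := by
      rw [h]
      have : (n : ℝ) + 1 = ((n + 1 : ℕ) : ℝ) := by push_cast; ring
      rw [this, Nat.floor_natCast]
    rw [this, h]
    push_cast
    rw [sub_self, add_sub_cancel_left, P.sidePt_zero, P.sidePt_one]
  · have : ⌊u⌋₊ = n := by
      rw [Nat.floor_eq_iff (le_trans (Nat.cast_nonneg n) h1)]
      exact ⟨h1, h⟩
    rw [this]

lemma sidePt_continuous (P : PType) (n : ℕ) : Continuous fun t : ℝ => P.sidePt x y n t := by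
  unfold PType.sidePt
  fun_prop

lemma crv_contOn_nat (P : PType) (M : ℕ) : ContinuousOn (crv P x y) (Icc 0 (M : ℝ)) := by
  induction M with
  | zero =>
    have : Icc (0:ℝ) ((0:ℕ) : ℝ) = {0} := by simp
    rw [this]
    exact continuousOn_singleton _ _
  | succ M ih =>
    have h1 : Icc (0:ℝ) ((M + 1 : ℕ) : ℝ) = Icc 0 (M : ℝ) ∪ Icc (M : ℝ) ((M : ℝ) + 1) := by
      rw [Icc_union_Icc_eq_Icc (Nat.cast_nonneg M) (by linarith)]
      push_cast
      rfl
    rw [h1]
    refine ih.union_of_isClosed ?_ isClosed_Icc isClosed_Icc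
    have h2 : ContinuousOn (fun u : ℝ => P.sidePt x y M (u - M)) (Icc (M : ℝ) ((M : ℝ) + 1)) :=
      ((sidePt_continuous P M).comp (continuous_id.sub continuous_const)).continuousOn
    exact h2.congr fun u hu => crv_eq P hu.1 hu.2

lemma crv_contOn (P : PType) : ContinuousOn (crv P x y) (Ici 0) := by
  intro u hu
  obtain ⟨M, hM⟩ := exists_nat_gt u
  have h1 := crv_contOn_nat (x := x) (y := y) P M u ⟨hu, hM.le⟩
  refine h1.mono_of_mem_nhdsWithin ?_
  rw [← Ici_inter_Iic]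
  exact inter_mem self_mem_nhdsWithin (mem_nhdsWithin_of_mem_nhds (Iic_mem_nhds hM))

lemma crv_add_N (P : PType) {u : ℝ} (hu : 0 ≤ u) : crv P x y (u + P.N) = crv P x y u := by
  have h1 : ((⌊u⌋₊ : ℕ) : ℝ) ≤ u := Nat.floor_le hu
  have h2 : u ≤ ⌊u⌋₊ + 1 := (Nat.lt_floor_add_one u).le
  rw [crv_eq P (n := ⌊u⌋₊ + P.N) (by push_cast; linarith) (by push_cast; linarith),
    crv_eq P h1 h2, sidePt_add_N]
  congr 1
  push_cast
  ring

/-- injectivity on one period -/
lemma crv_inj (P : PType) (hx : StrictMono x) (hy : StrictMono y) :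
    InjOn (crv P x y) (Ico 0 (P.N : ℝ)) := by
  have key : ∀ u : ℝ, u ∈ Ico 0 (P.N : ℝ) → ∃ n : ℕ, n < P.N ∧ ∃ t : ℝ, 0 ≤ t ∧ t < 1 ∧
      u = n + t ∧ crv P x y u = P.sidePt x y n t := by
    intro u hu
    refine ⟨⌊u⌋₊, (Nat.floor_lt hu.1).2 hu.2, u - ⌊u⌋₊, ?_, ?_, by ring, rfl⟩
    · linarith [Nat.floor_le hu.1]
    · linarith [Nat.lt_floor_add_one u]
  intro u hu v hv h
  obtain ⟨n, hn, t, h0, h1, rfl, e⟩ := key u hu
  obtain ⟨n', hn', t', h0', h1', rfl, e'⟩ := key v hv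
  rw [e, e'] at h
  rcases eq_or_lt_of_le h0 with h0 | h0 <;> rcases eq_or_lt_of_le h0' with h0' | h0'
  · rw [← h0, ← h0', P.sidePt_zero, P.sidePt_zero] at h
    have := P.vert_inj hn hn' (pt_inj hx hy h)
    rw [this, ← h0, ← h0']
  · rw [← h0, P.sidePt_zero, sidePt_spt] at h
    exact (open_side_ne hx hy _ ⟨h0', h1'⟩ _ h.symm).elim
  · rw [← h0', P.sidePt_zero, sidePt_spt] at h
    exact (open_side_ne hx hy _ ⟨h0, h1⟩ _ h).elim
  · obtain ⟨a, b⟩ := open_side_inj P hx hy hn hn' ⟨h0, h1⟩ ⟨h0', h1'⟩ h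
    rw [a, b]

lemma N_pos (P : PType) : 0 < P.N := P.hm0.trans P.hmN

lemma crv_frontier (P : PType) (hx : StrictMono x) (hy : StrictMono y) {u : ℝ} (hu : 0 ≤ u) :
    crv P x y u ∈ frontier (Om P.Q x y) := by
  refine P.sidePt_mem_frontier hx hy _ ⟨?_, ?_⟩
  · linarith [Nat.floor_le hu]
  · linarith [Nat.lt_floor_add_one u]

lemma crv_surj (P : PType) (hx : StrictMono x) (hy : StrictMono y) {z : ℂ}
    (hz : z ∈ frontier (Om P.Q x y)) : ∃ u ∈ Ico (0:ℝ) P.N, crv P x y u = z := by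
  obtain ⟨n, hn, t, ht, rfl⟩ := P.frontier_cover hx hy hz
  have hn1 : (n : ℝ) + 1 ≤ P.N := by exact_mod_cast hn
  have hu : crv P x y (n + t) = P.sidePt x y n t := by
    rw [crv_eq P (n := n) (by linarith [ht.1]) (by linarith [ht.2]), add_sub_cancel_left]
  rcases lt_or_ge ((n : ℝ) + t) P.N with h | h
  · exact ⟨n + t, ⟨add_nonneg (Nat.cast_nonneg n) ht.1, h⟩, hu⟩
  · have h2 : (n : ℝ) + t = 0 + P.N := by linarith [ht.2]
    refine ⟨0, ⟨le_rfl, by exact_mod_cast N_pos P⟩, ?_⟩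
    rw [← hu, h2, crv_add_N P le_rfl]

/-- The polyomino domain is a Jordan domain. -/
theorem isJordan (P : PType) (hx : StrictMono x) (hy : StrictMono y) :
    IsJordanDomain (Om P.Q x y) := by
  have hN : (0:ℝ) < P.N := by exact_mod_cast N_pos P
  have : Fact ((0:ℝ) < P.N) := ⟨hN⟩
  refine ⟨isOpen_Om _ _ _, ⟨Om_nonempty hx hy P.good.ne, isPreconnected_Om hx hy P.good.conn⟩,
    isBounded_Om _ _ _, ?_⟩
  have hper : crv P x y 0 = crv P x y (0 + P.N) := (crv_add_N P le_rfl).symm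
  set f : AddCircle (P.N : ℝ) → ℂ := AddCircle.liftIco (P.N : ℝ) 0 (crv P x y) with hf
  have hfc : Continuous f := AddCircle.liftIco_continuous hper
    ((crv_contOn P).mono (fun u hu => hu.1))
  have hfv : ∀ u ∈ Ico (0:ℝ) P.N, f (u : AddCircle (P.N : ℝ)) = crv P x y u := fun u hu =>
    AddCircle.liftIco_coe_apply (by rw [zero_add]; exact hu)
  have hrep : ∀ a : AddCircle (P.N : ℝ), ∃ u ∈ Ico (0:ℝ) P.N, (u : AddCircle (P.N : ℝ)) = a := by
    intro a
    obtain ⟨u, hu, hu'⟩ := AddCircle.coe_image_Ico_eq (P.N : ℝ) 0 ▸ mem_univ a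
    exact ⟨u, by rw [zero_add] at hu; exact hu, hu'⟩
  set e := AddCircle.homeomorphCircle hN.ne' with he
  refine ⟨fun c => f (e.symm c), hfc.comp e.symm.continuous, ?_, ?_⟩
  · have hfi : Function.Injective f := by
      intro a b hab
      obtain ⟨u, hu, rfl⟩ := hrep a
      obtain ⟨v, hv, rfl⟩ := hrep b
      rw [hfv u hu, hfv v hv] at hab
      rw [crv_inj P hx hy hu hv hab]
    exact hfi.comp e.symm.injective
  · apply Subset.antisymm
    · intro z hz
      obtain ⟨u, hu, rfl⟩ := crv_surj P hx hy hz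
      refine ⟨e (u : AddCircle (P.N : ℝ)), ?_⟩
      show f (e.symm (e _)) = _
      rw [e.symm_apply_apply, hfv u hu]
    · rintro _ ⟨c, rfl⟩
      obtain ⟨u, hu, hu'⟩ := hrep (e.symm c)
      show f (e.symm c) ∈ _
      rw [← hu', hfv u hu]
      exact crv_frontier P hx hy hu.1

end Pool.Agent.H19.RH
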