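import Pool.Agent.H19.RH.RA

set_option autoImplicit false
open Set Metric Filter Topology Complex
open scoped Real ComplexConjugate

/-! Derivative bounds near the boundary of the half plane. -/

namespace Pool.Agent.H19.RH

/-- interior bound -/
lemma int_deriv {f : ℂ → ℂ} {w b : ℂ} {R M : ℝ} (hR : 0 < R) (hd : DifferentiableOn ℂ f UP)
    (hw : R < w.im) (hM : ∀ z, dist z w ≤ R → 0 < z.im → ‖f z - b‖ ≤ M) :
    ‖deriv f w‖ ≤ M / R := by
  have hsub : closedBall w R ⊆ UP := by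
    intro z hz
    have h1 : |z.im - w.im| ≤ ‖z - w‖ := by
      rw [← sub_im]; exact Complex.abs_im_le_norm _
    rw [mem_closedBall, dist_eq_norm] at hz
    have h2 := (abs_le.1 (h1.trans hz)).1
    show 0 < z.im
    linarith
  have hd2 : DiffContOnCl ℂ (fun z => f z - b) (ball w R) := by
    refine DifferentiableOn.diffContOnCl ?_
    rw [closure_ball w hR.ne']
    exact (hd.mono hsub).sub_const b
  have h := Complex.norm_deriv_le_of_forall_mem_sphere_norm_le hR hd2 (C := M) (fun z hz =>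
    hM z (mem_sphere.1 hz).le (hsub (sphere_subset_closedBall hz)))
  have h2 : deriv (fun z => f z - b) w = deriv f w := by
    rw [deriv_sub_const_fun]
  rwa [h2] at h

/-- bound near a straight boundary piece -/
lemma side_deriv {f : ℂ → ℂ} {x0 R M : ℝ} {b c : ℂ} (hR : 0 < R) (hc : ‖c‖ = 1)
    (hd : DifferentiableOn ℂ f UP)
    (hl : ∀ t : ℝ, (t : ℂ) ∈ ball (x0 : ℂ) R →
      ∃ v : ℝ, Tendsto (fun z => c * (f z - b)) (𝓝[UP] (t : ℂ)) (𝓝 (v : ℂ)))
    (hM : ∀ w ∈ ball (x0 : ℂ) R, 0 < w.im → ‖f w - b‖ ≤ M) :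
    ∀ w : ℂ, 0 < w.im → dist w (x0 : ℂ) < R / 2 → ‖deriv f w‖ ≤ M / (R / 4) := by
  intro w hw hwd
  set g : ℂ → ℂ := fun z => c * (f z - b) with hg
  have hgd : DifferentiableOn ℂ g (ball (x0 : ℂ) R ∩ UP) :=
    ((hd.mono (fun z hz => hz.2)).sub_const b).const_mul c
  obtain ⟨G1, G2, G3, G4, G5⟩ := refl_diff (f := g) (U := ball (x0 : ℂ) R) isOpen_ball
    (fun z hz => conj_ball hz) hgd hl
  set G := refl g with hG
  have hgn : ∀ z ∈ ball (x0 : ℂ) R, 0 < z.im → ‖g z‖ ≤ M := by
    intro z hz hz'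
    simp only [hg]
    rw [norm_mul, hc, one_mul]
    exact hM z hz hz'
  have hGn : ∀ z ∈ ball (x0 : ℂ) R, ‖G z‖ ≤ M := by
    intro z hz
    rcases lt_trichotomy z.im 0 with h | h | h
    · have hcz : 0 < (conj z).im := by rw [conj_im]; linarith
      have h1 : ‖G z‖ = ‖G (conj z)‖ := by rw [G5 z hz, Complex.norm_conj]
      rw [h1, G2 _ (conj_ball hz) hcz]
      exact hgn _ (conj_ball hz) hcz
    · have hz2 : z = ((z.re : ℝ) : ℂ) := Complex.ext (by simp) (by simp [h])
      have hz' := hz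
      rw [hz2] at hz'
      have hlim := (G4 z.re hz').norm
      rw [← hz2] at hlim
      have : (𝓝[UP] z).NeBot := nhdsUP_neBot h.ge
      refine le_of_tendsto hlim ?_
      filter_upwards [self_mem_nhdsWithin, mem_nhdsWithin_of_mem_nhds (isOpen_ball.mem_nhds hz)]
        with u hu1 hu2
      exact hgn u hu2 hu1
    · rw [G2 z hz h]
      exact hgn z hz h
  have hwb : w ∈ ball (x0 : ℂ) R := mem_ball.2 (by linarith)
  have hsub : closedBall w (R / 4) ⊆ ball (x0 : ℂ) R := by
    intro z hz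
    rw [mem_closedBall] at hz
    rw [mem_ball]
    have := dist_triangle z w (x0 : ℂ)
    linarith
  have hR4 : 0 < R / 4 := by linarith
  have hd2 : DiffContOnCl ℂ G (ball w (R / 4)) := by
    refine DifferentiableOn.diffContOnCl ?_
    rw [closure_ball w hR4.ne']
    exact G1.mono hsub
  have h := Complex.norm_deriv_le_of_forall_mem_sphere_norm_le hR4 hd2 (C := M) (fun z hz =>
    hGn z (hsub (sphere_subset_closedBall hz)))
  have hev : G =ᶠ[𝓝 w] g := by
    filter_upwards [isOpen_ball.mem_nhds hwb, isOpen_UP.mem_nhds hw] with z h1 h2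
    exact G2 z h1 h2
  have hfd : DifferentiableAt ℂ f w := hd.differentiableAt (isOpen_UP.mem_nhds hw)
  have h2 : deriv G w = c * deriv f w := by
    rw [hev.deriv_eq]
    exact ((hfd.hasDerivAt.sub_const b).const_mul c).deriv
  rw [h2, norm_mul, hc, one_mul] at h
  exact h

/-- growth of the derivative near a boundary vertex, on the side `s` (`s = 1` right, `s = -1`
left) -/
lemma vertex_deriv {f : ℂ → ℂ} {c0 r K γ s : ℝ} {b c : ℂ} (hs : s = 1 ∨ s = -1) (hc : ‖c‖ = 1)
    (hK : 0 ≤ K) (hγ : 0 ≤ γ)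
    (hd : DifferentiableOn ℂ f UP)
    (hl : ∀ t : ℝ, 0 < s * (t - c0) → |t - c0| < r →
      ∃ v : ℝ, Tendsto (fun z => c * (f z - b)) (𝓝[UP] (t : ℂ)) (𝓝 (v : ℂ)))
    (hM : ∀ w : ℂ, 0 < w.im → dist w (c0 : ℂ) < r → ‖f w - b‖ ≤ K * dist w (c0 : ℂ) ^ γ) :
    ∀ w : ℂ, 0 < w.im → dist w (c0 : ℂ) < r / 4 → 0 ≤ s * (w.re - c0) →
      ‖deriv f w‖ ≤ 16 * 2 ^ γ * K * dist w (c0 : ℂ) ^ (γ - 1) := by
  intro w hw hwr hws
  set ρ := dist w (c0 : ℂ) with hρ
  have hρ0 : 0 < ρ := by
    rw [hρ, dist_pos]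
    rintro rfl
    simp at hw
  have hfin : K * (2 * ρ) ^ γ / (ρ / 16) = 16 * 2 ^ γ * K * ρ ^ (γ - 1) := by
    rw [Real.mul_rpow (by norm_num) hρ0.le, Real.rpow_sub_one hρ0.ne']
    field_simp
  have hball : ∀ z : ℂ, 0 < z.im → dist z (c0 : ℂ) ≤ 2 * ρ → ‖f z - b‖ ≤ K * (2 * ρ) ^ γ := by
    intro z hz hzd
    refine (hM z hz (by linarith)).trans ?_
    exact mul_le_mul_of_nonneg_left (Real.rpow_le_rpow dist_nonneg hzd hγ) hK
  rcases lt_or_ge w.im (ρ / 8) with him | him
  · -- near the real axis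
    have hsq : ρ ^ 2 = (w.re - c0) ^ 2 + w.im ^ 2 := by
      rw [hρ, Complex.dist_eq, ← Complex.normSq_eq_norm_sq, Complex.normSq_apply]
      simp
      ring
    have hre : ρ / 2 ≤ s * (w.re - c0) := by
      have h1 : (s * (w.re - c0)) ^ 2 = (w.re - c0) ^ 2 := by
        rcases hs with h | h <;> rw [h] <;> ring
      by_contra hcon
      push Not at hcon
      have h2 : (s * (w.re - c0)) ^ 2 < (ρ / 2) ^ 2 := by
        apply pow_lt_pow_left₀ hcon hws (by norm_num)
      have h3 : w.im ^ 2 < (ρ / 8) ^ 2 := pow_lt_pow_left₀ him hw.le (by norm_num)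
      nlinarith
    have hR : (0:ℝ) < ρ / 4 := by linarith
    have hdist : dist w ((w.re : ℝ) : ℂ) = w.im := by
      rw [Complex.dist_of_re_eq (by simp)]
      simp only [ofReal_im]
      rw [Real.dist_eq, sub_zero, abs_of_pos hw]
    have habs : |w.re - c0| ≤ ρ := by
      have := Complex.abs_re_le_norm (w - (c0 : ℂ))
      rw [hρ, Complex.dist_eq]
      simpa using this
    have h := side_deriv (f := f) (x0 := w.re) (R := ρ / 4) (M := K * (2 * ρ) ^ γ) (b := b) (c := c)
      hR hc hd ?_ ?_ w hw (by rw [hdist]; linarith)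
    · have e : ρ / 4 / 4 = ρ / 16 := by ring
      rw [e, hfin] at h
      exact h
    · intro t ht
      rw [mem_ball, Complex.dist_eq, ← ofReal_sub, Complex.norm_real, Real.norm_eq_abs,
        abs_lt] at ht
      rw [abs_le] at habs
      apply hl t
      · rcases hs with h | h <;> rw [h] at hre ⊢ <;> linarith [ht.1, ht.2]
      · rw [abs_lt]
        constructor <;> linarith [ht.1, ht.2, habs.1, habs.2]
    · intro z hz hz'
      apply hball z hz'
      rw [mem_ball] at hz
      have h1 := dist_triangle z ((w.re : ℝ) : ℂ) (c0 : ℂ)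
      have h2 : dist ((w.re : ℝ) : ℂ) (c0 : ℂ) ≤ ρ := by
        rw [Complex.dist_eq, ← ofReal_sub, Complex.norm_real, Real.norm_eq_abs]
        exact habs
      linarith
  · have h := int_deriv (f := f) (w := w) (b := b) (R := ρ / 16) (M := K * (2 * ρ) ^ γ)
      (by linarith) hd (by linarith) ?_
    · rw [hfin] at h
      exact h
    · intro z hz hz'
      apply hball z hz'
      have := dist_triangle z w (c0 : ℂ)
      linarith

end Pool.Agent.H19.RH
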