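import Pool.Agent.H19.RH.RA

set_option autoImplicit false
open Set Metric Filter Topology Complex
open scoped Real

/-! Real powers on the closed upper half plane. -/

namespace Pool.Agent.H19.RH

/-- the real power `z ^ e` on the closed upper half plane (without `0`) -/
noncomputable def pw (e : ℝ) (z : ℂ) : ℂ := Complex.exp (e * (Complex.log (-I * z) + π / 2 * I))

lemma pw_slit {z : ℂ} (hz : 0 ≤ z.im) (h0 : z ≠ 0) : -I * z ∈ slitPlane := by
  rw [mem_slitPlane_iff]
  have hre : (-I * z).re = z.im := by simp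
  have him : (-I * z).im = -z.re := by simp
  rw [hre, him]
  rcases eq_or_lt_of_le hz with h | h
  · right
    intro h2
    apply h0
    apply Complex.ext
    · simpa using h2
    · exact h.symm
  · exact Or.inl h

lemma pw_analytic (e : ℝ) {z : ℂ} (hz : 0 ≤ z.im) (h0 : z ≠ 0) : AnalyticAt ℂ (pw e) z := by
  unfold pw
  have h1 : AnalyticAt ℂ (fun z : ℂ => -I * z) z := analyticAt_const.mul analyticAt_id
  exact (analyticAt_const.mul ((h1.clog (pw_slit hz h0)).add analyticAt_const)).cexp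

lemma pw_ne (e : ℝ) (z : ℂ) : pw e z ≠ 0 := Complex.exp_ne_zero _

lemma norm_pw (e : ℝ) {z : ℂ} (h0 : z ≠ 0) : ‖pw e z‖ = ‖z‖ ^ e := by
  unfold pw
  rw [Complex.norm_exp]
  have h1 : ((e : ℂ) * (Complex.log (-I * z) + π / 2 * I)).re = e * Real.log ‖z‖ := by
    rw [Complex.re_ofReal_mul, add_re, Complex.log_re, norm_mul, norm_neg, norm_I, one_mul]
    have : ((π : ℂ) / 2 * I).re = 0 := by simp
    rw [this, add_zero]
  rw [h1, Real.rpow_def_of_pos (norm_pos_iff.2 h0)]
  congr 1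
  ring

lemma pw_pos (e : ℝ) {t : ℝ} (ht : 0 < t) : pw e (t : ℂ) = ((t ^ e : ℝ) : ℂ) := by
  unfold pw
  have h1 : -I * (t : ℂ) = Complex.exp ((Real.log t : ℝ) + (-(π / 2) : ℝ) * I) := by
    rw [Complex.exp_add, ← Complex.ofReal_exp, Real.exp_log ht]
    have : (((-(π / 2) : ℝ) : ℂ) * I) = -((π : ℂ) / 2 * I) := by push_cast; ring
    rw [this, Complex.exp_neg, Complex.exp_pi_div_two_mul_I, Complex.inv_I]
    ring
  have hpi := Real.pi_pos
  rw [h1, Complex.log_exp (by simp; linarith) (by simp; linarith)]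
  rw [Real.rpow_def_of_pos ht, Complex.ofReal_exp]
  congr 1
  push_cast
  ring

lemma pw_neg (e : ℝ) {t : ℝ} (ht : t < 0) :
    pw e (t : ℂ) = (((-t) ^ e : ℝ) : ℂ) * Complex.exp (((π * e : ℝ) : ℂ) * I) := by
  unfold pw
  have ht' : 0 < -t := by linarith
  have h1 : -I * (t : ℂ) = Complex.exp ((Real.log (-t) : ℝ) + ((π / 2 : ℝ) : ℂ) * I) := by
    rw [Complex.exp_add, ← Complex.ofReal_exp, Real.exp_log ht']
    have : (((π / 2 : ℝ) : ℂ) * I) = ((π : ℂ) / 2 * I) := by push_cast; ring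
    rw [this, Complex.exp_pi_div_two_mul_I]
    push_cast
    ring
  have hpi := Real.pi_pos
  rw [h1, Complex.log_exp (by simp; linarith) (by simp; linarith)]
  rw [Real.rpow_def_of_pos ht', Complex.ofReal_exp, ← Complex.exp_add]
  congr 1
  push_cast
  ring

/-- finite products of powers -/
noncomputable def Pi' (S : Finset ℕ) (c : ℕ → ℝ) (e : ℕ → ℝ) (z : ℂ) : ℂ :=
  ∏ n ∈ S, pw (e n) (z - c n)

variable {S : Finset ℕ} {c e : ℕ → ℝ}

lemma Pi'_analytic {z : ℂ} (hz : 0 ≤ z.im) (h0 : ∀ n ∈ S, z ≠ c n) :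
    AnalyticAt ℂ (Pi' S c e) z := by
  unfold Pi'
  apply Finset.analyticAt_fun_prod
  intro n hn
  have h1 : AnalyticAt ℂ (fun z : ℂ => z - (c n : ℂ)) z := analyticAt_id.sub analyticAt_const
  have h2 : AnalyticAt ℂ (pw (e n)) (z - (c n : ℂ)) :=
    pw_analytic _ (by simpa using hz) (sub_ne_zero.2 (h0 n hn))
  exact AnalyticAt.comp' h2 h1

lemma Pi'_ne (z : ℂ) : Pi' S c e z ≠ 0 := Finset.prod_ne_zero_iff.2 fun n _ => pw_ne _ _

lemma norm_Pi' {z : ℂ} (h0 : ∀ n ∈ S, z ≠ c n) : ‖Pi' S c e z‖ = ∏ n ∈ S, ‖z - c n‖ ^ e n := by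
  unfold Pi'
  rw [norm_prod]
  exact Finset.prod_congr rfl fun n hn => norm_pw _ (sub_ne_zero.2 (h0 n hn))

/-- the value at a real point -/
lemma Pi'_real {t : ℝ} (h0 : ∀ n ∈ S, t ≠ c n) : ∃ ρ : ℝ, 0 < ρ ∧
    Pi' S c e t = (ρ : ℂ) * Complex.exp (((π * ∑ n ∈ S with t < c n, e n : ℝ) : ℂ) * I) := by
  induction S using Finset.induction_on with
  | empty => exact ⟨1, one_pos, by simp [Pi']⟩
  | insert a S ha ih =>
    obtain ⟨ρ, hρ, h⟩ := ih fun n hn => h0 n (Finset.mem_insert_of_mem hn)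
    have h1 : Pi' (insert a S) c e t = pw (e a) (t - c a) * Pi' S c e t := by
      unfold Pi'
      rw [Finset.prod_insert ha]
    rw [h1, h, Finset.filter_insert]
    have hne := h0 a (Finset.mem_insert_self a S)
    rcases lt_or_gt_of_ne hne with hlt | hgt
    · rw [if_pos hlt, Finset.sum_insert (by simp [ha])]
      have h2 : ((t : ℂ) - c a) = ((t - c a : ℝ) : ℂ) := by push_cast; ring
      rw [h2, pw_neg (e a) (by linarith)]
      refine ⟨(-(t - c a)) ^ e a * ρ, mul_pos (Real.rpow_pos_of_pos (by linarith) _) hρ, ?_⟩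
      rw [mul_add]
      push_cast
      rw [add_mul, Complex.exp_add]
      ring
    · rw [if_neg (not_lt.2 hgt.le)]
      have h2 : ((t : ℂ) - c a) = ((t - c a : ℝ) : ℂ) := by push_cast; ring
      rw [h2, pw_pos (e a) (by linarith)]
      refine ⟨(t - c a) ^ e a * ρ, mul_pos (Real.rpow_pos_of_pos (by linarith) _) hρ, ?_⟩
      push_cast
      ring

/-- growth at infinity -/
lemma Pi'_infty : ∃ K R : ℝ, 0 < K ∧ 0 < R ∧ ∀ z : ℂ, R < ‖z‖ →
    ‖Pi' S c e z‖ ≤ K * ‖z‖ ^ (∑ n ∈ S, e n) := by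
  induction S using Finset.induction_on with
  | empty => exact ⟨1, 1, one_pos, one_pos, fun z _ => by simp [Pi']⟩
  | insert a S ha ih =>
    obtain ⟨K, R, hK, hR, h⟩ := ih
    refine ⟨2 ^ |e a| * K, max R (2 * |c a| + 1), by positivity, lt_max_of_lt_left hR, ?_⟩
    intro z hz
    have hz1 : R < ‖z‖ := (le_max_left _ _).trans_lt hz
    have hz2 : 2 * |c a| + 1 < ‖z‖ := (le_max_right _ _).trans_lt hz
    have hz0 : 0 < ‖z‖ := hR.trans hz1
    have h1 : Pi' (insert a S) c e z = pw (e a) (z - c a) * Pi' S c e z := by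
      unfold Pi'
      rw [Finset.prod_insert ha]
    have hc : ‖(c a : ℂ)‖ = |c a| := by rw [Complex.norm_real, Real.norm_eq_abs]
    have hlow : ‖z‖ / 2 ≤ ‖z - c a‖ := by
      have := norm_sub_norm_le z (c a : ℂ)
      rw [hc] at this
      linarith [abs_nonneg (c a)]
    have hupp : ‖z - c a‖ ≤ 2 * ‖z‖ := by
      have := norm_sub_le z (c a : ℂ)
      rw [hc] at this
      linarith [abs_nonneg (c a)]
    have hne : z - c a ≠ 0 := by
      rw [← norm_pos_iff]
      linarith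
    rw [h1, norm_mul, norm_pw _ hne, Finset.sum_insert ha, Real.rpow_add hz0]
    have hpow : ‖z - c a‖ ^ e a ≤ 2 ^ |e a| * ‖z‖ ^ e a := by
      rcases le_or_gt 0 (e a) with he | he
      · rw [abs_of_nonneg he, ← Real.mul_rpow (by norm_num) hz0.le]
        exact Real.rpow_le_rpow (norm_nonneg _) hupp he
      · rw [abs_of_neg he]
        have h2 : ‖z - c a‖ ^ e a ≤ (‖z‖ / 2) ^ e a :=
          Real.rpow_le_rpow_of_nonpos (by linarith) hlow he.le
        refine h2.trans (le_of_eq ?_)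
        rw [Real.div_rpow hz0.le (by norm_num), Real.rpow_neg (by norm_num), div_eq_mul_inv]
        ring
    calc ‖z - c a‖ ^ e a * ‖Pi' S c e z‖ ≤ (2 ^ |e a| * ‖z‖ ^ e a) * (K * ‖z‖ ^ (∑ n ∈ S, e n)) :=
          mul_le_mul hpow (h z hz1) (norm_nonneg _) (by positivity)
      _ = _ := by ring

/-- bound near one of the points -/
lemma Pi'_near {a : ℕ} (ha : a ∈ S) (hinj : ∀ n ∈ S, n ≠ a → c n ≠ c a) :
    ∃ K r : ℝ, 0 < K ∧ 0 < r ∧ ∀ z : ℂ, z ≠ c a → ‖z - c a‖ < r →
      ‖Pi' S c e z‖ ≤ K * ‖z - c a‖ ^ e a := by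
  have key : ∀ T : Finset ℕ, (∀ n ∈ T, c n ≠ c a) → ∃ K r : ℝ, 0 < K ∧ 0 < r ∧
      ∀ z : ℂ, ‖z - c a‖ < r → ‖Pi' T c e z‖ ≤ K := by
    intro T
    induction T using Finset.induction_on with
    | empty => intro _; exact ⟨1, 1, one_pos, one_pos, fun z _ => by simp [Pi']⟩
    | insert b T hb ih =>
      intro hT
      obtain ⟨K, r, hK, hr, h⟩ := ih fun n hn => hT n (Finset.mem_insert_of_mem hn)
      have hne := hT b (Finset.mem_insert_self b T)
      set d := |c b - c a| with hd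
      have hd0 : 0 < d := abs_pos.2 (sub_ne_zero.2 hne)
      refine ⟨((2 * d) ^ e b + (d / 2) ^ e b) * K, min r (d / 2),
        mul_pos (by positivity) hK, lt_min hr (by linarith), ?_⟩
      intro z hz
      have hz1 := hz.trans_le (min_le_left _ _)
      have hz2 := hz.trans_le (min_le_right _ _)
      have h1 : Pi' (insert b T) c e z = pw (e b) (z - c b) * Pi' T c e z := by
        unfold Pi'
        rw [Finset.prod_insert hb]
      have hcd : ‖((c b : ℂ) - c a)‖ = d := by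
        rw [← ofReal_sub, Complex.norm_real, Real.norm_eq_abs]
      have hlow : d / 2 ≤ ‖z - c b‖ := by
        have h2 : ((c b : ℂ) - c a) = (z - c a) - (z - c b) := by ring
        have := norm_sub_le (z - c a) (z - (c b : ℂ))
        rw [← h2, hcd] at this
        linarith
      have hupp : ‖z - c b‖ ≤ 2 * d := by
        have h2 : z - (c b : ℂ) = (z - c a) - ((c b : ℂ) - c a) := by ring
        rw [h2]
        have := norm_sub_le (z - (c a : ℂ)) ((c b : ℂ) - c a)
        rw [hcd] at this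
        linarith
      have hne' : z - (c b : ℂ) ≠ 0 := by
        rw [← norm_pos_iff]; linarith
      rw [h1, norm_mul, norm_pw _ hne']
      refine mul_le_mul ?_ (h z hz1) (norm_nonneg _) (by positivity)
      rcases le_or_gt 0 (e b) with he | he
      · have := Real.rpow_le_rpow (norm_nonneg _) hupp he
        have h3 : 0 ≤ (d / 2) ^ e b := by positivity
        linarith
      · have := Real.rpow_le_rpow_of_nonpos (by linarith) hlow he.le
        have h3 : 0 ≤ (2 * d) ^ e b := by positivity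
        linarith
  obtain ⟨K, r, hK, hr, h⟩ := key (S.erase a) fun n hn =>
    hinj n (Finset.mem_of_mem_erase hn) (Finset.ne_of_mem_erase hn)
  refine ⟨K, r, hK, hr, ?_⟩
  intro z hz hzr
  have h1 : Pi' S c e z = pw (e a) (z - c a) * Pi' (S.erase a) c e z := by
    unfold Pi'
    rw [Finset.mul_prod_erase S (fun n => pw (e n) (z - c n)) ha]
  rw [h1, norm_mul, norm_pw _ (sub_ne_zero.2 hz), mul_comm]
  exact mul_le_mul_of_nonneg_right (h z hzr) (by positivity)

end Pool.Agent.H19.RH
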