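import Pool.Agent.H19.RH.Data4
import Pool.Agent.H19.RH.Grow
import Pool.Agent.H19.RH.Pw

set_option autoImplicit false
open Set Metric Filter Topology Complex
open scoped Real ComplexConjugate

/-! Boundary values of the composed functions `H i ∘ φ` in the half plane. -/

namespace Pool.Agent.H19.RH

open Pool.Agent.Q1.M4
open Pool.Agent.H75.Perc (dir dir_cases)
open Pool.Agent.H69.Car (IsHalf HC HO)
open H87.FM (w)

variable {P : PType} {x y : ℤ → ℝ} {φ : ℂ → ℂ} {m2 m3 m4 : ℕ} {H : Fin 4 → ℂ → ℂ}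

lemma mod_cases (P : PType) {n : ℕ} (hn : n < 2 * P.N) :
    (n < P.N ∧ n % P.N = n) ∨ (P.N ≤ n ∧ n % P.N = n - P.N ∧ n = (n % P.N) + P.N) := by
  rcases lt_or_ge n P.N with h | h
  · exact Or.inl ⟨h, Nat.mod_eq_of_lt h⟩
  · right
    have h1 : n % P.N = n - P.N := by
      rw [Nat.mod_eq_sub_mod h, Nat.mod_eq_of_lt (by omega)]
    exact ⟨h, h1, by omega⟩

lemma sidePt_mod (P : PType) {n : ℕ} (hn : n < 2 * P.N) (s : ℝ) :
    P.sidePt x y n s = P.sidePt x y (n % P.N) s := by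
  rcases mod_cases P hn with ⟨-, h⟩ | ⟨-, -, h⟩
  · rw [h]
  · conv_lhs => rw [h]
    exact sidePt_add_N P _ s

/-- the phase of the increments of `H i` along the side `n` -/
noncomputable def lph (P : PType) (m2 m3 m4 n : ℕ) (i : Fin 4) : ℂ :=
  phase (P.side (n % P.N)).2 (pe (arc m2 m3 m4 (n % P.N)) i)

lemma norm_lph (n : ℕ) (i : Fin 4) : ‖lph P m2 m3 m4 n i‖ = 1 := norm_phase _ _

lemma conj_mul_lph (n : ℕ) (i : Fin 4) :
    conj (lph P m2 m3 m4 n i) * lph P m2 m3 m4 n i = 1 := by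
  rw [mul_comm, Complex.mul_conj, Complex.normSq_eq_norm_sq, norm_lph]
  simp

section
variable (F : Fam P x y m2 m3 m4 H)
include F

lemma Fam.line' {n : ℕ} (hn : n < 2 * P.N) {i : Fin 4} (hi : i ≠ arc m2 m3 m4 (n % P.N))
    {t t' : ℝ} (ht : t ∈ Icc (0:ℝ) 1) (ht' : t' ∈ Icc (0:ℝ) 1) : ∃ ρ : ℝ,
    conj (lph P m2 m3 m4 n i) * (H i (P.sidePt x y n t') - H i (P.sidePt x y n t)) = ρ := by
  obtain ⟨ρ, hρ⟩ := F.line (n % P.N) (Nat.mod_lt _ (N_pos P)) i hi t ht t' ht'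
  refine ⟨ρ, ?_⟩
  rw [sidePt_mod P hn, sidePt_mod P hn, hρ]
  have := conj_mul_lph (P := P) (m2 := m2) (m3 := m3) (m4 := m4) n i
  unfold lph at this ⊢
  linear_combination (ρ : ℂ) * this

end

namespace Cht

variable (C : Cht P x y φ) (F : Fam P x y m2 m3 m4 H)
include C F

lemma comp_diff (i : Fin 4) : DifferentiableOn ℂ (fun z => H i (φ z)) UP := by
  have h1 : DifferentiableOn ℂ φ UP := C.half.diff
  exact (F.holo i).comp h1 fun z hz => C.up_mem hz

lemma comp_lim (i : Fin 4) (t : ℝ) :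
    Tendsto (fun z => H i (φ z)) (𝓝[UP] (t : ℂ)) (𝓝 (H i (φ t))) := by
  have h1 : ContinuousWithinAt (H i) (Reg P.Q x y) (φ t) := F.cont i (φ t) (C.real_mem t)
  refine h1.tendsto.comp (tendsto_nhdsWithin_iff.2 ⟨C.chart_limit t, ?_⟩)
  filter_upwards [self_mem_nhdsWithin] with z hz
  rw [← closure_Om C.hx C.hy]
  exact subset_closure (C.up_mem hz)

/-- the limit at a real point of a side is on the line of the side -/
lemma side_limit {n : ℕ} (hn : n < 2 * P.N) {u : ℝ} (hu : u ∈ Ioo (bt P) (bt P + P.N))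
    (h1 : (n : ℝ) ≤ u) (h2 : u ≤ n + 1) {i : Fin 4} (hi : i ≠ arc m2 m3 m4 (n % P.N)) {s0 : ℝ}
    (hs0 : s0 ∈ Icc (0:ℝ) 1) {b : ℂ} (hb : b = H i (P.sidePt x y n s0)) :
    ∃ v : ℝ, Tendsto (fun z => conj (lph P m2 m3 m4 n i) * (H i (φ z) - b))
      (𝓝[UP] ((sg P x y φ u : ℝ) : ℂ)) (𝓝 (v : ℂ)) := by
  obtain ⟨ρ, hρ⟩ := F.line' hn hi hs0 (t' := u - n) ⟨by linarith, by linarith⟩
  refine ⟨ρ, ?_⟩
  rw [← hρ, ← crv_eq P h1 h2, ← C.sg_spec hu, ← hb]
  exact ((C.comp_lim F i _).sub_const b).const_mul _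

/-- analytic continuation of the line functions across the interior points of a side -/
lemma side_ra {n : ℕ} (hn : n < 2 * P.N) {u : ℝ} (hu : u ∈ Ioo (bt P) (bt P + P.N))
    (h1 : (n : ℝ) < u) (h2 : u < n + 1) {i : Fin 4} (hi : i ≠ arc m2 m3 m4 (n % P.N)) {s0 : ℝ}
    (hs0 : s0 ∈ Icc (0:ℝ) 1) {b : ℂ} (hb : b = H i (P.sidePt x y n s0)) :
    RA (fun z => conj (lph P m2 m3 m4 n i) * (H i (φ z) - b)) (sg P x y φ u) := by
  obtain ⟨δ, hδ, hnp⟩ := C.near_param hu (η := min (u - n) (n + 1 - u))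
    (lt_min (by linarith) (by linarith))
  have key : ∀ t : ℝ, |t - sg P x y φ u| < δ → ∃ v : ℝ,
      Tendsto (fun z => conj (lph P m2 m3 m4 n i) * (H i (φ z) - b)) (𝓝[UP] (t : ℂ))
        (𝓝 (v : ℂ)) := by
    intro t ht
    obtain ⟨u', hu', hd, hφ, -, -⟩ := hnp t ht
    rw [lt_min_iff, abs_lt, abs_lt] at hd
    obtain ⟨v, hv⟩ := C.side_limit F hn hu' (by linarith [hd.1.1]) (by linarith [hd.2.2]) hi hs0 hb
    have h3 : sg P x y φ u' = t := by
      have := C.sg_spec hu'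
      rw [← hφ] at this
      exact C.half.inj_real this
    rw [h3] at hv
    exact ⟨v, hv⟩
  refine RX.ra (rx_of_growth hδ ?_ ?_ ?_)
  · exact (((C.comp_diff F i).mono (fun z hz => hz.2)).sub_const b).const_mul _
  · intro t ht _
    rw [mem_ball, Complex.dist_eq, ← ofReal_sub, Complex.norm_real, Real.norm_eq_abs] at ht
    exact key t ht
  · obtain ⟨v, hv⟩ := key (sg P x y φ u) (by rw [sub_self, abs_zero]; exact hδ)
    have h3 : Tendsto (fun z : ℂ => z - (sg P x y φ u : ℝ)) (𝓝[UP] ((sg P x y φ u : ℝ) : ℂ))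
        (𝓝 0) := by
      have : Tendsto (fun z : ℂ => z - (sg P x y φ u : ℝ)) (𝓝 ((sg P x y φ u : ℝ) : ℂ))
          (𝓝 (((sg P x y φ u : ℝ) : ℂ) - (sg P x y φ u : ℝ))) :=
        (continuous_id.sub continuous_const).tendsto _
      rw [sub_self] at this
      exact this.mono_left nhdsWithin_le_nhds
    have := h3.mul hv
    rwa [zero_mul] at this

/-- the derivative has a limit on the line of the side -/
lemma deriv_limit_line {n : ℕ} (hn : n < 2 * P.N) {u : ℝ} (hu : u ∈ Ioo (bt P) (bt P + P.N))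
    (h1 : (n : ℝ) < u) (h2 : u < n + 1) {i : Fin 4} (hi : i ≠ arc m2 m3 m4 (n % P.N)) :
    ∃ v : ℝ, Tendsto (deriv fun z => H i (φ z)) (𝓝[UP] ((sg P x y φ u : ℝ) : ℂ))
      (𝓝 (lph P m2 m3 m4 n i * v)) := by
  have hra := C.side_ra F hn hu h1 h2 hi (s0 := 0) (by simp) rfl
  obtain ⟨v, hv⟩ := hra.deriv.limit
  refine ⟨v, ?_⟩
  have hev : ∀ᶠ z in 𝓝[UP] ((sg P x y φ u : ℝ) : ℂ),
      lph P m2 m3 m4 n i * deriv (fun z => conj (lph P m2 m3 m4 n i) *
        (H i (φ z) - H i (P.sidePt x y n 0))) z = deriv (fun z => H i (φ z)) z := by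
    filter_upwards [self_mem_nhdsWithin] with z hz
    have hd : DifferentiableAt ℂ (fun z => H i (φ z)) z :=
      (C.comp_diff F i).differentiableAt (isOpen_UP.mem_nhds hz)
    rw [((hd.hasDerivAt.sub_const _).const_mul _).deriv]
    have := conj_mul_lph (P := P) (m2 := m2) (m3 := m3) (m4 := m4) n i
    linear_combination deriv (fun z => H i (φ z)) z * this
  exact (hv.const_mul _).congr' hev

/-- the linear relation for the derivatives -/
lemma deriv_rel {z : ℂ} (hz : 0 < z.im) : w * deriv (fun z => H 1 (φ z)) z +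
    deriv (fun z => H 2 (φ z)) z + w ^ 2 * deriv (fun z => H 0 (φ z)) z +
    deriv (fun z => H 3 (φ z)) z = 0 := by
  have hd : ∀ i, HasDerivAt (fun z => H i (φ z)) (deriv (fun z => H i (φ z)) z) z := fun i =>
    ((C.comp_diff F i).differentiableAt (isOpen_UP.mem_nhds hz)).hasDerivAt
  have h1 := ((((hd 1).const_mul w).add (hd 2)).add ((hd 0).const_mul (w ^ 2))).add (hd 3)
  have h2 : HasDerivAt (fun _ : ℂ => (0:ℂ)) 0 z := hasDerivAt_const z 0
  have h3 : ((((fun y : ℂ => w * H 1 (φ y)) + fun z => H 2 (φ z)) +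
      fun y => w ^ 2 * H 0 (φ y)) + fun z => H 3 (φ z)) = fun _ : ℂ => (0:ℂ) := by
    funext z
    exact F.rel (φ z)
  rw [h3] at h1
  exact h1.unique h2

omit C F in
/-- solving the linear relation -/
lemma solve_rel (D : Fin 4 → ℂ → ℂ) (U : Set ℂ)
    (hrel : ∀ z ∈ U, w * D 1 z + D 2 z + w ^ 2 * D 0 z + D 3 z = 0) (i : Fin 4) :
    ∃ c : Fin 4 → ℂ, c i = 0 ∧ (∀ j, ‖c j‖ ≤ 1) ∧ ∀ z ∈ U, D i z = ∑ j, c j * D j z := by
  have hwn : ‖w‖ = 1 := by rw [← phase_two]; exact norm_phase _ _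
  have hw3 := H87.FM.w_cube
  have n2 : ‖w ^ 2‖ = 1 := by rw [norm_pow, hwn, one_pow]
  fin_cases i
  · refine ⟨![0, -w ^ 2, -w, -w], rfl, ?_, ?_⟩
    · intro j; fin_cases j <;> simp [hwn]
    · intro z hz
      have := hrel z hz
      simp only [Fin.sum_univ_four]
      show D 0 z = 0 * D 0 z + (-w ^ 2) * D 1 z + (-w) * D 2 z + (-w) * D 3 z
      linear_combination w * this - D 0 z * hw3
  · refine ⟨![-w, 0, -w ^ 2, -w ^ 2], rfl, ?_, ?_⟩
    · intro j; fin_cases j <;> simp [hwn]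
    · intro z hz
      have := hrel z hz
      simp only [Fin.sum_univ_four]
      show D 1 z = (-w) * D 0 z + 0 * D 1 z + (-w ^ 2) * D 2 z + (-w ^ 2) * D 3 z
      linear_combination w ^ 2 * this - (D 1 z + w * D 0 z) * hw3
  · refine ⟨![-w ^ 2, -w, 0, -1], rfl, ?_, ?_⟩
    · intro j; fin_cases j <;> simp [hwn]
    · intro z hz
      have := hrel z hz
      simp only [Fin.sum_univ_four]
      show D 2 z = (-w ^ 2) * D 0 z + (-w) * D 1 z + 0 * D 2 z + (-1) * D 3 z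
      linear_combination this
  · refine ⟨![-w ^ 2, -w, -1, 0], rfl, ?_, ?_⟩
    · intro j; fin_cases j <;> simp [hwn]
    · intro z hz
      have := hrel z hz
      simp only [Fin.sum_univ_four]
      show D 3 z = (-w ^ 2) * D 0 z + (-w) * D 1 z + (-1) * D 2 z + 0 * D 3 z
      linear_combination this

/-- the derivatives of all four functions have limits at the interior points of the sides -/
lemma deriv_limit {n : ℕ} (hn : n < 2 * P.N) {u : ℝ} (hu : u ∈ Ioo (bt P) (bt P + P.N))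
    (h1 : (n : ℝ) < u) (h2 : u < n + 1) (i : Fin 4) :
    ∃ v : ℂ, Tendsto (deriv fun z => H i (φ z)) (𝓝[UP] ((sg P x y φ u : ℝ) : ℂ)) (𝓝 v) := by
  by_cases hi : i = arc m2 m3 m4 (n % P.N)
  · obtain ⟨c, hc0, -, hc⟩ := solve_rel (fun j z => deriv (fun z => H j (φ z)) z) UP
      (fun z hz => C.deriv_rel F hz) i
    have h3 : ∀ j, ∃ v : ℂ, Tendsto (fun z => c j * deriv (fun z => H j (φ z)) z)
        (𝓝[UP] ((sg P x y φ u : ℝ) : ℂ)) (𝓝 v) := by
      intro j
      by_cases hj : j = i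
      · rw [hj, hc0]
        exact ⟨0, by simp only [zero_mul]; exact tendsto_const_nhds⟩
      · obtain ⟨v, hv⟩ := C.deriv_limit_line F hn hu h1 h2 (i := j) (by rw [← hi]; exact hj)
        exact ⟨_, hv.const_mul (c j)⟩
    choose v hv using h3
    refine ⟨∑ j, v j, ?_⟩
    have h4 := tendsto_finsetSum Finset.univ fun j _ => hv j
    refine h4.congr' ?_
    filter_upwards [self_mem_nhdsWithin] with z hz
    exact (hc z hz).symm
  · obtain ⟨v, hv⟩ := C.deriv_limit_line F hn hu h1 h2 hi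
    exact ⟨_, hv⟩

end Cht

end Pool.Agent.H19.RH
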