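import Pool.Agent.H19.RH.Bdry

set_option autoImplicit false
open Set Metric Filter Topology Complex
open scoped Real ComplexConjugate

/-! Growth of the derivatives of `H i ∘ φ` at the vertices and at infinity. -/

namespace Pool.Agent.H19.RH

open Pool.Agent.Q1.M4
open Pool.Agent.H75.Perc (dir dir_cases)
open Pool.Agent.H69.Car (IsHalf HC HO)
open H87.FM (w)

variable {P : PType} {x y : ℤ → ℝ} {φ : ℂ → ℂ} {m2 m3 m4 : ℕ} {H : Fin 4 → ℂ → ℂ}

lemma rel_bound {D : Fin 4 → ℂ} (hrel : w * D 1 + D 2 + w ^ 2 * D 0 + D 3 = 0) {a : Fin 4} {B : ℝ}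
    (hB : ∀ j, j ≠ a → ‖D j‖ ≤ B) (i : Fin 4) : ‖D i‖ ≤ 4 * B := by
  have hB0 : 0 ≤ B := by
    have : ∃ j : Fin 4, j ≠ a := ⟨a + 1, by fin_cases a <;> decide⟩
    obtain ⟨j, hj⟩ := this
    exact (norm_nonneg _).trans (hB j hj)
  by_cases hi : i = a
  · obtain ⟨c, hc0, hc1, hc⟩ := Cht.solve_rel (fun j _ => D j) (univ : Set ℂ)
      (fun z _ => hrel) i
    have h1 : D i = ∑ j, c j * D j := hc 0 (mem_univ _)
    rw [h1]
    refine (norm_sum_le _ _).trans ?_
    have h2 : ∀ j ∈ (Finset.univ : Finset (Fin 4)), ‖c j * D j‖ ≤ B := by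
      intro j _
      by_cases hj : j = i
      · rw [hj, hc0, zero_mul, norm_zero]; exact hB0
      · rw [norm_mul]
        have := hB j (by rw [← hi]; exact hj)
        calc ‖c j‖ * ‖D j‖ ≤ 1 * B := mul_le_mul (hc1 j) this (norm_nonneg _) zero_le_one
          _ = B := one_mul B
    refine (Finset.sum_le_sum h2).trans ?_
    simp
  · have := hB i hi
    linarith

namespace Cht

variable (C : Cht P x y φ) (F : Fam P x y m2 m3 m4 H)
include C F

/-- one side of a vertex -/
lemma vertex_side {m : ℕ} (h1 : P.N ≤ m + 1) (h2 : m + 1 < 2 * P.N) (i : Fin 4) :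
    ∃ K > 0, ∃ r > 0, ∀ z : ℂ, 0 < z.im → dist z ((sg P x y φ ((m : ℝ) + 1) : ℝ) : ℂ) < r →
      ‖H i (φ z) - H i (pt x y (P.vert (m + 1)))‖ ≤
        K * dist z ((sg P x y φ ((m : ℝ) + 1) : ℝ) : ℂ) ^ (2 / 3 * vex P m) := by
  obtain ⟨K, hK, r, hr, hb⟩ := C.vert_bound h1 h2
  obtain ⟨C', hC', r', hr', hh⟩ := F.hold i
  have hN : (2:ℝ) ≤ P.N := by exact_mod_cast two_le_N P
  have h1' : (P.N : ℝ) ≤ m + 1 := by exact_mod_cast h1
  have h2' : (m : ℝ) + 1 + 1 ≤ 2 * P.N := by exact_mod_cast h2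
  have hbt : bt P = P.N - 1 / 2 := rfl
  have hu0 : (m : ℝ) + 1 ∈ Ioo (bt P) (bt P + P.N) := ⟨by rw [hbt]; linarith, by rw [hbt]; linarith⟩
  set c := sg P x y φ ((m : ℝ) + 1) with hc
  set v := pt x y (P.vert (m + 1)) with hv
  have hcv : φ c = v := by
    rw [C.sg_spec hu0, crv_eq P (n := m) (by linarith) le_rfl, add_sub_cancel_left, P.sidePt_one]
  obtain ⟨δ, hδ, hcb⟩ := C.cont_ball (real_HC c) hr'
  rw [hcv] at hcb
  refine ⟨C' * K ^ (2 / 3 : ℝ), by positivity, min r δ, lt_min hr hδ, ?_⟩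
  intro z hz hd
  have hzR : φ z ∈ Reg P.Q x y := by
    rw [← closure_Om C.hx C.hy]
    exact subset_closure (C.up_mem hz)
  have hvR : v ∈ Reg P.Q x y := by rw [← hcv]; exact C.real_mem c
  have e1 := hb z hz (hd.trans_le (min_le_left _ _))
  have e2 := hcb z (show (0:ℝ) ≤ z.im from hz.le) (hd.trans_le (min_le_right _ _))
  have e3 := hh (φ z) hzR v hvR (by rw [← dist_eq_norm]; exact e2.le)
  refine e3.trans ?_
  rw [mul_assoc]
  apply mul_le_mul_of_nonneg_left _ hC'.le
  rw [← dist_eq_norm]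
  refine (Real.rpow_le_rpow dist_nonneg e1 (by norm_num)).trans (le_of_eq ?_)
  rw [Real.mul_rpow hK.le (Real.rpow_nonneg dist_nonneg _), ← Real.rpow_mul dist_nonneg]
  congr 2
  ring

/-- growth of the derivatives at a vertex -/
theorem vertex_growth {m : ℕ} (h1 : P.N ≤ m + 1) (h2 : m + 1 < 2 * P.N) :
    ∃ K > 0, ∃ r > 0, ∀ i : Fin 4, ∀ z : ℂ, 0 < z.im →
      dist z ((sg P x y φ ((m : ℝ) + 1) : ℝ) : ℂ) < r →
      ‖deriv (fun z => H i (φ z)) z‖ ≤
        K * dist z ((sg P x y φ ((m : ℝ) + 1) : ℝ) : ℂ) ^ (2 / 3 * vex P m - 1) := by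
  choose K hK r hr hb using fun i => C.vertex_side F h1 h2 i
  have hN : (2:ℝ) ≤ P.N := by exact_mod_cast two_le_N P
  have h1' : (P.N : ℝ) ≤ m + 1 := by exact_mod_cast h1
  have h2' : (m : ℝ) + 1 + 1 ≤ 2 * P.N := by exact_mod_cast h2
  have hbt : bt P = P.N - 1 / 2 := rfl
  have hu0 : (m : ℝ) + 1 ∈ Ioo (bt P) (bt P + P.N) := ⟨by rw [hbt]; linarith, by rw [hbt]; linarith⟩
  set c := sg P x y φ ((m : ℝ) + 1) with hc
  obtain ⟨δ, hδ, hnp⟩ := C.near_param hu0 (η := 1 / 4) (by norm_num)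
  set ρ := min δ (min (min (r 0) (r 1)) (min (r 2) (r 3))) with hρ
  have hρ0 : 0 < ρ := lt_min hδ (lt_min (lt_min (hr 0) (hr 1)) (lt_min (hr 2) (hr 3)))
  have hρr : ∀ i, ρ ≤ r i := by
    intro i
    refine (min_le_right _ _).trans ?_
    fin_cases i
    · exact (min_le_left _ _).trans (min_le_left _ _)
    · exact (min_le_left _ _).trans (min_le_right _ _)
    · exact (min_le_right _ _).trans (min_le_left _ _)
    · exact (min_le_right _ _).trans (min_le_right _ _)
  set γ := 2 / 3 * vex P m with hγ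
  have hγ0 : 0 ≤ γ := by
    have := (vex_pos P m).1
    rw [hγ]; linarith
  set KK := ∑ i, K i with hKK
  have hKle : ∀ i, K i ≤ KK := fun i =>
    Finset.single_le_sum (fun j _ => (hK j).le) (Finset.mem_univ i)
  have hKK0 : 0 < KK := (hK 0).trans_le (hKle 0)
  refine ⟨4 * (16 * 2 ^ γ * KK), by positivity, ρ / 4, by linarith, ?_⟩
  intro i z hz hd
  have hd0 : 0 ≤ dist z (c : ℂ) ^ (γ - 1) := Real.rpow_nonneg dist_nonneg _
  have hconj : ∀ n j, ‖conj (lph P m2 m3 m4 n j)‖ = 1 := fun n j => by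
    rw [RCLike.norm_conj, norm_lph]
  have hrel : w * deriv (fun z => H 1 (φ z)) z + deriv (fun z => H 2 (φ z)) z +
      w ^ 2 * deriv (fun z => H 0 (φ z)) z + deriv (fun z => H 3 (φ z)) z = 0 := C.deriv_rel F hz
  have hfin : ∀ a : Fin 4, (∀ j, j ≠ a → ‖deriv (fun z => H j (φ z)) z‖ ≤
      16 * 2 ^ γ * KK * dist z (c : ℂ) ^ (γ - 1)) →
      ‖deriv (fun z => H i (φ z)) z‖ ≤ 4 * (16 * 2 ^ γ * KK) * dist z (c : ℂ) ^ (γ - 1) := by
    intro a ha
    have := rel_bound (D := fun j => deriv (fun z => H j (φ z)) z) hrel ha i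
    refine this.trans (le_of_eq ?_)
    ring
  have hup : ∀ j, 16 * 2 ^ γ * K j * dist z (c : ℂ) ^ (γ - 1) ≤
      16 * 2 ^ γ * KK * dist z (c : ℂ) ^ (γ - 1) := by
    intro j
    apply mul_le_mul_of_nonneg_right _ hd0
    exact mul_le_mul_of_nonneg_left (hKle j) (by positivity)
  have hM : ∀ j, ∀ z : ℂ, 0 < z.im → dist z (c : ℂ) < ρ →
      ‖H j (φ z) - H j (pt x y (P.vert (m + 1)))‖ ≤ K j * dist z (c : ℂ) ^ γ :=
    fun j z hz hd => hb j z hz (hd.trans_le (hρr j))
  have hm1 : m < 2 * P.N := by omega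
  have hinj : ∀ u ∈ Ioo (bt P) (bt P + P.N), ∀ t : ℝ, φ t = crv P x y u → sg P x y φ u = t := by
    intro u hu t ht
    have := C.sg_spec hu
    rw [← ht] at this
    exact C.half.inj_real this
  rcases le_total 0 (z.re - c) with hre | hre
  · -- right side
    apply hfin (arc m2 m3 m4 ((m + 1) % P.N))
    intro j hj
    refine (vertex_deriv (f := fun z => H j (φ z)) (c0 := c) (r := ρ) (K := K j) (γ := γ) (s := 1)
      (b := H j (pt x y (P.vert (m + 1)))) (c := conj (lph P m2 m3 m4 (m + 1) j)) (Or.inl rfl)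
      (hconj _ _) (hK j).le hγ0 (C.comp_diff F j) ?_ (hM j) z hz hd (by linarith)).trans (hup j)
    intro t ht htr
    rw [one_mul] at ht
    obtain ⟨u, hu, hun, hφu, hgt, -⟩ := hnp t (htr.trans_le (min_le_left _ _))
    have h3 := hgt.1 (by linarith)
    rw [abs_lt] at hun
    obtain ⟨v, hv⟩ := C.side_limit F (n := m + 1) h2 hu (by push_cast; linarith)
      (by push_cast; linarith) hj (s0 := 0) (by simp) (b := H j (pt x y (P.vert (m + 1))))
      (by rw [P.sidePt_zero])
    rw [hinj u hu t hφu] at hv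
    exact ⟨v, hv⟩
  · apply hfin (arc m2 m3 m4 (m % P.N))
    intro j hj
    refine (vertex_deriv (f := fun z => H j (φ z)) (c0 := c) (r := ρ) (K := K j) (γ := γ)
      (s := -1) (b := H j (pt x y (P.vert (m + 1)))) (c := conj (lph P m2 m3 m4 m j)) (Or.inr rfl)
      (hconj _ _) (hK j).le hγ0 (C.comp_diff F j) ?_ (hM j) z hz hd (by linarith)).trans (hup j)
    intro t ht htr
    obtain ⟨u, hu, hun, hφu, -, hlt⟩ := hnp t (htr.trans_le (min_le_left _ _))
    have h3 := hlt.1 (by linarith)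
    rw [abs_lt] at hun
    obtain ⟨v, hv⟩ := C.side_limit F (n := m) hm1 hu (by linarith)
      (by linarith) hj (s0 := 1) (by simp) (b := H j (pt x y (P.vert (m + 1))))
      (by rw [P.sidePt_one])
    rw [hinj u hu t hφu] at hv
    exact ⟨v, hv⟩

omit C F in
lemma inv_up {z : ℂ} (hz : 0 < z.im) : 0 < (-1 / z).im := by
  have h0 : z ≠ 0 := by rintro rfl; simp at hz
  rw [neg_div, neg_im, one_div, Complex.inv_im]
  have : 0 < Complex.normSq z := Complex.normSq_pos.2 h0
  rw [neg_div, neg_neg]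
  exact div_pos hz this

/-- growth of the derivatives at infinity -/
theorem infty_growth : ∃ K > 0, ∃ R > 0, ∀ i : Fin 4, ∀ z : ℂ, 0 < z.im → R < ‖z‖ →
      ‖deriv (fun z => H i (φ z)) z‖ ≤ K * ‖z‖ ^ (-2 : ℝ) := by
  have hN2 := two_le_N P
  set n := P.N - 1 with hn
  have hnN : n < 2 * P.N := by omega
  have hmod : n % P.N = n := Nat.mod_eq_of_lt (by omega)
  have harc : arc m2 m3 m4 (n % P.N) = 3 := by
    rw [hmod]
    have := F.p0
    have := F.p1
    have := F.p2
    have := F.p3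
    unfold arc
    rw [if_neg (by omega), if_neg (by omega), if_neg (by omega)]
  set b := P.sidePt x y n (1 / 2) with hb
  have hhalf : (1 / 2 : ℝ) ∈ Icc (0:ℝ) 1 := by constructor <;> norm_num
  have hbR : b ∈ Reg P.Q x y := by
    rw [← closure_Om C.hx C.hy]
    exact frontier_subset_closure (P.sidePt_mem_frontier C.hx C.hy n hhalf)
  obtain ⟨r, hr, hdisc⟩ := P.half_disc C.hx C.hy n (t := 1 / 2) (by norm_num) (by norm_num)
  -- far real points are on the side n
  have hfar : ∃ R > 0, ∀ z ∈ HC, R < ‖z‖ → dist (φ z) b < r := by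
    have hev : ∀ᶠ z in Bornology.cobounded ℂ ⊓ 𝓟 HC, dist (φ z) b < r :=
      (tendsto_iff_dist_tendsto_zero.1 C.half.lim).eventually (gt_mem_nhds hr)
    rw [eventually_inf_principal, ← comap_norm_atTop, eventually_comap] at hev
    obtain ⟨R, hR⟩ := (eventually_gt_atTop (0:ℝ)).and hev |>.exists_forall_of_atTop
    exact ⟨R, (hR R le_rfl).1, fun w hw hw' => (hR ‖w‖ hw'.le).2 w rfl hw⟩
  obtain ⟨R, hR0, hR⟩ := hfar
  have hside : ∀ t : ℝ, R < |t| → ∃ t' ∈ Icc (0:ℝ) 1, φ t = P.sidePt x y n t' := by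
    intro t ht
    have h1 := hR t (real_HC t) (by rw [Complex.norm_real]; exact ht)
    obtain ⟨d1, d2, d3⟩ := hdisc (φ t) h1
    have h3 : ((φ t - P.sidePt x y n (1 / 2)) / udir (P.side n).2).im = 0 :=
      le_antisymm (not_lt.1 fun h => C.real_notMem t (d1.2 h)) (d2.1 (C.real_mem t))
    obtain ⟨t', a1, a2, a3⟩ := d3 h3
    exact ⟨t', ⟨a1.le, a2.le⟩, a3⟩
  have key : ∀ j : Fin 4, j ≠ 3 → ∃ K > 0, ∃ R > 0, ∀ z : ℂ, 0 < z.im → R < ‖z‖ →
      ‖deriv (fun z => H j (φ z)) z‖ ≤ K * ‖z‖ ^ (-2 : ℝ) := by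
    intro j hj
    have hj' : j ≠ arc m2 m3 m4 (n % P.N) := by rw [harc]; exact hj
    set c := conj (lph P m2 m3 m4 n j) with hc
    set G : ℂ → ℂ := fun u => c * (H j (φ (-1 / u)) - H j b) with hG
    have hreal : ∀ t : ℝ, R < |t| → ∃ v : ℝ,
        Tendsto (fun z => c * (H j (φ z) - H j b)) (𝓝[UP] (t : ℂ)) (𝓝 (v : ℂ)) := by
      intro t ht
      obtain ⟨t', ht', he⟩ := hside t ht
      obtain ⟨ρ, hρ⟩ := F.line' hnN hj' hhalf ht'
      refine ⟨ρ, ?_⟩
      rw [← hρ, ← he]
      exact ((C.comp_lim F j t).sub_const _).const_mul _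
    have hdG : ∀ u : ℂ, 0 < u.im → DifferentiableAt ℂ (fun u => H j (φ (-1 / u))) u := by
      intro u hu
      have hu0 : u ≠ 0 := by rintro rfl; simp at hu
      have h1 : DifferentiableAt ℂ (fun u : ℂ => -1 / u) u :=
        (differentiableAt_const _).div differentiableAt_id hu0
      have h2 : DifferentiableAt ℂ (fun z => H j (φ z)) (-1 / u) :=
        (C.comp_diff F j).differentiableAt (isOpen_UP.mem_nhds (inv_up hu))
      exact DifferentiableAt.comp (g := fun z => H j (φ z)) u h2 h1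
    have hGd : DifferentiableOn ℂ G (ball ((0:ℝ) : ℂ) (1 / R) ∩ UP) := by
      intro u hu
      exact (((hdG u hu.2).sub_const _).const_mul _).differentiableWithinAt
    have htend : ∀ t : ℝ, t ≠ 0 → Tendsto (fun u : ℂ => -1 / u) (𝓝[UP] (t : ℂ))
        (𝓝[UP] (((-1 / t : ℝ)) : ℂ)) := by
      intro t ht
      rw [tendsto_nhdsWithin_iff]
      constructor
      · have h1 : ContinuousAt (fun u : ℂ => -1 / u) (t : ℂ) :=
          continuousAt_const.div continuousAt_id (by exact_mod_cast ht)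
        have h2 : ((-1 / t : ℝ) : ℂ) = -1 / (t : ℂ) := by push_cast; ring
        rw [h2]
        exact h1.tendsto.mono_left nhdsWithin_le_nhds
      · filter_upwards [self_mem_nhdsWithin] with u hu
        exact inv_up hu
    have hG0 : Tendsto G (𝓝[UP] ((0:ℝ) : ℂ)) (𝓝 0) := by
      have h1 : Tendsto (fun u : ℂ => -1 / u) (𝓝[UP] ((0:ℝ) : ℂ))
          (Bornology.cobounded ℂ ⊓ 𝓟 HC) := by
        rw [tendsto_inf, tendsto_principal]
        constructor
        · have h2 : Tendsto (fun u : ℂ => u⁻¹) (𝓝[≠] (0:ℂ)) (Bornology.cobounded ℂ) :=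
            tendsto_inv₀_nhdsNE_zero
          have h3 : (𝓝[UP] ((0:ℝ) : ℂ)) ≤ 𝓝[≠] (0:ℂ) := by
            rw [ofReal_zero]
            apply nhdsWithin_mono
            intro u hu h0
            rw [mem_singleton_iff.1 h0] at hu
            exact lt_irrefl _ (show (0:ℝ) < (0:ℂ).im from hu)
          have h4 := (Filter.tendsto_neg_cobounded (E := ℂ)).comp (h2.mono_left h3)
          refine h4.congr fun u => ?_
          simp [neg_div]
        · filter_upwards [self_mem_nhdsWithin] with u hu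
          exact le_of_lt (inv_up hu)
      have h2 : Tendsto (fun u : ℂ => φ (-1 / u)) (𝓝[UP] ((0:ℝ) : ℂ)) (𝓝[Reg P.Q x y] b) := by
        rw [tendsto_nhdsWithin_iff]
        refine ⟨C.half.lim.comp h1, ?_⟩
        filter_upwards [self_mem_nhdsWithin] with u hu
        rw [← closure_Om C.hx C.hy]
        exact subset_closure (C.up_mem (inv_up hu))
      have h3 : Tendsto (fun u : ℂ => H j (φ (-1 / u))) (𝓝[UP] ((0:ℝ) : ℂ)) (𝓝 (H j b)) :=
        (F.cont j b hbR).tendsto.comp h2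
      have h4 := (h3.sub_const (H j b)).const_mul c
      rw [sub_self, mul_zero] at h4
      exact h4
    have hRA : RA G 0 := by
      refine RX.ra (rx_of_growth (r := 1 / R) (by positivity) hGd ?_ ?_)
      · intro t ht ht0
        rw [mem_ball, Complex.dist_eq, ← ofReal_sub, Complex.norm_real, Real.norm_eq_abs,
          sub_zero] at ht
        have h1 : R < |-1 / t| := by
          rw [neg_div, abs_neg, abs_div, abs_one, lt_div_iff₀ (abs_pos.2 ht0)]
          rwa [lt_div_iff₀ hR0, mul_comm] at ht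
        obtain ⟨v, hv⟩ := hreal (-1 / t) h1
        exact ⟨v, hv.comp (htend t ht0)⟩
      · have h3 : Tendsto (fun z : ℂ => z - (0:ℝ)) (𝓝[UP] ((0:ℝ) : ℂ)) (𝓝 0) := by
          have : Tendsto (fun z : ℂ => z - (0:ℝ)) (𝓝 ((0:ℝ) : ℂ)) (𝓝 (((0:ℝ) : ℂ) - (0:ℝ))) :=
            (continuous_id.sub continuous_const).tendsto _
          rw [sub_self] at this
          exact this.mono_left nhdsWithin_le_nhds
        have := h3.mul hG0
        rwa [zero_mul] at this
    obtain ⟨v, hv⟩ := hRA.deriv.limit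
    have hbdd : ∀ᶠ u in 𝓝[UP] ((0:ℝ) : ℂ), ‖deriv G u‖ < |v| + 1 := by
      have h1 := hv.norm
      rw [Complex.norm_real, Real.norm_eq_abs] at h1
      exact h1.eventually (gt_mem_nhds (by linarith))
    rw [eventually_nhdsWithin_iff, Metric.eventually_nhds_iff] at hbdd
    obtain ⟨ε, hε, hbdd⟩ := hbdd
    refine ⟨|v| + 1, by positivity, 1 / ε, by positivity, ?_⟩
    intro z hz hzR
    have hz0 : z ≠ 0 := by rintro rfl; simp at hz
    have hzn : 0 < ‖z‖ := norm_pos_iff.2 hz0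
    have hu := inv_up hz
    have hud : dist (-1 / z) ((0:ℝ) : ℂ) < ε := by
      rw [ofReal_zero, dist_zero_right, norm_div, norm_neg, norm_one, div_lt_iff₀ hzn]
      rwa [div_lt_iff₀ hε, mul_comm] at hzR
    have h1 := hbdd hud hu
    -- chain rule
    have hGG : HasDerivAt (fun u => H j (φ (-1 / u))) (deriv (fun u => H j (φ (-1 / u))) (-1 / z))
        (-1 / z) := (hdG _ hu).hasDerivAt
    have hder : HasDerivAt (fun z : ℂ => -1 / z) (1 / z ^ 2) z := by
      have := (hasDerivAt_inv hz0).neg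
      refine (this.congr_of_eventuallyEq ?_).congr_deriv ?_
      · exact Eventually.of_forall fun u => by simp [neg_div]
      · rw [neg_neg, one_div]
    have hcomp := HasDerivAt.comp z hGG hder
    have hfe : ((fun u => H j (φ (-1 / u))) ∘ fun z : ℂ => -1 / z) = fun z => H j (φ z) := by
      funext u
      simp only [Function.comp]
      congr 2
      simp only [neg_div, one_div, inv_neg, neg_neg, inv_inv]
    rw [hfe] at hcomp
    have h2 : deriv G (-1 / z) = c * deriv (fun u => H j (φ (-1 / u))) (-1 / z) := by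
      exact ((hGG.sub_const _).const_mul _).deriv
    rw [h2, norm_mul] at h1
    have hcn : ‖c‖ = 1 := by rw [hc, RCLike.norm_conj, norm_lph]
    rw [hcn, one_mul] at h1
    rw [hcomp.deriv, norm_mul, norm_div, norm_one, norm_pow, Real.rpow_neg hzn.le]
    have h3 : ‖z‖ ^ (2:ℝ) = ‖z‖ ^ 2 := by exact_mod_cast Real.rpow_natCast ‖z‖ 2
    rw [h3, one_div]
    exact mul_le_mul_of_nonneg_right h1.le (by positivity)
  choose! K hK R' hR' hb' using key
  refine ⟨4 * (K 0 + K 1 + K 2), ?_, max (R' 0) (max (R' 1) (R' 2)), ?_, ?_⟩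
  · have := hK 0 (by decide)
    have := hK 1 (by decide)
    have := hK 2 (by decide)
    positivity
  · exact lt_max_of_lt_left (hR' 0 (by decide))
  · intro i z hz hzR
    have hrel := C.deriv_rel F hz
    have hz0 : 0 ≤ ‖z‖ ^ (-2:ℝ) := by positivity
    have k0 := hK 0 (by decide)
    have k1 := hK 1 (by decide)
    have k2 := hK 2 (by decide)
    have := rel_bound (D := fun j => deriv (fun z => H j (φ z)) z) hrel (a := 3)
      (B := (K 0 + K 1 + K 2) * ‖z‖ ^ (-2:ℝ)) ?_ i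
    · refine this.trans (le_of_eq ?_)
      ring
    · intro j hj
      have h1 : K j ≤ K 0 + K 1 + K 2 := by
        fin_cases j
        · show K 0 ≤ _; linarith
        · show K 1 ≤ _; linarith
        · show K 2 ≤ _; linarith
        · exact absurd rfl hj
      have h2 : R' j ≤ max (R' 0) (max (R' 1) (R' 2)) := by
        fin_cases j
        · exact le_max_left _ _
        · exact (le_max_left _ _).trans (le_max_right _ _)
        · exact (le_max_right _ _).trans (le_max_right _ _)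
        · exact absurd rfl hj
      refine (hb' j hj z hz (h2.trans_lt hzR)).trans ?_
      exact mul_le_mul_of_nonneg_right h1 hz0

end Cht

end Pool.Agent.H19.RH
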