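import Pool.Agent.H19.RH.Refl

set_option autoImplicit false
open Set Metric Filter Topology MeasureTheory Complex
open scoped Real ComplexConjugate Interval

/-! Germs of functions on the upper half plane at a real point which extend real-analytically. -/

namespace Pool.Agent.H19.RH

/-- `f` extends analytically across the real point `x`, with real values on the real line. -/
def RA (f : ℂ → ℂ) (x : ℝ) : Prop :=
  ∃ g : ℂ → ℂ, AnalyticAt ℂ g (x : ℂ) ∧ (∀ᶠ z in 𝓝[UP] (x : ℂ), f z = g z) ∧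
    ∀ᶠ y : ℝ in 𝓝 x, (g y).im = 0

lemma RX.ra {f : ℂ → ℂ} {x : ℝ} (h : RX f x) : RA f x := by
  obtain ⟨r, hr, g, h1, h2, h3⟩ := h
  have hb : ball (x : ℂ) r ∈ 𝓝 (x : ℂ) := ball_mem_nhds _ hr
  refine ⟨g, h1.analyticAt hb, ?_, ?_⟩
  · filter_upwards [self_mem_nhdsWithin, mem_nhdsWithin_of_mem_nhds hb] with z hz hz'
    exact (h2 z hz' hz).symm
  · have : ∀ᶠ y : ℝ in 𝓝 x, (y : ℂ) ∈ ball (x : ℂ) r :=
      (Complex.continuous_ofReal.tendsto x) hb
    filter_upwards [this] with y hy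
    exact h3 y hy

lemma RA.congr {f f' : ℂ → ℂ} {x : ℝ} (h : RA f x) (he : ∀ᶠ z in 𝓝[UP] (x : ℂ), f' z = f z) :
    RA f' x := by
  obtain ⟨g, h1, h2, h3⟩ := h
  refine ⟨g, h1, ?_, h3⟩
  filter_upwards [he, h2] with z a b
  rw [a, b]

lemma RA.add {f f' : ℂ → ℂ} {x : ℝ} (h : RA f x) (h' : RA f' x) : RA (fun z => f z + f' z) x := by
  obtain ⟨g, h1, h2, h3⟩ := h
  obtain ⟨g', h1', h2', h3'⟩ := h'
  refine ⟨fun z => g z + g' z, h1.add h1', ?_, ?_⟩
  · filter_upwards [h2, h2'] with z a b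
    rw [a, b]
  · filter_upwards [h3, h3'] with z a b
    rw [add_im, a, b, add_zero]

lemma RA.sub {f f' : ℂ → ℂ} {x : ℝ} (h : RA f x) (h' : RA f' x) : RA (fun z => f z - f' z) x := by
  obtain ⟨g, h1, h2, h3⟩ := h
  obtain ⟨g', h1', h2', h3'⟩ := h'
  refine ⟨fun z => g z - g' z, h1.sub h1', ?_, ?_⟩
  · filter_upwards [h2, h2'] with z a b
    rw [a, b]
  · filter_upwards [h3, h3'] with z a b
    rw [sub_im, a, b, sub_zero]

lemma RA.mul {f f' : ℂ → ℂ} {x : ℝ} (h : RA f x) (h' : RA f' x) : RA (fun z => f z * f' z) x := by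
  obtain ⟨g, h1, h2, h3⟩ := h
  obtain ⟨g', h1', h2', h3'⟩ := h'
  refine ⟨fun z => g z * g' z, h1.mul h1', ?_, ?_⟩
  · filter_upwards [h2, h2'] with z a b
    rw [a, b]
  · filter_upwards [h3, h3'] with z a b
    rw [mul_im, a, b]
    ring

lemma RA.const (c x : ℝ) : RA (fun _ => (c : ℂ)) x :=
  ⟨fun _ => (c : ℂ), analyticAt_const, Eventually.of_forall fun _ => rfl,
    Eventually.of_forall fun _ => ofReal_im c⟩

lemma RA.id (x : ℝ) : RA (fun z => z) x :=
  ⟨fun z => z, analyticAt_id, Eventually.of_forall fun _ => rfl,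
    Eventually.of_forall fun y => ofReal_im y⟩

lemma RA.neg {f : ℂ → ℂ} {x : ℝ} (h : RA f x) : RA (fun z => -f z) x := by
  have := (RA.const 0 x).sub h
  refine this.congr (Eventually.of_forall fun z => ?_)
  simp

lemma RA.smul {f : ℂ → ℂ} {x : ℝ} (c : ℝ) (h : RA f x) : RA (fun z => (c : ℂ) * f z) x :=
  (RA.const c x).mul h

lemma RA.limit {f : ℂ → ℂ} {x : ℝ} (h : RA f x) :
    ∃ v : ℝ, Tendsto f (𝓝[UP] (x : ℂ)) (𝓝 (v : ℂ)) := by
  obtain ⟨g, h1, h2, h3⟩ := h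
  refine ⟨(g x).re, ?_⟩
  have h4 : g x = ((g x).re : ℂ) := by
    apply Complex.ext
    · simp
    · simpa using h3.self_of_nhds
  rw [← h4]
  exact (h1.continuousAt.tendsto.mono_left nhdsWithin_le_nhds).congr' (h2.mono fun z hz => hz.symm)

/-- in the upper half plane, an eventual equality near a real point may be differentiated -/
lemma eventually_deriv {f g : ℂ → ℂ} {x : ℝ} (h : ∀ᶠ z in 𝓝[UP] (x : ℂ), f z = g z) :
    ∀ᶠ z in 𝓝[UP] (x : ℂ), deriv f z = deriv g z := by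
  rw [← eventually_eventually_nhdsWithin] at h
  filter_upwards [h, self_mem_nhdsWithin] with z hz hz'
  rw [isOpen_UP.nhdsWithin_eq hz'] at hz
  exact Filter.EventuallyEq.deriv_eq hz

/-- realness passes to the derivative -/
lemma eventually_real_deriv {g : ℂ → ℂ} {x : ℝ} (h1 : AnalyticAt ℂ g (x : ℂ))
    (h3 : ∀ᶠ y : ℝ in 𝓝 x, (g y).im = 0) : ∀ᶠ y : ℝ in 𝓝 x, (deriv g y).im = 0 := by
  have h4 : ∀ᶠ y : ℝ in 𝓝 x, AnalyticAt ℂ g (y : ℂ) :=
    (Complex.continuous_ofReal.tendsto x).eventually h1.eventually_analyticAt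
  rw [← eventually_eventually_nhds] at h3
  filter_upwards [h3, h4] with y hy hy'
  have hd : HasDerivAt (fun t : ℝ => g t) (deriv g y) y :=
    hy'.differentiableAt.hasDerivAt.comp_ofReal
  have hd2 : HasDerivAt (fun t : ℝ => (g t).im) (deriv g y).im y := by
    have := Complex.imCLM.hasFDerivAt.comp_hasDerivAt y hd
    exact this
  have hd3 : HasDerivAt (fun t : ℝ => (g t).im) 0 y :=
    (hasDerivAt_const y (0:ℝ)).congr_of_eventuallyEq hy
  exact hd2.unique hd3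

lemma RA.deriv {f : ℂ → ℂ} {x : ℝ} (h : RA f x) : RA (deriv f) x := by
  obtain ⟨g, h1, h2, h3⟩ := h
  exact ⟨_, h1.deriv, eventually_deriv h2, eventually_real_deriv h1 h3⟩

/-- dividing out a zero -/
lemma RA.div_of_cluster {f : ℂ → ℂ} {x : ℝ} (h : RA f x)
    (h0 : MapClusterPt (0:ℂ) (𝓝[UP] (x : ℂ)) f) :
    ∃ d, RA d x ∧ AnalyticAt ℂ d x ∧ (∀ᶠ y : ℝ in 𝓝 x, (d y).im = 0) ∧
      (∀ᶠ z in 𝓝[UP] (x : ℂ), f z = (z - x) * d z) := by
  obtain ⟨g, h1, h2, h3⟩ := h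
  have hlim : Tendsto f (𝓝[UP] (x : ℂ)) (𝓝 (g x)) :=
    (h1.continuousAt.tendsto.mono_left nhdsWithin_le_nhds).congr' (h2.mono fun z hz => hz.symm)
  have hg0 : g x = 0 := by
    by_contra hne
    have hd : Disjoint (𝓝 (0:ℂ)) (𝓝 (g x)) := disjoint_nhds_nhds.2 (Ne.symm hne)
    rw [mapClusterPt_def] at h0
    have h5 : ClusterPt (0:ℂ) (𝓝 (g x)) := h0.mono hlim
    rw [ClusterPt, disjoint_iff.1 hd] at h5
    exact h5.ne rfl
  have hds : AnalyticAt ℂ (dslope g x) (x : ℂ) := by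
    have h6 : ∀ᶠ z in 𝓝 (x : ℂ), DifferentiableAt ℂ g z :=
      h1.eventually_analyticAt.mono fun z hz => hz.differentiableAt
    obtain ⟨r, hr, hr'⟩ := Metric.eventually_nhds_iff_ball.1 h6
    have h7 : DifferentiableOn ℂ g (ball (x : ℂ) r) := fun z hz =>
      (hr' z hz).differentiableWithinAt
    exact ((differentiableOn_dslope (ball_mem_nhds _ hr)).2 h7).analyticAt (ball_mem_nhds _ hr)
  have hfac : ∀ z, g z = (z - x) * dslope g x z := by
    intro z
    have := sub_smul_dslope g (x : ℂ) z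
    rw [smul_eq_mul, hg0, sub_zero] at this
    exact this.symm
  have hre : ∀ᶠ y : ℝ in 𝓝 x, (dslope g x (y : ℂ)).im = 0 := by
    filter_upwards [h3, eventually_real_deriv h1 h3] with y hy hy'
    by_cases hyx : y = x
    · rw [hyx, dslope_same]
      rw [hyx] at hy'
      exact hy'
    · have hne : (y : ℂ) ≠ (x : ℂ) := fun h => hyx (Complex.ofReal_injective h)
      rw [dslope_of_ne _ hne, slope_def_field, hg0, sub_zero]
      have : (y : ℂ) - x = ((y - x : ℝ) : ℂ) := by push_cast; ring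
      rw [this, Complex.div_ofReal_im, hy, zero_div]
  refine ⟨dslope g x, ⟨_, hds, Eventually.of_forall fun _ => rfl, hre⟩, hds, hre, ?_⟩
  filter_upwards [h2] with z hz
  rw [hz]
  exact hfac z

end Pool.Agent.H19.RH
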