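import Pool.Agent.H19.RH.Curve
import Pool.Agent.H19.RH.RA

set_option autoImplicit false
open Set Metric Filter Topology Complex
open scoped Real

/-! The boundary parametrisation of the polyomino domain and the boundary values of the
Riemann map. -/

namespace Pool.Agent.H19.RH

open Pool.Agent.Q1.M4
open Pool.Agent.H75.Perc (dir dir_cases)
open Pool.Agent.H81.Q1 (IsJordanDomain)
open Pool.Agent.H69.Car (IsHalf HC HO)

variable {x y : ℤ → ℝ}

lemma real_HC (t : ℝ) : (t : ℂ) ∈ HC := by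
  change 0 ≤ (t : ℂ).im
  rw [ofReal_im]

/-- The inverse of the boundary homeomorphism is continuous. -/
lemma inv_cont {D : Set ℂ} {a b : ℂ} {φ : ℂ → ℂ} (h : IsHalf D a b φ) {w0 : ℂ} (hw0 : w0 ∈ HC)
    {ε : ℝ} (hε : 0 < ε) : ∃ δ > 0, ∀ w ∈ HC, dist (φ w) (φ w0) < δ → dist w w0 < ε := by
  have hne : φ w0 ≠ b := by
    intro hb
    exact h.notMem ⟨w0, hw0, hb⟩
  set δ1 := dist (φ w0) b / 2 with hδ1
  have hδ1' : 0 < δ1 := half_pos (dist_pos.2 hne)
  have hev : ∀ᶠ w in Bornology.cobounded ℂ ⊓ 𝓟 HC, dist (φ w) b < δ1 :=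
    (tendsto_iff_dist_tendsto_zero.1 h.lim).eventually (gt_mem_nhds hδ1')
  rw [eventually_inf_principal] at hev
  obtain ⟨R, hR⟩ : ∃ R : ℝ, ∀ w : ℂ, R < ‖w‖ → w ∈ HC → dist (φ w) b < δ1 := by
    rw [← comap_norm_atTop, eventually_comap] at hev
    obtain ⟨R, hR⟩ := (eventually_gt_atTop (0:ℝ)).and hev |>.exists_forall_of_atTop
    exact ⟨R, fun w hw hw' => (hR ‖w‖ hw.le).2 w rfl hw'⟩
  set K : Set ℂ := {w | w ∈ HC ∧ ‖w‖ ≤ R ∧ ε ≤ dist w w0} with hK
  have hKc : IsCompact K := by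
    refine (isCompact_closedBall (0:ℂ) R).of_isClosed_subset ?_ ?_
    · have h1 : IsClosed (HC : Set ℂ) := isClosed_le continuous_const Complex.continuous_im
      have h2 : IsClosed {w : ℂ | ‖w‖ ≤ R} := isClosed_le continuous_norm continuous_const
      have h3 : IsClosed {w : ℂ | ε ≤ dist w w0} :=
        isClosed_le continuous_const (continuous_id.dist continuous_const)
      exact h1.inter (h2.inter h3)
    · intro w hw
      rw [mem_closedBall_zero_iff]
      exact hw.2.1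
  obtain ⟨δ2, hδ2, hδ2'⟩ : ∃ δ2 > 0, ∀ w ∈ K, δ2 ≤ dist (φ w) (φ w0) := by
    rcases K.eq_empty_or_nonempty with hemp | hne
    · exact ⟨1, one_pos, by rw [hemp]; intro w hw; exact hw.elim⟩
    · have hc : ContinuousOn (fun w => dist (φ w) (φ w0)) K :=
        (continuous_id.dist continuous_const).comp_continuousOn (h.cont.mono (fun w (hw : w ∈ K) => hw.1))
      obtain ⟨w1, hw1, hmin⟩ := hKc.exists_isMinOn hne hc
      refine ⟨dist (φ w1) (φ w0), ?_, fun w hw => hmin hw⟩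
      rw [gt_iff_lt, dist_pos]
      intro he
      have := h.inj hw1.1 hw0 he
      have h2 := hw1.2.2
      rw [this, dist_self] at h2
      linarith
  refine ⟨min δ1 δ2, lt_min hδ1' hδ2, ?_⟩
  intro w hw hd
  by_contra hcon
  push Not at hcon
  rcases le_or_gt ‖w‖ R with hR' | hR'
  · have := hδ2' w ⟨hw, hR', hcon⟩
    linarith [lt_of_lt_of_le hd (min_le_right δ1 δ2)]
  · have h1 := hR w hR' hw
    have h2 := lt_of_lt_of_le hd (min_le_left δ1 δ2)
    have h3 : dist (φ w0) b ≤ dist (φ w) (φ w0) + dist (φ w) b := dist_triangle_left _ _ _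
    linarith

/-- The set up: a polyomino domain, its Riemann map from the half plane with the middle of the
last side at infinity. -/
structure Cht (P : PType) (x y : ℤ → ℝ) (φ : ℂ → ℂ) : Prop where
  hx : StrictMono x
  hy : StrictMono y
  half : IsHalf (Om P.Q x y) (pt x y (P.vert 0)) (P.sidePt x y (P.N - 1) (1 / 2)) φ

lemma two_le_N (P : PType) : 2 ≤ P.N := by
  have := P.hm0
  have := P.hmN
  omega

/-- existence of the chart -/
theorem exists_cht (P : PType) (hx : StrictMono x) (hy : StrictMono y) : ∃ φ, Cht P x y φ := by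
  have h1 : pt x y (P.vert 0) ∈ frontier (Om P.Q x y) := by
    have := P.sidePt_mem_frontier hx hy 0 (t := 0) (by simp)
    rwa [P.sidePt_zero] at this
  have h2 : P.sidePt x y (P.N - 1) (1 / 2) ∈ frontier (Om P.Q x y) :=
    P.sidePt_mem_frontier hx hy _ (by constructor <;> norm_num)
  have h3 : pt x y (P.vert 0) ≠ P.sidePt x y (P.N - 1) (1 / 2) := by
    rw [sidePt_spt]
    exact (open_side_ne hx hy _ (by constructor <;> norm_num) _).symm
  obtain ⟨φ, hφ⟩ := Pool.Agent.H69.Car.exists_half (isJordan P hx hy) h1 h2 h3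
  exact ⟨φ, hx, hy, hφ⟩

namespace Cht

variable {P : PType} {φ : ℂ → ℂ}

/-- the parameter of the point at infinity -/
noncomputable def bt (P : PType) : ℝ := P.N - 1 / 2

lemma bt_pos (P : PType) : 0 < bt P := by
  have : (2:ℝ) ≤ P.N := by exact_mod_cast two_le_N P
  unfold bt
  linarith

lemma crv_bt (P : PType) : crv P x y (bt P) = P.sidePt x y (P.N - 1) (1 / 2) := by
  have h2 := two_le_N P
  have h3 : ((P.N - 1 : ℕ) : ℝ) = (P.N : ℝ) - 1 := by
    rw [Nat.cast_sub (by omega)]; simp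
  rw [crv_eq P (n := P.N - 1) (by rw [h3]; unfold bt; linarith) (by rw [h3]; unfold bt; linarith)]
  congr 1
  rw [h3]
  unfold bt
  ring

/-- injectivity on a shifted period -/
lemma crv_inj' (hx : StrictMono x) (hy : StrictMono y) {a : ℝ} (ha : 0 ≤ a) (ha' : a ≤ P.N) :
    InjOn (crv P x y) (Ico a (a + P.N)) := by
  have key : ∀ u ∈ Ico a (a + P.N), ∃ v ∈ Ico (0:ℝ) P.N, crv P x y u = crv P x y v ∧
      ((v = u ∧ a ≤ v) ∨ (v = u - P.N ∧ v < a)) := by
    intro u hu
    rcases lt_or_ge u P.N with h | h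
    · exact ⟨u, ⟨ha.trans hu.1, h⟩, rfl, Or.inl ⟨rfl, hu.1⟩⟩
    · refine ⟨u - P.N, ⟨by linarith, by linarith [hu.2]⟩, ?_, Or.inr ⟨rfl, by linarith [hu.2]⟩⟩
      rw [← crv_add_N P (by linarith : 0 ≤ u - P.N), sub_add_cancel]
  intro u hu v hv h
  obtain ⟨u', hu', e1, e2⟩ := key u hu
  obtain ⟨v', hv', f1, f2⟩ := key v hv
  rw [e1, f1] at h
  have h2 := crv_inj P hx hy hu' hv' h
  rcases e2 with ⟨a1, a2⟩ | ⟨a1, a2⟩ <;> rcases f2 with ⟨b1, b2⟩ | ⟨b1, b2⟩ <;> linarith

variable (C : Cht P x y φ)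
include C

lemma crv_ne_b {u : ℝ} (hu : u ∈ Ioo (bt P) (bt P + P.N)) :
    crv P x y u ≠ P.sidePt x y (P.N - 1) (1 / 2) := by
  have hN : (0:ℝ) < P.N := by exact_mod_cast N_pos P
  have hb := bt_pos P
  rw [← crv_bt P]
  intro h
  have := crv_inj' C.hx C.hy hb.le (by unfold bt; linarith) ⟨hu.1.le, hu.2⟩
    ⟨le_rfl, by linarith⟩ h
  linarith [hu.1]

/-- every boundary curve point has a real preimage -/
lemma exists_real {u : ℝ} (hu : u ∈ Ioo (bt P) (bt P + P.N)) : ∃ t : ℝ, φ t = crv P x y u := by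
  have h1 : crv P x y u ∈ frontier (Om P.Q x y) \ {P.sidePt x y (P.N - 1) (1 / 2)} :=
    ⟨crv_frontier P C.hx C.hy ((bt_pos P).le.trans hu.1.le), C.crv_ne_b hu⟩
  rw [← C.half.image_real (isOpen_Om _ _ _)] at h1
  obtain ⟨z, hz, hz'⟩ := h1
  refine ⟨z.re, ?_⟩
  have : ((z.re : ℝ) : ℂ) = z := Complex.ext (by simp) (by simpa using (show z.im = 0 from hz).symm)
  rw [this]
  exact hz'

omit C in
/-- The real preimage of the boundary point with parameter `u`. -/
noncomputable def sg (P : PType) (x y : ℤ → ℝ) (φ : ℂ → ℂ) (u : ℝ) : ℝ := by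
  classical
  exact if h : ∃ t : ℝ, φ t = crv P x y u then h.choose else 0

lemma sg_spec {u : ℝ} (hu : u ∈ Ioo (bt P) (bt P + P.N)) : φ (sg P x y φ u) = crv P x y u := by
  have h := C.exists_real hu
  unfold sg
  rw [dif_pos h]
  exact h.choose_spec

lemma sg_inj : InjOn (sg P x y φ) (Ioo (bt P) (bt P + P.N)) := by
  intro u hu v hv h
  have h1 := C.sg_spec hu
  rw [h, C.sg_spec hv] at h1
  have hb := bt_pos P
  exact crv_inj' C.hx C.hy hb.le (by unfold bt; linarith) ⟨hu.1.le, hu.2⟩ ⟨hv.1.le, hv.2⟩ h1.symm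

lemma sg_surj (t : ℝ) : ∃ u ∈ Ioo (bt P) (bt P + P.N), sg P x y φ u = t := by
  obtain ⟨h1, h2⟩ := C.half.mapsTo_real (isOpen_Om _ _ _) (x := t)
  obtain ⟨v, hv, hv'⟩ := crv_surj P C.hx C.hy h1
  have hne : v ≠ bt P := by
    rintro rfl
    exact h2 (by rw [← hv', crv_bt])
  obtain ⟨u, hu, hu'⟩ : ∃ u ∈ Ioo (bt P) (bt P + P.N), crv P x y u = φ t := by
    rcases lt_or_gt_of_ne hne with h | h
    · refine ⟨v + P.N, ⟨?_, by linarith⟩, by rw [crv_add_N P hv.1, hv']⟩
      have := hv.1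
      unfold bt
      linarith
    · have hN : (2:ℝ) ≤ P.N := by exact_mod_cast two_le_N P
      exact ⟨v, ⟨h, by linarith [hv.2, bt_pos P]⟩, hv'⟩
  refine ⟨u, hu, ?_⟩
  have h3 := C.sg_spec hu
  rw [hu'] at h3
  exact C.half.inj_real h3

lemma sg_cont : ContinuousOn (sg P x y φ) (Ioo (bt P) (bt P + P.N)) := by
  intro u hu
  rw [Metric.continuousWithinAt_iff]
  intro ε hε
  obtain ⟨δ, hδ, h⟩ := inv_cont C.half (real_HC (sg P x y φ u)) hε
  have hc : ContinuousWithinAt (crv P x y) (Ioo (bt P) (bt P + P.N)) u :=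
    (crv_contOn P).mono (fun v hv => (bt_pos P).le.trans hv.1.le) u hu
  rw [Metric.continuousWithinAt_iff] at hc
  obtain ⟨η, hη, h'⟩ := hc δ hδ
  refine ⟨η, hη, fun v hv hd => ?_⟩
  have h1 := h (sg P x y φ v) (real_HC _) (by rw [C.sg_spec hu, C.sg_spec hv]; exact h' hv hd)
  rw [Complex.dist_eq, ← ofReal_sub, Complex.norm_real] at h1
  exact h1

/-- Local behaviour at an interior point of a side. -/
lemma local_side {n : ℕ} {u : ℝ} (h1 : (n : ℝ) < u)
    (h2 : u < n + 1) : ∃ r > 0, ball (crv P x y u) r ⊆ {z | (z ∈ Om P.Q x y ↔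
      0 < ((z - crv P x y u) / udir (P.side n).2).im) ∧
      (z ∈ Reg P.Q x y ↔ 0 ≤ ((z - crv P x y u) / udir (P.side n).2).im)} := by
  obtain ⟨r, hr, h⟩ := P.half_disc C.hx C.hy n (t := u - n) (by linarith) (by linarith)
  refine ⟨r, hr, ?_⟩
  intro z hz
  rw [crv_eq P h1.le h2.le] at hz ⊢
  exact ⟨(h z hz).1, (h z hz).2.1⟩

lemma real_notMem (t : ℝ) : φ t ∉ Om P.Q x y := by
  have := (C.half.mapsTo_real (isOpen_Om _ _ _) (x := t)).1
  rw [(isOpen_Om _ _ _).frontier_eq] at this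
  exact this.2

lemma real_mem (t : ℝ) : φ t ∈ Reg P.Q x y := by
  rw [← closure_Om C.hx C.hy]
  exact frontier_subset_closure (C.half.mapsTo_real (isOpen_Om _ _ _) (x := t)).1

lemma up_mem {w : ℂ} (hw : 0 < w.im) : φ w ∈ Om P.Q x y := by
  rw [← C.half.image]
  exact ⟨w, hw, rfl⟩

/-- continuity of the chart at a point of the closed half plane, in the ball form -/
lemma cont_ball {w0 : ℂ} (hw0 : w0 ∈ HC) {r : ℝ} (hr : 0 < r) :
    ∃ δ > 0, ∀ w ∈ HC, dist w w0 < δ → dist (φ w) (φ w0) < r := by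
  have := C.half.cont w0 hw0
  rw [Metric.continuousWithinAt_iff] at this
  obtain ⟨δ, hδ, h⟩ := this r hr
  exact ⟨δ, hδ, fun w hw hd => h hw hd⟩

lemma chart_limit (t : ℝ) : Tendsto φ (𝓝[UP] (t : ℂ)) (𝓝 (φ t)) :=
  (C.half.cont t (real_HC t)).mono_left (nhdsWithin_mono _ (fun w hw => le_of_lt (show 0 < w.im from hw)))

/-- **orientation**: the boundary is traversed counterclockwise -/
theorem sg_mono : StrictMonoOn (sg P x y φ) (Ioo (bt P) (bt P + P.N)) := by
  have hN : (2:ℝ) ≤ P.N := by exact_mod_cast two_le_N P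
  have hab : bt P < bt P + P.N := by linarith
  rcases ContinuousOn.strictMonoOn_of_injOn_Ioo hab C.sg_cont C.sg_inj with h | hanti
  · exact h
  exfalso
  set u0 : ℝ := P.N + 1 / 2 with hu0
  have hbt : bt P = P.N - 1 / 2 := rfl
  have hu : u0 ∈ Ioo (bt P) (bt P + P.N) := ⟨by rw [hbt, hu0]; linarith, by rw [hbt, hu0]; linarith⟩
  obtain ⟨r, hr, hball⟩ := C.local_side (n := P.N) (u := u0) (by rw [hu0]; linarith)
    (by rw [hu0]; linarith)
  set p := crv P x y u0 with hp
  set k := (P.side P.N).2 with hk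
  set t0 := sg P x y φ u0 with ht0
  have hφ0 : φ t0 = p := C.sg_spec hu
  obtain ⟨δ, hδ, hcb⟩ := C.cont_ball (real_HC t0) hr
  set g : ℂ → ℂ := fun w => (φ w - p) / udir k with hg
  have hgim : ∀ w ∈ HC, dist w (t0 : ℂ) < δ → (0 < w.im → 0 < (g w).im) ∧
      (w.im = 0 → (g w).im = 0) := by
    intro w hw hd
    have h1 := hcb w hw hd
    rw [hφ0] at h1
    have h2 := hball h1
    refine ⟨fun h => h2.1.1 (C.up_mem h), fun h => ?_⟩
    have hwr : w = ((w.re : ℝ) : ℂ) := Complex.ext (by simp) (by simp [h])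
    have h3 : φ w ∉ Om P.Q x y := by rw [hwr]; exact C.real_notMem _
    have h4 : φ w ∈ Reg P.Q x y := by rw [hwr]; exact C.real_mem _
    exact le_antisymm (not_lt.1 fun h5 => h3 (h2.1.2 h5)) (h2.2.1 h4)
  -- reflection
  have hgd : DifferentiableOn ℂ g (ball (t0 : ℂ) δ ∩ UP) :=
    ((C.half.diff.mono (fun w hw => hw.2)).sub_const p).div_const _
  have hglim : ∀ t : ℝ, Tendsto g (𝓝[UP] (t : ℂ)) (𝓝 (g t)) := fun t =>
    ((C.chart_limit t).sub_const p).div_const _
  obtain ⟨G1, G2, G3, G4, -⟩ := refl_diff (f := g) (U := ball (t0 : ℂ) δ) isOpen_ball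
    (fun z hz => conj_ball hz) hgd (fun t ht => by
      refine ⟨(g t).re, ?_⟩
      have h1 := (hgim t (real_HC t) ht).2 (ofReal_im t)
      have h2 : g t = ((g t).re : ℂ) := Complex.ext (by simp) (by simp [h1])
      rw [← h2]
      exact hglim t)
  set G := refl g with hG
  have hGreal : ∀ t : ℝ, (t : ℂ) ∈ ball (t0 : ℂ) δ → G t = g t := by
    intro t ht
    have : (𝓝[UP] (t : ℂ)).NeBot := nhdsUP_neBot (by simp)
    exact tendsto_nhds_unique (G4 t ht) (hglim t)
  -- derivative on the real line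
  have hder : ∀ t ∈ Ioo (t0 - δ) (t0 + δ), HasDerivAt (fun s : ℝ => (G s).re) (deriv G t).re t ∧
      0 ≤ (deriv G t).re := by
    intro t ht
    have htb : (t : ℂ) ∈ ball (t0 : ℂ) δ := by
      rw [mem_ball, Complex.dist_eq, ← ofReal_sub, Complex.norm_real, Real.norm_eq_abs, abs_lt]
      constructor <;> linarith [ht.1, ht.2]
    have hd : HasDerivAt G (deriv G t) t :=
      (G1.differentiableAt (isOpen_ball.mem_nhds htb)).hasDerivAt
    constructor
    · exact Complex.reCLM.hasFDerivAt.comp_hasDerivAt t hd.comp_ofReal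
    · -- vertical derivative
      have hv : HasDerivAt (fun s : ℝ => G ((t : ℂ) + s * I)) (deriv G t * I) 0 := by
        have h1 : HasDerivAt (fun s : ℝ => (t : ℂ) + s * I) I 0 := by
          have h2 : HasDerivAt (fun s : ℝ => (s : ℂ)) 1 0 := Complex.ofRealCLM.hasDerivAt
          have := (h2.mul_const I).const_add (t : ℂ)
          simpa using this
        have h3 : HasDerivAt G (deriv G t) ((t : ℂ) + (0:ℝ) * I) := by simpa using hd
        exact HasDerivAt.comp (0:ℝ) h3 h1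
      have hv2 : HasDerivAt (fun s : ℝ => (G ((t : ℂ) + s * I)).im) (deriv G t * I).im 0 :=
        Complex.imCLM.hasFDerivAt.comp_hasDerivAt 0 hv
      have e1 : (deriv G t * I).im = (deriv G t).re := by simp
      rw [e1] at hv2
      by_contra hneg
      push Not at hneg
      have h5 := hv2.tendsto_slope.mono_left
        (nhdsWithin_mono (0:ℝ) (show Ioi (0:ℝ) ⊆ {0}ᶜ from fun s hs => (ne_of_gt hs)))
      have h6 : ∀ᶠ s in 𝓝[>] (0:ℝ), 0 ≤ slope (fun s : ℝ => (G ((t : ℂ) + s * I)).im) 0 s := by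
        have hb : ∀ᶠ s : ℝ in 𝓝 0, (t : ℂ) + s * I ∈ ball (t0 : ℂ) δ := by
          have hc : Continuous fun s : ℝ => (t : ℂ) + s * I := by fun_prop
          apply hc.tendsto 0
          simp only [ofReal_zero, zero_mul, add_zero]
          exact isOpen_ball.mem_nhds htb
        filter_upwards [mem_nhdsWithin_of_mem_nhds hb, self_mem_nhdsWithin] with s hs hs'
        have hs0 : (0:ℝ) < s := hs'
        rw [slope_def_field]
        have e2 : (G ((t : ℂ) + (0:ℝ) * I)).im = 0 := by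
          rw [ofReal_zero, zero_mul, add_zero, G3 t htb]
        rw [e2, sub_zero, sub_zero]
        have him : 0 < ((t : ℂ) + s * I).im := by simpa using hs0
        rw [G2 _ hs him]
        exact div_nonneg ((hgim _ (show (0:ℝ) ≤ ((t : ℂ) + s * I).im from him.le) hs).1 him).le hs0.le
      have := ge_of_tendsto h5 h6
      linarith
  have hmono : MonotoneOn (fun s : ℝ => (G s).re) (Ioo (t0 - δ) (t0 + δ)) := by
    apply monotoneOn_of_deriv_nonneg (convex_Ioo _ _)
    · intro t ht; exact (hder t ht).1.continuousAt.continuousWithinAt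
    · intro t ht
      rw [interior_Ioo] at ht
      exact (hder t ht).1.differentiableAt.differentiableWithinAt
    · intro t ht
      rw [interior_Ioo] at ht
      rw [(hder t ht).1.deriv]
      exact (hder t ht).2
  -- the curve near u0
  have hsc := C.sg_cont.continuousAt (Ioo_mem_nhds hu.1 hu.2)
  have hev : ∀ᶠ v in 𝓝 u0, sg P x y φ v ∈ Ioo (t0 - δ) (t0 + δ) :=
    hsc (Ioo_mem_nhds (by linarith) (by linarith))
  have hev2 : ∀ᶠ v in 𝓝 u0, v ∈ Ioo (bt P) (bt P + P.N) := Ioo_mem_nhds hu.1 hu.2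
  have hev3 : ∀ᶠ v in 𝓝 u0, v ∈ Ioo (P.N : ℝ) (P.N + 1) :=
    Ioo_mem_nhds (by rw [hu0]; linarith) (by rw [hu0]; linarith)
  obtain ⟨η, hη, hη'⟩ := Metric.eventually_nhds_iff_ball.1 (hev.and (hev2.and hev3))
  set v := u0 + η / 2 with hv
  have hvb : v ∈ ball u0 η := by
    rw [mem_ball, Real.dist_eq, hv, add_sub_cancel_left, abs_of_pos (by linarith)]
    linarith
  obtain ⟨b1, b2, b3⟩ := hη' v hvb
  obtain ⟨a1, a2, a3⟩ := hη' u0 (mem_ball_self hη)
  have hlt : sg P x y φ v < sg P x y φ u0 := hanti a2 b2 (by rw [hv]; linarith)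
  have hle := hmono b1 a1 hlt.le
  have hb' : ∀ s : ℝ, s ∈ Ioo (t0 - δ) (t0 + δ) → (s : ℂ) ∈ ball (t0 : ℂ) δ := by
    intro s hs
    rw [mem_ball, Complex.dist_eq, ← ofReal_sub, Complex.norm_real, Real.norm_eq_abs, abs_lt]
    constructor <;> linarith [hs.1, hs.2]
  simp only at hle
  rw [hGreal _ (hb' _ b1), hGreal _ (hb' _ a1), hg] at hle
  simp only at hle
  rw [C.sg_spec b2, C.sg_spec a2] at hle
  rw [crv_eq P b3.1.le b3.2.le, crv_eq P a3.1.le a3.2.le, ] at hle
  have hp2 : p = P.sidePt x y P.N (u0 - P.N) := crv_eq P a3.1.le a3.2.le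
  rw [hp2] at hle
  rw [P.sidePt_eq, P.sidePt_eq] at hle
  have hL := side_len_pos C.hx C.hy (P.side P.N)
  have e1 : (pt x y (P.vert P.N) + (((v - P.N) * len x y (P.side P.N) : ℝ) : ℂ) * udir k -
      (pt x y (P.vert P.N) + (((u0 - P.N) * len x y (P.side P.N) : ℝ) : ℂ) * udir k)) / udir k =
      (((v - u0) * len x y (P.side P.N) : ℝ) : ℂ) := by
    rw [div_eq_iff (udir_ne k)]
    push_cast
    ring
  rw [e1, sub_self, zero_div, zero_re, ofReal_re] at hle
  have : 0 < (v - u0) * len x y (P.side P.N) := by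
    apply mul_pos _ hL
    rw [hv]; linarith
  linarith

end Cht

end Pool.Agent.H19.RH
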