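import Pool.Agent.H19.RH.Bdry2

set_option autoImplicit false
open Set Metric Filter Topology Complex
open scoped Real ComplexConjugate

/-! The transfer: from the data on a polyomino domain to a solution `Sol4` of the four mark
problem in the half plane. -/

namespace Pool.Agent.H19.RH

open Pool.Agent.Q1.M4
open Pool.Agent.H75.Perc (dir dir_cases)
open Pool.Agent.H69.Car (IsHalf HC HO)
open H87.FM (w HP CH Sg Sol4)

variable {P : PType} {x y : ℤ → ℝ} {φ : ℂ → ℂ} {m2 m3 m4 : ℕ} {H : Fin 4 → ℂ → ℂ}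

/-- mark indicator -/
def mkk (P : PType) (m2 m3 m4 n : ℕ) : ℤ :=
  (if n = P.N then 1 else 0) + (if n = P.N + m2 then 1 else 0) + (if n = P.N + m3 then 1 else 0) +
    (if n = P.N + m4 then 1 else 0)

/-- number of marks after the side `n` -/
def cnt (P : PType) (m2 m3 m4 n : ℕ) : ℤ :=
  (if n < P.N then 1 else 0) + (if n < P.N + m2 then 1 else 0) + (if n < P.N + m3 then 1 else 0) +
    (if n < P.N + m4 then 1 else 0)

/-- exponents of the products -/
noncomputable def ee (P : PType) (m2 m3 m4 n : ℕ) : ℝ :=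
  (((P.side n).2 - (P.side (n - 1)).2 + mkk P m2 m3 m4 n : ℤ) : ℝ) / 3

/-- the vertices -/
def SS (P : PType) : Finset ℕ := Finset.Ico P.N (2 * P.N)

/-- the preimage of the vertex `n` -/
noncomputable def cc (P : PType) (x y : ℤ → ℝ) (φ : ℂ → ℂ) (n : ℕ) : ℝ := sg' P x y φ n
where sg' (P : PType) (x y : ℤ → ℝ) (φ : ℂ → ℂ) (n : ℕ) : ℝ := Cht.sg P x y φ (n : ℝ)

/-- the constant phase -/
noncomputable def kap (P : PType) : ℂ := phase (-(P.side (2 * P.N - 1)).2) 0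

/-- the weight function -/
noncomputable def wt (P : PType) (x y : ℤ → ℝ) (φ : ℂ → ℂ) (m2 m3 m4 : ℕ) (z : ℂ) : ℂ :=
  kap P * Pi' (SS P) (cc P x y φ) (ee P m2 m3 m4) z

/-- the derivative of `H i ∘ φ`, extended to the boundary -/
noncomputable def dd (φ : ℂ → ℂ) (H : Fin 4 → ℂ → ℂ) (i : Fin 4) : ℂ → ℂ :=
  extendFrom UP (deriv fun z => H i (φ z))

/-- the four functions in the half plane -/
noncomputable def ff (P : PType) (x y : ℤ → ℝ) (φ : ℂ → ℂ) (m2 m3 m4 : ℕ) (H : Fin 4 → ℂ → ℂ)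
    (i : Fin 4) (z : ℂ) : ℂ := wt P x y φ m2 m3 m4 z * dd φ H i z

lemma tele (k : ℕ → ℤ) (n : ℕ) (j : ℕ) :
    ∑ m ∈ Finset.Ico (n + 1) (n + j + 1), (k m - k (m - 1)) = k (n + j) - k n := by
  induction j with
  | zero => simp
  | succ j ih =>
    rw [Finset.sum_Ico_succ_top (by omega), show n + (j + 1) = n + j + 1 by ring, ih]
    simp

lemma sum_mkk (P : PType) (m2 m3 m4 : ℕ) (h2 : m2 < P.N) (h3 : m3 < P.N) (h4 : m4 < P.N) {n : ℕ} :
    ∑ m ∈ Finset.Ico (n + 1) (2 * P.N), mkk P m2 m3 m4 m = cnt P m2 m3 m4 n := by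
  have hN := N_pos P
  have key : ∀ a : ℕ, a < 2 * P.N → (∑ m ∈ Finset.Ico (n + 1) (2 * P.N), if m = a then (1:ℤ) else 0)
      = if n < a then 1 else 0 := by
    intro a ha
    rw [Finset.sum_ite_eq']
    congr 1
    rw [Finset.mem_Ico, eq_iff_iff]
    omega
  unfold mkk cnt
  rw [Finset.sum_add_distrib, Finset.sum_add_distrib, Finset.sum_add_distrib,
    key _ (by omega), key _ (by omega), key _ (by omega), key _ (by omega)]

lemma sum_ee (P : PType) (m2 m3 m4 : ℕ) (h2 : m2 < P.N) (h3 : m3 < P.N) (h4 : m4 < P.N) {n : ℕ}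
    (hn : n < 2 * P.N) : ∑ m ∈ Finset.Ico (n + 1) (2 * P.N), ee P m2 m3 m4 m =
      (((P.side (2 * P.N - 1)).2 - (P.side n).2 + cnt P m2 m3 m4 n : ℤ) : ℝ) / 3 := by
  unfold ee
  rw [← Finset.sum_div]
  congr 1
  rw [← sum_mkk P m2 m3 m4 h2 h3 h4, ← Int.cast_sum]
  congr 1
  rw [Finset.sum_add_distrib]
  congr 1
  have := tele (fun n => (P.side n).2) n (2 * P.N - 1 - n)
  have e1 : n + (2 * P.N - 1 - n) = 2 * P.N - 1 := by omega
  have e2 : 2 * P.N - 1 + 1 = 2 * P.N := by omega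
  rw [e1, e2] at this
  exact this

lemma side_two_N (P : PType) : (P.side (2 * P.N - 1)).2 = (P.side (P.N - 1)).2 + 4 := by
  have hN := N_pos P
  have h : 2 * P.N - 1 = (P.N - 1) + P.N := by omega
  rw [h, side_add_N]

/-- the total exponent -/
def tE (P : PType) (m2 m3 m4 n : ℕ) (i : Fin 4) : ℤ :=
  (P.side (n % P.N)).2 - (P.side n).2 + cnt P m2 m3 m4 n + pe (arc m2 m3 m4 (n % P.N)) i

section
variable (F : Fam P x y m2 m3 m4 H)
include F

lemma Fam.lt2 : m2 < P.N := F.p1.trans (F.p2.trans F.p3)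
lemma Fam.lt3 : m3 < P.N := F.p2.trans F.p3

/-- the arcs in the half plane and the total exponents -/
lemma Fam.tE_val {n : ℕ} (h1 : P.N ≤ n + 1) (h2 : n < 2 * P.N) :
    (n < P.N ∧ arc m2 m3 m4 (n % P.N) = 3 ∧ ∀ i, i ≠ 3 → tE P m2 m3 m4 n i = 5) ∨
    (P.N ≤ n ∧ n < P.N + m2 ∧ arc m2 m3 m4 (n % P.N) = 0 ∧ tE P m2 m3 m4 n 1 = -1 ∧
      tE P m2 m3 m4 n 2 = -1 ∧ tE P m2 m3 m4 n 3 = 3) ∨
    (P.N + m2 ≤ n ∧ n < P.N + m3 ∧ arc m2 m3 m4 (n % P.N) = 1 ∧ tE P m2 m3 m4 n 2 = -1 ∧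
      tE P m2 m3 m4 n 0 = -3 ∧ tE P m2 m3 m4 n 3 = -3) ∨
    (P.N + m3 ≤ n ∧ n < P.N + m4 ∧ arc m2 m3 m4 (n % P.N) = 2 ∧ ∀ i, i ≠ 2 →
      tE P m2 m3 m4 n i = -3) ∨
    (P.N + m4 ≤ n ∧ arc m2 m3 m4 (n % P.N) = 3 ∧ ∀ i, i ≠ 3 → tE P m2 m3 m4 n i = -3) := by
  have p0 := F.p0
  have p1 := F.p1
  have p2 := F.p2
  have p3 := F.p3
  rcases mod_cases P h2 with ⟨a, e⟩ | ⟨a, e, e'⟩
  · left
    have harc : arc m2 m3 m4 (n % P.N) = 3 := by
      unfold arc
      rw [e, if_neg (by omega), if_neg (by omega), if_neg (by omega)]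
    refine ⟨a, harc, ?_⟩
    intro i hi
    unfold tE
    rw [harc, e]
    have : cnt P m2 m3 m4 n = 4 := by
      unfold cnt
      rw [if_pos (by omega), if_pos (by omega), if_pos (by omega), if_pos (by omega)]
      norm_num
    rw [this]
    fin_cases i
    · show _ + (1:ℤ) = 5; ring
    · show _ + (1:ℤ) = 5; ring
    · show _ + (1:ℤ) = 5; ring
    · exact absurd rfl hi
  · right
    have hside : (P.side (n % P.N)).2 - (P.side n).2 = -4 := by
      have h3 : (P.side n).2 = (P.side (n % P.N)).2 + 4 := by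
        conv_lhs => rw [e']
        rw [side_add_N]
      rw [h3]; ring
    have hn' : n % P.N < P.N := Nat.mod_lt _ (N_pos P)
    rcases lt_or_ge (n % P.N) m2 with c1 | c1
    · left
      have harc : arc m2 m3 m4 (n % P.N) = 0 := by
        unfold arc
        rw [if_pos c1]
      have hcnt : cnt P m2 m3 m4 n = 3 := by
        unfold cnt
        rw [if_neg (by omega), if_pos (by omega), if_pos (by omega), if_pos (by omega)]
        norm_num
      refine ⟨a, by omega, harc, ?_, ?_, ?_⟩ <;> unfold tE <;> rw [harc, hside, hcnt]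
      · show (-4 + 3 + (0:ℤ)) = -1; norm_num
      · show (-4 + 3 + (0:ℤ)) = -1; norm_num
      · show (-4 + 3 + (4:ℤ)) = 3; norm_num
    · right
      rcases lt_or_ge (n % P.N) m3 with c2 | c2
      · left
        have harc : arc m2 m3 m4 (n % P.N) = 1 := by
          unfold arc
          rw [if_neg (by omega), if_pos c2]
        have hcnt : cnt P m2 m3 m4 n = 2 := by
          unfold cnt
          rw [if_neg (by omega), if_neg (by omega), if_pos (by omega), if_pos (by omega)]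
          norm_num
        refine ⟨by omega, by omega, harc, ?_, ?_, ?_⟩ <;> unfold tE <;> rw [harc, hside, hcnt]
        · show (-4 + 2 + (1:ℤ)) = -1; norm_num
        · show (-4 + 2 + (-1:ℤ)) = -3; norm_num
        · show (-4 + 2 + (-1:ℤ)) = -3; norm_num
      · right
        rcases lt_or_ge (n % P.N) m4 with c3 | c3
        · left
          have harc : arc m2 m3 m4 (n % P.N) = 2 := by
            unfold arc
            rw [if_neg (by omega), if_neg (by omega), if_pos c3]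
          have hcnt : cnt P m2 m3 m4 n = 1 := by
            unfold cnt
            rw [if_neg (by omega), if_neg (by omega), if_neg (by omega), if_pos (by omega)]
            norm_num
          refine ⟨by omega, by omega, harc, ?_⟩
          intro i hi
          unfold tE
          rw [harc, hside, hcnt]
          fin_cases i
          · show (-4 + 1 + (0:ℤ)) = -3; norm_num
          · show (-4 + 1 + (0:ℤ)) = -3; norm_num
          · exact absurd rfl hi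
          · show (-4 + 1 + (0:ℤ)) = -3; norm_num
        · right
          have harc : arc m2 m3 m4 (n % P.N) = 3 := by
            unfold arc
            rw [if_neg (by omega), if_neg (by omega), if_neg (by omega)]
          have hcnt : cnt P m2 m3 m4 n = 0 := by
            unfold cnt
            rw [if_neg (by omega), if_neg (by omega), if_neg (by omega), if_neg (by omega)]
            norm_num
          refine ⟨by omega, harc, ?_⟩
          intro i hi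
          unfold tE
          rw [harc, hside, hcnt]
          fin_cases i
          · show (-4 + 0 + (1:ℤ)) = -3; norm_num
          · show (-4 + 0 + (1:ℤ)) = -3; norm_num
          · show (-4 + 0 + (1:ℤ)) = -3; norm_num
          · exact absurd rfl hi

end

lemma phase_real {m : ℤ} (hm : m % 3 = 0) (r : ℝ) : (phase 0 m * (r : ℂ)).im = 0 := by
  obtain ⟨j, hj⟩ : ∃ j : ℤ, m = 3 * j := ⟨m / 3, by omega⟩
  unfold phase
  have e : (((π * (((0:ℤ) : ℝ) + (m : ℝ)) / 3 : ℝ) : ℂ) * I) = ((j * π : ℝ) : ℂ) * I := by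
    rw [hj]
    push_cast
    ring
  rw [e, Complex.im_mul_ofReal, Complex.exp_ofReal_mul_I_im, Real.sin_int_mul_pi, zero_mul]

lemma phase_w {m : ℤ} (hm : m % 3 = 2) (r : ℝ) : (w ^ 2 * (phase 0 m * (r : ℂ))).im = 0 := by
  have h := phase_real (m := m + 4) (by omega) r
  rw [phase_add, phase_four] at h
  rw [← h]
  congr 1
  ring

namespace Cht

section
variable (C : Cht P x y φ) (F : Fam P x y m2 m3 m4 H)

lemma mem_SS {n : ℕ} (hn : n ∈ SS P) : (n : ℝ) ∈ Ioo (bt P) (bt P + P.N) := by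
  unfold SS at hn
  rw [Finset.mem_Ico] at hn
  have h1 : (P.N : ℝ) ≤ n := by exact_mod_cast hn.1
  have h2 : (n : ℝ) + 1 ≤ 2 * P.N := by exact_mod_cast hn.2
  unfold bt
  constructor <;> linarith

include C in
lemma cc_inj {n n' : ℕ} (hn : n ∈ SS P) (hn' : n' ∈ SS P) (h : cc P x y φ n = cc P x y φ n') :
    n = n' := by
  have := C.sg_inj (mem_SS hn) (mem_SS hn') h
  exact_mod_cast this

include C in
lemma cc_lt {n n' : ℕ} (hn : n ∈ SS P) (hn' : n' ∈ SS P) :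
    cc P x y φ n < cc P x y φ n' ↔ n < n' := by
  have := C.sg_lt (mem_SS hn) (mem_SS hn')
  rw [show cc P x y φ n = sg P x y φ (n : ℝ) from rfl,
    show cc P x y φ n' = sg P x y φ (n' : ℝ) from rfl, this]
  exact Nat.cast_lt

include C in
/-- a real point which is not a vertex is in the interior of a side -/
lemma reg_param {t : ℝ} (ht : ∀ n ∈ SS P, t ≠ cc P x y φ n) : ∃ n : ℕ, P.N ≤ n + 1 ∧ n < 2 * P.N ∧
    ∃ u ∈ Ioo (bt P) (bt P + P.N), (n : ℝ) < u ∧ u < n + 1 ∧ sg P x y φ u = t := by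
  obtain ⟨u, hu, rfl, -⟩ := C.param_of t
  have hu0 : 0 ≤ u := (bt_pos P).le.trans hu.1.le
  have hN : (2:ℝ) ≤ P.N := by exact_mod_cast two_le_N P
  have a := hu.1
  have b := hu.2
  unfold bt at a b
  have hf1 : ((⌊u⌋₊ : ℕ) : ℝ) ≤ u := Nat.floor_le hu0
  have hf2 : u < ⌊u⌋₊ + 1 := Nat.lt_floor_add_one u
  have h1 : P.N ≤ ⌊u⌋₊ + 1 := by
    have : (P.N : ℝ) < ((⌊u⌋₊ + 1 + 1 : ℕ) : ℝ) := by push_cast; linarith
    have := Nat.cast_lt.1 this
    omega
  have h2 : ⌊u⌋₊ < 2 * P.N := by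
    have : ((⌊u⌋₊ : ℕ) : ℝ) < ((2 * P.N : ℕ) : ℝ) := by push_cast; linarith
    exact Nat.cast_lt.1 this
  refine ⟨⌊u⌋₊, h1, h2, u, hu, lt_of_le_of_ne hf1 ?_, hf2, rfl⟩
  intro he
  have h3 : ⌊u⌋₊ ∈ SS P := by
    unfold SS
    rw [Finset.mem_Ico]
    refine ⟨?_, h2⟩
    have : (P.N : ℝ) < ((⌊u⌋₊ + 1 : ℕ) : ℝ) := by push_cast; rw [he]; linarith
    have := Nat.cast_lt.1 this
    omega
  exact ht _ h3 (by rw [show cc P x y φ ⌊u⌋₊ = sg P x y φ (⌊u⌋₊ : ℝ) from rfl, he])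

include C in
lemma filter_eq {n : ℕ} (h1 : P.N ≤ n + 1) {u : ℝ} (hu : u ∈ Ioo (bt P) (bt P + P.N))
    (hn1 : (n : ℝ) < u) (hn2 : u < n + 1) :
    (SS P).filter (fun m => sg P x y φ u < cc P x y φ m) = Finset.Ico (n + 1) (2 * P.N) := by
  ext m
  rw [Finset.mem_filter, Finset.mem_Ico]
  constructor
  · rintro ⟨hm, hlt⟩
    have h3 := (C.sg_lt hu (mem_SS hm)).1 hlt
    unfold SS at hm
    rw [Finset.mem_Ico] at hm
    refine ⟨?_, hm.2⟩
    have : (n : ℝ) < m := hn1.trans h3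
    have := Nat.cast_lt.1 this
    omega
  · rintro ⟨ha, hb⟩
    have hm : m ∈ SS P := by
      unfold SS
      rw [Finset.mem_Ico]
      omega
    refine ⟨hm, (C.sg_lt hu (mem_SS hm)).2 ?_⟩
    have : ((n + 1 : ℕ) : ℝ) ≤ m := by exact_mod_cast ha
    push_cast at this
    linarith

include C F in
/-- value of the weight at an interior point of a side -/
lemma wt_real {n : ℕ} (h1 : P.N ≤ n + 1) (h2 : n < 2 * P.N) {u : ℝ}
    (hu : u ∈ Ioo (bt P) (bt P + P.N)) (hn1 : (n : ℝ) < u) (hn2 : u < n + 1) (i : Fin 4) :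
    ∃ ρ : ℝ, wt P x y φ m2 m3 m4 ((sg P x y φ u : ℝ) : ℂ) * lph P m2 m3 m4 n i =
      ρ * phase 0 (tE P m2 m3 m4 n i) := by
  have hne : ∀ m ∈ SS P, sg P x y φ u ≠ cc P x y φ m := by
    intro m hm he
    have := C.sg_inj hu (mem_SS hm) he
    rw [this] at hn1 hn2
    have a := Nat.cast_lt.1 hn1
    have b : m < n + 1 := by exact_mod_cast hn2
    omega
  obtain ⟨ρ, -, hρ⟩ := Pi'_real (S := SS P) (c := cc P x y φ) (e := ee P m2 m3 m4) hne
  refine ⟨ρ, ?_⟩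
  unfold wt
  rw [hρ, C.filter_eq h1 hu hn1 hn2, sum_ee P m2 m3 m4 F.lt2 F.lt3 F.p3 h2]
  unfold kap lph phase
  have e : Complex.exp (((π * (((-(P.side (2 * P.N - 1)).2 : ℤ) : ℝ) + ((0:ℤ) : ℝ)) / 3 : ℝ) : ℂ)
      * I) * Complex.exp (((π * ((((P.side (2 * P.N - 1)).2 - (P.side n).2 +
        cnt P m2 m3 m4 n : ℤ) : ℝ) / 3) : ℝ) : ℂ) * I) *
      Complex.exp (((π * (((P.side (n % P.N)).2 : ℝ) +
        ((pe (arc m2 m3 m4 (n % P.N)) i : ℤ) : ℝ)) / 3 : ℝ) : ℂ) * I) =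
      Complex.exp (((π * (((0:ℤ) : ℝ) + ((tE P m2 m3 m4 n i : ℤ) : ℝ)) / 3 : ℝ) : ℂ) * I) := by
    rw [← Complex.exp_add, ← Complex.exp_add]
    congr 1
    unfold tE
    push_cast
    ring
  linear_combination (ρ : ℂ) * e

include C F in
lemma dd_line {n : ℕ} (h2 : n < 2 * P.N) {u : ℝ}
    (hu : u ∈ Ioo (bt P) (bt P + P.N)) (hn1 : (n : ℝ) < u) (hn2 : u < n + 1) {i : Fin 4}
    (hi : i ≠ arc m2 m3 m4 (n % P.N)) :
    ∃ v : ℝ, dd φ H i ((sg P x y φ u : ℝ) : ℂ) = lph P m2 m3 m4 n i * v := by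
  obtain ⟨v, hv⟩ := C.deriv_limit_line F h2 hu hn1 hn2 hi
  exact ⟨v, extendFrom_eq (closure_UP (by simp)) hv⟩

include C F in
/-- boundary value of `ff i` -/
lemma ff_real {n : ℕ} (h1 : P.N ≤ n + 1) (h2 : n < 2 * P.N) {u : ℝ}
    (hu : u ∈ Ioo (bt P) (bt P + P.N)) (hn1 : (n : ℝ) < u) (hn2 : u < n + 1) {i : Fin 4}
    (hi : i ≠ arc m2 m3 m4 (n % P.N)) :
    ∃ r : ℝ, ff P x y φ m2 m3 m4 H i ((sg P x y φ u : ℝ) : ℂ) =
      phase 0 (tE P m2 m3 m4 n i) * r := by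
  obtain ⟨v, hv⟩ := C.dd_line F h2 hu hn1 hn2 hi
  obtain ⟨ρ, hρ⟩ := C.wt_real F h1 h2 hu hn1 hn2 i
  refine ⟨ρ * v, ?_⟩
  unfold ff
  rw [hv]
  push_cast
  linear_combination (v : ℂ) * hρ

include C F in
lemma dd_up {z : ℂ} (hz : 0 < z.im) (i : Fin 4) : dd φ H i z = deriv (fun z => H i (φ z)) z := by
  have hd : DifferentiableOn ℂ (deriv fun z => H i (φ z)) UP := (C.comp_diff F i).deriv isOpen_UP
  exact extendFrom_eq_of_UP hz (hd.differentiableAt (isOpen_UP.mem_nhds hz)).continuousAt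

include C F in
lemma dd_cont (i : Fin 4) : ContinuousOn (dd φ H i)
    {z | 0 ≤ z.im ∧ ∀ n ∈ SS P, z ≠ cc P x y φ n} := by
  apply continuousOn_extendFrom (fun z hz => closure_UP hz.1)
  rintro z ⟨hz, hz'⟩
  rcases eq_or_lt_of_le hz with h | h
  · have hzr : z = ((z.re : ℝ) : ℂ) := Complex.ext (by simp) (by simp [h.symm])
    have hne : ∀ n ∈ SS P, z.re ≠ cc P x y φ n := by
      intro n hn he
      exact hz' n hn (by rw [hzr, he])
    obtain ⟨n, h1, h2, u, hu, hn1, hn2, hsg⟩ := C.reg_param hne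
    obtain ⟨v, hv⟩ := C.deriv_limit F h2 hu hn1 hn2 i
    rw [hsg, ← hzr] at hv
    exact ⟨v, hv⟩
  · have hd : DifferentiableOn ℂ (deriv fun z => H i (φ z)) UP := (C.comp_diff F i).deriv isOpen_UP
    exact ⟨_, (hd.differentiableAt (isOpen_UP.mem_nhds h)).continuousAt.tendsto.mono_left
      nhdsWithin_le_nhds⟩

lemma wt_cont : ContinuousOn (wt P x y φ m2 m3 m4)
    {z | 0 ≤ z.im ∧ ∀ n ∈ SS P, z ≠ cc P x y φ n} := by
  rintro z ⟨hz, hz'⟩
  exact (continuousAt_const.mul (Pi'_analytic hz hz').continuousAt).continuousWithinAt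

lemma wt_diff : DifferentiableOn ℂ (wt P x y φ m2 m3 m4) UP := by
  intro z hz
  have h1 : ∀ n ∈ SS P, z ≠ cc P x y φ n := by
    intro n _ he
    have h2 : (0:ℝ) < z.im := hz
    rw [he, ofReal_im] at h2
    exact lt_irrefl _ h2
  exact ((Pi'_analytic (show (0:ℝ) ≤ z.im from le_of_lt hz) h1).differentiableAt.const_mul
    _).differentiableWithinAt

include C F in
lemma ff_cont (i : Fin 4) : ContinuousOn (ff P x y φ m2 m3 m4 H i)
    {z | 0 ≤ z.im ∧ ∀ n ∈ SS P, z ≠ cc P x y φ n} := wt_cont.mul (C.dd_cont F i)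

include C F in
lemma ff_diff (i : Fin 4) : DifferentiableOn ℂ (ff P x y φ m2 m3 m4 H i) UP := by
  have hd : DifferentiableOn ℂ (deriv fun z => H i (φ z)) UP := (C.comp_diff F i).deriv isOpen_UP
  refine ((wt_diff (P := P) (x := x) (y := y) (φ := φ) (m2 := m2) (m3 := m3) (m4 := m4)).mul
    hd).congr ?_
  intro z hz
  show wt P x y φ m2 m3 m4 z * dd φ H i z = _
  rw [C.dd_up F hz i]
  rfl

include C F in
lemma ff_rel {z : ℂ} (hz : 0 < z.im) : w * ff P x y φ m2 m3 m4 H 1 z +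
    ff P x y φ m2 m3 m4 H 2 z + w ^ 2 * ff P x y φ m2 m3 m4 H 0 z +
    ff P x y φ m2 m3 m4 H 3 z = 0 := by
  unfold ff
  rw [C.dd_up F hz, C.dd_up F hz, C.dd_up F hz, C.dd_up F hz]
  linear_combination wt P x y φ m2 m3 m4 z * C.deriv_rel F hz

lemma norm_kap : ‖kap P‖ = 1 := norm_phase _ _

include C F in
/-- bound at the vertices -/
lemma ff_vertex {n : ℕ} (hn : n ∈ SS P) : ∃ K > 0, ∃ r > 0, ∀ i : Fin 4, ∀ z : ℂ, 0 < z.im →
    dist z (cc P x y φ n : ℂ) < r → ‖ff P x y φ m2 m3 m4 H i z‖ ≤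
      K * dist z (cc P x y φ n : ℂ) ^ (((mkk P m2 m3 m4 n : ℝ) - 1) / 3) := by
  have hn' := hn
  unfold SS at hn'
  rw [Finset.mem_Ico] at hn'
  have hN := N_pos P
  obtain ⟨m, rfl⟩ : ∃ m, n = m + 1 := ⟨n - 1, by omega⟩
  obtain ⟨K, hK, r, hr, hb⟩ := C.vertex_growth F hn'.1 hn'.2
  obtain ⟨K', r', hK', hr', hb'⟩ := Pi'_near (S := SS P) (c := cc P x y φ)
    (e := ee P m2 m3 m4) hn (fun j hj hne he => hne (C.cc_inj hj hn he))
  have hcc : cc P x y φ (m + 1) = sg P x y φ ((m : ℝ) + 1) := by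
    show sg P x y φ ((m + 1 : ℕ) : ℝ) = _
    push_cast
    rfl
  refine ⟨K' * K, mul_pos hK' hK, min r r', lt_min hr hr', ?_⟩
  intro i z hz hd
  have hz0 : z ≠ (cc P x y φ (m + 1) : ℝ) := by
    intro he
    rw [he, ofReal_im] at hz
    exact lt_irrefl _ hz
  have hd0 : 0 < dist z (cc P x y φ (m + 1) : ℂ) := dist_pos.2 hz0
  have e1 := hb i z hz (by rw [← hcc]; exact hd.trans_le (min_le_left _ _))
  rw [← hcc] at e1
  have e2 := hb' z hz0 (by rw [← dist_eq_norm]; exact hd.trans_le (min_le_right _ _))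
  rw [← dist_eq_norm] at e2
  unfold ff wt
  rw [C.dd_up F hz, norm_mul, norm_mul, norm_kap, one_mul]
  calc ‖Pi' (SS P) (cc P x y φ) (ee P m2 m3 m4) z‖ * ‖deriv (fun z => H i (φ z)) z‖
      ≤ (K' * dist z (cc P x y φ (m + 1) : ℂ) ^ ee P m2 m3 m4 (m + 1)) *
        (K * dist z (cc P x y φ (m + 1) : ℂ) ^ (2 / 3 * vex P m - 1)) :=
        mul_le_mul e2 e1 (norm_nonneg _) (by positivity)
    _ = K' * K * (dist z (cc P x y φ (m + 1) : ℂ) ^ ee P m2 m3 m4 (m + 1) *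
        dist z (cc P x y φ (m + 1) : ℂ) ^ (2 / 3 * vex P m - 1)) := by ring
    _ = _ := by
        rw [← Real.rpow_add hd0]
        congr 2
        unfold ee vex
        rw [Nat.add_sub_cancel]
        push_cast
        ring

include C F in
/-- bound at infinity -/
lemma ff_infty : ∃ K > 0, ∃ R > 0, ∀ i : Fin 4, ∀ z : ℂ, 0 < z.im → R < ‖z‖ →
    ‖ff P x y φ m2 m3 m4 H i z‖ ≤ K * ‖z‖ ^ (2 / 3 : ℝ) := by
  obtain ⟨K, hK, R, hR, hb⟩ := C.infty_growth F
  obtain ⟨K', R', hK', hR', hb'⟩ := Pi'_infty (S := SS P) (c := cc P x y φ) (e := ee P m2 m3 m4)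
  have hN := two_le_N P
  have hsum : ∑ n ∈ SS P, ee P m2 m3 m4 n = 8 / 3 := by
    have h1 := sum_ee P m2 m3 m4 F.lt2 F.lt3 F.p3 (n := P.N - 1) (by omega)
    have e1 : P.N - 1 + 1 = P.N := by omega
    rw [e1] at h1
    unfold SS
    rw [h1, side_two_N]
    have h2 : cnt P m2 m3 m4 (P.N - 1) = 4 := by
      unfold cnt
      rw [if_pos (by omega), if_pos (by omega), if_pos (by omega), if_pos (by omega)]
      norm_num
    rw [h2]
    push_cast
    ring
  rw [hsum] at hb'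
  refine ⟨K' * K, mul_pos hK' hK, max R R', lt_max_of_lt_left hR, ?_⟩
  intro i z hz hzR
  have e1 := hb i z hz ((le_max_left _ _).trans_lt hzR)
  have e2 := hb' z ((le_max_right _ _).trans_lt hzR)
  have hz0 : 0 < ‖z‖ := hR.trans ((le_max_left _ _).trans_lt hzR)
  unfold ff wt
  rw [C.dd_up F hz, norm_mul, norm_mul, norm_kap, one_mul]
  calc ‖Pi' (SS P) (cc P x y φ) (ee P m2 m3 m4) z‖ * ‖deriv (fun z => H i (φ z)) z‖
      ≤ (K' * ‖z‖ ^ (8 / 3 : ℝ)) * (K * ‖z‖ ^ (-2 : ℝ)) :=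
        mul_le_mul e2 e1 (norm_nonneg _) (by positivity)
    _ = K' * K * (‖z‖ ^ (8 / 3 : ℝ) * ‖z‖ ^ (-2 : ℝ)) := by ring
    _ = _ := by
        rw [← Real.rpow_add hz0]
        norm_num

omit C F in
/-- the exceptional set -/
noncomputable def _root_.Pool.Agent.H19.RH.EE (P : PType) (x y : ℤ → ℝ) (φ : ℂ → ℂ) : Finset ℝ :=
  (SS P).image (cc P x y φ)

include C in
lemma lt_iff {n j : ℕ} (hj : j ∈ SS P) {u : ℝ} (hu : u ∈ Ioo (bt P) (bt P + P.N))
    (hn1 : (n : ℝ) < u) (hn2 : u < n + 1) :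
    (cc P x y φ j < sg P x y φ u ↔ j ≤ n) ∧ (sg P x y φ u < cc P x y φ j ↔ n < j) := by
  have h1 := C.sg_lt (mem_SS hj) hu
  have h2 := C.sg_lt hu (mem_SS hj)
  constructor
  · rw [show cc P x y φ j = sg P x y φ (j : ℝ) from rfl, h1]
    constructor
    · intro h
      have : (j : ℝ) < n + 1 := h.trans hn2
      have : j < n + 1 := by exact_mod_cast this
      omega
    · intro h
      have : (j : ℝ) ≤ n := by exact_mod_cast h
      linarith
  · rw [show cc P x y φ j = sg P x y φ (j : ℝ) from rfl, h2]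
    constructor
    · intro h
      have : (n : ℝ) < j := hn1.trans h
      exact_mod_cast this
    · intro h
      have : (n : ℝ) + 1 ≤ j := by exact_mod_cast h
      linarith

/-- **The transfer**: the four functions in the half plane are a solution of the four mark
problem. -/
theorem sol4 (C : Cht P x y φ) (F : Fam P x y m2 m3 m4 H) :
    Sol4 (cc P x y φ P.N) (cc P x y φ (P.N + m2)) (cc P x y φ (P.N + m3))
    (cc P x y φ (P.N + m4)) (EE P x y φ) (ff P x y φ m2 m3 m4 H 0) (ff P x y φ m2 m3 m4 H 1)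
    (ff P x y φ m2 m3 m4 H 2) (ff P x y φ m2 m3 m4 H 3) := by
  have p0 := F.p0
  have p1 := F.p1
  have p2 := F.p2
  have p3 := F.p3
  have hN := N_pos P
  have s1 : P.N ∈ SS P := Finset.mem_Ico.2 ⟨le_rfl, by omega⟩
  have s2 : P.N + m2 ∈ SS P := Finset.mem_Ico.2 ⟨by omega, by omega⟩
  have s3 : P.N + m3 ∈ SS P := Finset.mem_Ico.2 ⟨by omega, by omega⟩
  have s4 : P.N + m4 ∈ SS P := Finset.mem_Ico.2 ⟨by omega, by omega⟩
  have hE : ∀ n ∈ SS P, cc P x y φ n ∈ EE P x y φ := fun n hn => Finset.mem_image_of_mem _ hn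
  have hreg : ∀ t : ℝ, (t : ℂ) ∉ Sg (cc P x y φ P.N) (cc P x y φ (P.N + m2))
      (cc P x y φ (P.N + m3)) (cc P x y φ (P.N + m4)) (EE P x y φ) →
      ∀ n ∈ SS P, t ≠ cc P x y φ n := by
    intro t ht n hn he
    apply ht
    unfold Sg
    right; right; right; right
    exact ⟨_, hE n hn, by rw [he]⟩
  have hsub : CH \ Sg (cc P x y φ P.N) (cc P x y φ (P.N + m2))
      (cc P x y φ (P.N + m3)) (cc P x y φ (P.N + m4)) (EE P x y φ) ⊆
      {z | 0 ≤ z.im ∧ ∀ n ∈ SS P, z ≠ cc P x y φ n} := by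
    rintro z ⟨hz, hz'⟩
    refine ⟨hz, fun n hn he => hz' ?_⟩
    unfold Sg
    right; right; right; right
    exact ⟨_, hE n hn, he⟩
  have hf : ∀ f ∈ ({ff P x y φ m2 m3 m4 H 0, ff P x y φ m2 m3 m4 H 1,
      ff P x y φ m2 m3 m4 H 2, ff P x y φ m2 m3 m4 H 3} : Set (ℂ → ℂ)), ∃ i,
      f = ff P x y φ m2 m3 m4 H i := by
    intro f hf
    rcases hf with rfl | rfl | rfl | rfl
    · exact ⟨0, rfl⟩
    · exact ⟨1, rfl⟩
    · exact ⟨2, rfl⟩
    · exact ⟨3, rfl⟩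
  have hmk0 : ∀ n ∈ SS P, (0:ℤ) ≤ mkk P m2 m3 m4 n := by
    intro n _
    unfold mkk
    split_ifs <;> norm_num
  -- vertex limit
  have hexc : ∀ n ∈ SS P, ∀ i, Tendsto (fun z => (z - (cc P x y φ n : ℂ)) *
      ff P x y φ m2 m3 m4 H i z) (𝓝[HP] (cc P x y φ n : ℂ)) (𝓝 0) := by
    intro n hn i
    obtain ⟨K, hK, r, hr, hb⟩ := C.ff_vertex F hn
    rw [tendsto_zero_iff_norm_tendsto_zero]
    set e : ℝ := 1 + ((mkk P m2 m3 m4 n : ℝ) - 1) / 3 with he
    have he0 : 0 < e := by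
      have : (0:ℝ) ≤ mkk P m2 m3 m4 n := by exact_mod_cast hmk0 n hn
      rw [he]; linarith
    have hlim : Tendsto (fun z : ℂ => K * dist z (cc P x y φ n : ℂ) ^ e)
        (𝓝[HP] (cc P x y φ n : ℂ)) (𝓝 0) := by
      have h1 : Tendsto (fun z : ℂ => dist z (cc P x y φ n : ℂ)) (𝓝 (cc P x y φ n : ℂ))
          (𝓝 0) := by
        have : Continuous fun z : ℂ => dist z (cc P x y φ n : ℂ) := by fun_prop
        have := this.tendsto (cc P x y φ n : ℂ)
        rwa [dist_self] at this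
      have h2 := (h1.rpow_const (p := e) (Or.inr he0.le)).const_mul K
      rw [Real.zero_rpow he0.ne', mul_zero] at h2
      exact h2.mono_left nhdsWithin_le_nhds
    refine squeeze_zero' (Eventually.of_forall fun z => norm_nonneg _) ?_ hlim
    have hball : ball (cc P x y φ n : ℂ) r ∈ 𝓝 (cc P x y φ n : ℂ) := ball_mem_nhds _ hr
    filter_upwards [self_mem_nhdsWithin, mem_nhdsWithin_of_mem_nhds hball] with z hz hz'
    have hz0 : 0 < dist z (cc P x y φ n : ℂ) := by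
      rw [dist_pos]
      intro h
      have h2 : (0:ℝ) < z.im := hz
      rw [h, ofReal_im] at h2
      exact lt_irrefl _ h2
    rw [norm_mul, ← dist_eq_norm, he, Real.rpow_add hz0, Real.rpow_one]
    calc dist z (cc P x y φ n : ℂ) * ‖ff P x y φ m2 m3 m4 H i z‖
        ≤ dist z (cc P x y φ n : ℂ) * (K * dist z (cc P x y φ n : ℂ) ^
          (((mkk P m2 m3 m4 n : ℝ) - 1) / 3)) :=
          mul_le_mul_of_nonneg_left (hb i z hz hz') hz0.le
      _ = _ := by ring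
  have hbdd : ∀ n ∈ SS P, mkk P m2 m3 m4 n = 1 → ∀ i, ∃ C r : ℝ, 0 < r ∧ ∀ z ∈ HP,
      ‖z - (cc P x y φ n : ℂ)‖ < r → ‖ff P x y φ m2 m3 m4 H i z‖ ≤ C := by
    intro n hn hm i
    obtain ⟨K, hK, r, hr, hb⟩ := C.ff_vertex F hn
    refine ⟨K, r, hr, fun z hz hzr => ?_⟩
    have := hb i z hz (by rw [dist_eq_norm]; exact hzr)
    rw [hm, Int.cast_one, sub_self, zero_div, Real.rpow_zero, mul_one] at this
    exact this
  refine ⟨C.ff_diff F 0, C.ff_diff F 1, C.ff_diff F 2, C.ff_diff F 3,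
    (C.ff_cont F 0).mono hsub, (C.ff_cont F 1).mono hsub, (C.ff_cont F 2).mono hsub,
    (C.ff_cont F 3).mono hsub, fun z hz => C.ff_rel F hz, ?_, ?_, ?_, ?_, ?_, ?_, ?_, ?_, ?_, ?_⟩
  · -- r12
    intro t ht hlt
    obtain ⟨n, h1, h2, u, hu, hn1, hn2, rfl⟩ := C.reg_param (hreg t ht)
    have hle := (C.lt_iff s2 hu hn1 hn2).1.1 hlt
    rcases F.tE_val h1 h2 with ⟨a, b, e⟩ | ⟨a, b, ha, e1, e2, e3⟩ | ⟨a, b, ha, e1, e2, e3⟩ |
      ⟨a, b, ha, e⟩ | ⟨a, ha, e⟩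
    · omega
    · omega
    · obtain ⟨r, hr⟩ := C.ff_real F h1 h2 hu hn1 hn2 (i := 0) (by rw [ha]; decide)
      rw [hr, e2]; exact phase_real (by norm_num) r
    · obtain ⟨r, hr⟩ := C.ff_real F h1 h2 hu hn1 hn2 (i := 0) (by rw [ha]; decide)
      rw [hr, e 0 (by decide)]; exact phase_real (by norm_num) r
    · obtain ⟨r, hr⟩ := C.ff_real F h1 h2 hu hn1 hn2 (i := 0) (by rw [ha]; decide)
      rw [hr, e 0 (by decide)]; exact phase_real (by norm_num) r
  · -- l12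
    intro t ht hlt
    obtain ⟨n, h1, h2, u, hu, hn1, hn2, rfl⟩ := C.reg_param (hreg t ht)
    have hle := (C.lt_iff s1 hu hn1 hn2).2.1 hlt
    rcases F.tE_val h1 h2 with ⟨a, ha, e⟩ | ⟨a, b, ha, e1, e2, e3⟩ | ⟨a, b, ha, e1, e2, e3⟩ |
      ⟨a, b, ha, e⟩ | ⟨a, ha, e⟩
    · obtain ⟨r, hr⟩ := C.ff_real F h1 h2 hu hn1 hn2 (i := 0) (by rw [ha]; decide)
      rw [hr, e 0 (by decide)]; exact phase_w (by norm_num) r
    all_goals omega
  · -- r23
    intro t ht hlt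
    obtain ⟨n, h1, h2, u, hu, hn1, hn2, rfl⟩ := C.reg_param (hreg t ht)
    have hle := (C.lt_iff s3 hu hn1 hn2).1.1 hlt
    rcases F.tE_val h1 h2 with ⟨a, ha, e⟩ | ⟨a, b, ha, e1, e2, e3⟩ | ⟨a, b, ha, e1, e2, e3⟩ |
      ⟨a, b, ha, e⟩ | ⟨a, ha, e⟩
    · omega
    · omega
    · omega
    · obtain ⟨r, hr⟩ := C.ff_real F h1 h2 hu hn1 hn2 (i := 1) (by rw [ha]; decide)
      rw [hr, e 1 (by decide)]; exact phase_real (by norm_num) r
    · obtain ⟨r, hr⟩ := C.ff_real F h1 h2 hu hn1 hn2 (i := 1) (by rw [ha]; decide)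
      rw [hr, e 1 (by decide)]; exact phase_real (by norm_num) r
  · -- l23
    intro t ht hlt
    obtain ⟨n, h1, h2, u, hu, hn1, hn2, rfl⟩ := C.reg_param (hreg t ht)
    have hle := (C.lt_iff s2 hu hn1 hn2).2.1 hlt
    rcases F.tE_val h1 h2 with ⟨a, ha, e⟩ | ⟨a, b, ha, e1, e2, e3⟩ | ⟨a, b, ha, e1, e2, e3⟩ |
      ⟨a, b, ha, e⟩ | ⟨a, ha, e⟩
    · obtain ⟨r, hr⟩ := C.ff_real F h1 h2 hu hn1 hn2 (i := 1) (by rw [ha]; decide)
      rw [hr, e 1 (by decide)]; exact phase_w (by norm_num) r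
    · obtain ⟨r, hr⟩ := C.ff_real F h1 h2 hu hn1 hn2 (i := 1) (by rw [ha]; decide)
      rw [hr, e1]; exact phase_w (by norm_num) r
    all_goals omega
  · -- r34
    intro t ht hlt
    obtain ⟨n, h1, h2, u, hu, hn1, hn2, rfl⟩ := C.reg_param (hreg t ht)
    have hle := (C.lt_iff s4 hu hn1 hn2).1.1 hlt
    rcases F.tE_val h1 h2 with ⟨a, ha, e⟩ | ⟨a, b, ha, e1, e2, e3⟩ | ⟨a, b, ha, e1, e2, e3⟩ |
      ⟨a, b, ha, e⟩ | ⟨a, ha, e⟩
    · omega
    · omega
    · omega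
    · omega
    · obtain ⟨r, hr⟩ := C.ff_real F h1 h2 hu hn1 hn2 (i := 2) (by rw [ha]; decide)
      rw [hr, e 2 (by decide)]; exact phase_real (by norm_num) r
  · -- l34
    intro t ht hlt
    obtain ⟨n, h1, h2, u, hu, hn1, hn2, rfl⟩ := C.reg_param (hreg t ht)
    have hle := (C.lt_iff s3 hu hn1 hn2).2.1 hlt
    rcases F.tE_val h1 h2 with ⟨a, ha, e⟩ | ⟨a, b, ha, e1, e2, e3⟩ | ⟨a, b, ha, e1, e2, e3⟩ |
      ⟨a, b, ha, e⟩ | ⟨a, ha, e⟩
    · obtain ⟨r, hr⟩ := C.ff_real F h1 h2 hu hn1 hn2 (i := 2) (by rw [ha]; decide)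
      rw [hr, e 2 (by decide)]; exact phase_w (by norm_num) r
    · obtain ⟨r, hr⟩ := C.ff_real F h1 h2 hu hn1 hn2 (i := 2) (by rw [ha]; decide)
      rw [hr, e2]; exact phase_w (by norm_num) r
    · obtain ⟨r, hr⟩ := C.ff_real F h1 h2 hu hn1 hn2 (i := 2) (by rw [ha]; decide)
      rw [hr, e1]; exact phase_w (by norm_num) r
    all_goals omega
  · -- m14
    intro t ht hlt hlt'
    obtain ⟨n, h1, h2, u, hu, hn1, hn2, rfl⟩ := C.reg_param (hreg t ht)
    have hle := (C.lt_iff s1 hu hn1 hn2).1.1 hlt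
    have hle' := (C.lt_iff s4 hu hn1 hn2).2.1 hlt'
    rcases F.tE_val h1 h2 with ⟨a, ha, e⟩ | ⟨a, b, ha, e1, e2, e3⟩ | ⟨a, b, ha, e1, e2, e3⟩ |
      ⟨a, b, ha, e⟩ | ⟨a, ha, e⟩
    · omega
    · obtain ⟨r, hr⟩ := C.ff_real F h1 h2 hu hn1 hn2 (i := 3) (by rw [ha]; decide)
      rw [hr, e3]; exact phase_real (by norm_num) r
    · obtain ⟨r, hr⟩ := C.ff_real F h1 h2 hu hn1 hn2 (i := 3) (by rw [ha]; decide)
      rw [hr, e3]; exact phase_real (by norm_num) r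
    · obtain ⟨r, hr⟩ := C.ff_real F h1 h2 hu hn1 hn2 (i := 3) (by rw [ha]; decide)
      rw [hr, e 3 (by decide)]; exact phase_real (by norm_num) r
    · omega
  · -- exc
    intro e he f hf'
    obtain ⟨i, rfl⟩ := hf f hf'
    obtain ⟨n, hn, rfl⟩ := Finset.mem_image.1 he
    exact hexc n hn i
  · -- bdd
    intro t ht f hf'
    obtain ⟨i, rfl⟩ := hf f hf'
    rcases ht with rfl | rfl | rfl | rfl
    · refine hbdd _ s1 ?_ i
      unfold mkk
      rw [if_pos rfl, if_neg (by omega), if_neg (by omega), if_neg (by omega)]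
      norm_num
    · refine hbdd _ s2 ?_ i
      unfold mkk
      rw [if_neg (by omega), if_pos rfl, if_neg (by omega), if_neg (by omega)]
      norm_num
    · refine hbdd _ s3 ?_ i
      unfold mkk
      rw [if_neg (by omega), if_neg (by omega), if_pos rfl, if_neg (by omega)]
      norm_num
    · refine hbdd _ s4 ?_ i
      unfold mkk
      rw [if_neg (by omega), if_neg (by omega), if_neg (by omega), if_pos rfl]
      norm_num
  · -- inf
    intro f hf'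
    obtain ⟨i, rfl⟩ := hf f hf'
    obtain ⟨K, hK, R, hR, hb⟩ := C.ff_infty F
    exact ⟨K, R, hR, fun z hz hzR => hb i z hz hzR⟩

end

end Cht

end Pool.Agent.H19.RH
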