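import Pool.Agent.H19.RH.Sig

set_option autoImplicit false
open Set Metric Filter Topology Complex
open scoped Real

/-! Local behaviour of the Riemann map of a polyomino domain at the vertices. -/

namespace Pool.Agent.H19.RH

open Pool.Agent.Q1.M4
open Pool.Agent.H75.Perc (dir dir_cases)
open Pool.Agent.H81.Q1 (IsJordanDomain)
open Pool.Agent.H69.Car (IsHalf HC HO)

variable {x y : ℤ → ℝ}

lemma log_polar {s ψ : ℝ} (hs : 0 < s) (h1 : -π < ψ) (h2 : ψ ≤ π) :
    Complex.log ((s : ℂ) * Complex.exp (ψ * I)) = Real.log s + ψ * I := by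
  have e : (s : ℂ) * Complex.exp (ψ * I) = Complex.exp (Real.log s + ψ * I) := by
    rw [Complex.exp_add, ← Complex.ofReal_exp, Real.exp_log hs]
  rw [e, Complex.log_exp]
  · simpa using h1
  · simpa using h2

lemma slit_polar {s ψ : ℝ} (hs : 0 < s) (h1 : -π < ψ) (h2 : ψ < π) :
    (s : ℂ) * Complex.exp (ψ * I) ∈ slitPlane := by
  rw [mem_slitPlane_iff_arg]
  refine ⟨?_, ?_⟩
  · have h := log_polar hs h1 h2.le
    have h3 := congrArg Complex.im h
    rw [Complex.log_im] at h3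
    rw [h3]
    simp only [add_im, ofReal_im, mul_im, ofReal_re, I_im, mul_one, I_re, mul_zero, add_zero,
      zero_add]
    exact h2.ne
  · exact mul_ne_zero (by exact_mod_cast hs.ne') (Complex.exp_ne_zero _)

namespace Cht

variable {P : PType} {φ : ℂ → ℂ} (C : Cht P x y φ)
include C

lemma param_of (t : ℝ) : ∃ u ∈ Ioo (bt P) (bt P + P.N), sg P x y φ u = t ∧ φ t = crv P x y u := by
  obtain ⟨u, hu, hu'⟩ := C.sg_surj t
  exact ⟨u, hu, hu', by rw [← hu']; exact C.sg_spec hu⟩

lemma sg_lt {u v : ℝ} (hu : u ∈ Ioo (bt P) (bt P + P.N)) (hv : v ∈ Ioo (bt P) (bt P + P.N)) :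
    sg P x y φ u < sg P x y φ v ↔ u < v := C.sg_mono.lt_iff_lt hu hv

/-- real points near the preimage of the parameter `u0` -/
lemma near_param {u0 : ℝ} (hu0 : u0 ∈ Ioo (bt P) (bt P + P.N)) {η : ℝ} (hη : 0 < η) :
    ∃ δ > 0, ∀ t : ℝ, |t - sg P x y φ u0| < δ → ∃ u ∈ Ioo (bt P) (bt P + P.N),
      |u - u0| < η ∧ φ t = crv P x y u ∧ (sg P x y φ u0 < t ↔ u0 < u) ∧
        (t < sg P x y φ u0 ↔ u < u0) := by
  obtain ⟨η', hη', h1, h2, h3⟩ : ∃ η' > 0, η' < η ∧ bt P < u0 - η' ∧ u0 + η' < bt P + P.N := by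
    have a := hu0.1
    have b := hu0.2
    refine ⟨min (η / 2) (min ((u0 - bt P) / 2) ((bt P + P.N - u0) / 2)), ?_, ?_, ?_, ?_⟩
    · exact lt_min (by linarith) (lt_min (by linarith) (by linarith))
    · exact lt_of_le_of_lt (min_le_left _ _) (by linarith)
    · have := (min_le_right (η / 2) (min ((u0 - bt P) / 2) ((bt P + P.N - u0) / 2))).trans
        (min_le_left _ _)
      linarith
    · have := (min_le_right (η / 2) (min ((u0 - bt P) / 2) ((bt P + P.N - u0) / 2))).trans
        (min_le_right _ _)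
      linarith
  have hm : u0 - η' ∈ Ioo (bt P) (bt P + P.N) := ⟨h2, by linarith⟩
  have hp : u0 + η' ∈ Ioo (bt P) (bt P + P.N) := ⟨by linarith, h3⟩
  have l1 : sg P x y φ (u0 - η') < sg P x y φ u0 := (C.sg_lt hm hu0).2 (by linarith)
  have l2 : sg P x y φ u0 < sg P x y φ (u0 + η') := (C.sg_lt hu0 hp).2 (by linarith)
  refine ⟨min (sg P x y φ u0 - sg P x y φ (u0 - η')) (sg P x y φ (u0 + η') - sg P x y φ u0),
    lt_min (by linarith) (by linarith), ?_⟩
  intro t ht
  rw [lt_min_iff, abs_lt, abs_lt] at ht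
  obtain ⟨u, hu, rfl, hφ⟩ := C.param_of t
  refine ⟨u, hu, ?_, hφ, C.sg_lt hu0 hu, C.sg_lt hu hu0⟩
  have a1 : u0 - η' < u := (C.sg_lt hm hu).1 (by linarith [ht.1.1])
  have a2 : u < u0 + η' := (C.sg_lt hu hp).1 (by linarith [ht.2.2])
  rw [abs_lt]
  constructor <;> linarith

/-- the exponent at the vertex `m + 1` -/
noncomputable def _root_.Pool.Agent.H19.RH.vex (P : PType) (m : ℕ) : ℝ :=
  1 - (((P.side (m + 1)).2 - (P.side m).2 : ℤ) : ℝ) / 2

omit C in
lemma _root_.Pool.Agent.H19.RH.vex_cases (P : PType) (m : ℕ) :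
    vex P m = 3 / 2 ∨ vex P m = 1 ∨ vex P m = 1 / 2 := by
  unfold vex
  rcases P.turn m with h | h | h
  · left; rw [h]; push_cast; ring
  · right; left; rw [h]; push_cast; ring
  · right; right; rw [h]; push_cast; ring

omit C in
lemma _root_.Pool.Agent.H19.RH.vex_pos (P : PType) (m : ℕ) : 1 / 2 ≤ vex P m ∧ vex P m ≤ 3 / 2 := by
  rcases vex_cases P m with h | h | h <;> rw [h] <;> norm_num

/-- **The Riemann map at a vertex** -/
theorem vert_bound {m : ℕ} (h1 : P.N ≤ m + 1) (h2 : m + 1 < 2 * P.N) :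
    ∃ K > 0, ∃ r > 0, ∀ w : ℂ, 0 < w.im → dist w (sg P x y φ ((m : ℝ) + 1)) < r →
      dist (φ w) (pt x y (P.vert (m + 1))) ≤ K * dist w (sg P x y φ ((m : ℝ) + 1)) ^ vex P m := by
  have hN : (2:ℝ) ≤ P.N := by exact_mod_cast two_le_N P
  have h1' : (P.N : ℝ) ≤ m + 1 := by exact_mod_cast h1
  have h2' : (m : ℝ) + 1 + 1 ≤ 2 * P.N := by exact_mod_cast h2
  have hbt : bt P = P.N - 1 / 2 := rfl
  have hu0 : (m : ℝ) + 1 ∈ Ioo (bt P) (bt P + P.N) := ⟨by rw [hbt]; linarith, by rw [hbt]; linarith⟩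
  set c := sg P x y φ ((m : ℝ) + 1) with hc
  set v := pt x y (P.vert (m + 1)) with hv
  have hcv : φ c = v := by
    rw [C.sg_spec hu0, crv_eq P (n := m) (by linarith) le_rfl, add_sub_cancel_left, P.sidePt_one]
  obtain ⟨r0, hr0, hS1, hS2⟩ := P.sector C.hx C.hy m
  set α : ℝ := (P.side (m + 1)).2 * (π / 2) with hα
  set β : ℝ := (P.side m).2 * (π / 2) + π with hβ
  have hpi := Real.pi_pos
  have hvex := vex_pos P m
  have hθ : β - α = vex P m * π := by
    rw [hα, hβ]
    unfold vex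
    push_cast
    ring
  have hθ1 : 0 < β - α := by rw [hθ]; exact mul_pos (by linarith) hpi
  have hθ2 : (β - α) / 2 < π := by rw [hθ]; nlinarith
  set e : ℝ := 1 / vex P m with he
  have he0 : 0 < e := by rw [he]; exact one_div_pos.2 (by linarith)
  have heθ : e * ((β - α) / 2) = π / 2 := by
    have hvne : vex P m ≠ 0 := (show (0:ℝ) < vex P m by linarith).ne'
    rw [hθ, he]
    field_simp
  set F : ℂ → ℂ := fun w => (φ w - v) * Complex.exp (-(((α + β) / 2 : ℝ) : ℂ) * I) with hF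
  set g : ℂ → ℂ := fun w => I * Complex.exp (e * Complex.log (F w)) with hg
  -- polar form
  have polar : ∀ w : ℂ, ∀ s ψ : ℝ, φ w = v + s * Complex.exp (ψ * I) →
      F w = s * Complex.exp (((ψ - (α + β) / 2 : ℝ) : ℂ) * I) := by
    intro w s ψ h
    simp only [hF]
    rw [h, add_sub_cancel_left, mul_assoc, ← Complex.exp_add]
    congr 2
    push_cast
    ring
  have hgval : ∀ w : ℂ, ∀ s ψ : ℝ, 0 < s → α ≤ ψ → ψ ≤ β → φ w = v + s * Complex.exp (ψ * I) →
      g w = I * (((s ^ e : ℝ) : ℂ) * Complex.exp (((e * (ψ - (α + β) / 2) : ℝ) : ℂ) * I)) ∧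
      F w ∈ slitPlane := by
    intro w s ψ hs ha hb h
    have hF' := polar w s ψ h
    have b1 : -π < ψ - (α + β) / 2 := by linarith
    have b2 : ψ - (α + β) / 2 < π := by linarith
    refine ⟨?_, by rw [hF']; exact slit_polar hs b1 b2⟩
    simp only [hg]
    rw [hF', log_polar hs b1 b2.le]
    congr 1
    rw [mul_add, Complex.exp_add]
    congr 1
    · rw [Real.rpow_def_of_pos hs, Complex.ofReal_exp]
      congr 1
      push_cast
      ring
    · congr 1
      push_cast
      ring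
  -- norm of g
  have hgn : ∀ w, F w ≠ 0 → ‖g w‖ = ‖F w‖ ^ e := by
    intro w hw
    simp only [hg]
    rw [norm_mul, norm_I, one_mul, Complex.norm_exp]
    have : (((e : ℝ) : ℂ) * Complex.log (F w)).re = e * Real.log ‖F w‖ := by
      rw [Complex.re_ofReal_mul, Complex.log_re]
    rw [this, Real.rpow_def_of_pos (norm_pos_iff.2 hw)]
    congr 1
    ring
  have hFn : ∀ w, ‖F w‖ = dist (φ w) v := by
    intro w
    simp only [hF]
    rw [norm_mul, Complex.norm_exp, dist_eq_norm]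
    have : (-(((α + β) / 2 : ℝ) : ℂ) * I).re = 0 := by simp
    rw [this, Real.exp_zero, mul_one]
  -- radius
  obtain ⟨δ1, hδ1, hcb⟩ := C.cont_ball (real_HC c) (r := min r0 1) (lt_min hr0 one_pos)
  rw [hcv] at hcb
  have hL1 := side_len_pos C.hx C.hy (P.side (m + 1))
  have hL0 := side_len_pos C.hx C.hy (P.side m)
  obtain ⟨δ2, hδ2, hnp⟩ := C.near_param hu0 (η := min (1 / 4) (min (r0 / len x y (P.side m) / 2)
    (r0 / len x y (P.side (m + 1)) / 2))) (by positivity)
  set δ := min δ1 δ2 with hδ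
  have hδ0 : 0 < δ := lt_min hδ1 hδ2
  -- upper points
  have hup : ∀ w : ℂ, 0 < w.im → dist w (c : ℂ) < δ → F w ∈ slitPlane := by
    intro w hw hd
    have h3 := hcb w (show (0:ℝ) ≤ w.im from hw.le) (hd.trans_le (min_le_left _ _))
    obtain ⟨ψ, hψ, hz⟩ := hS2 (φ w) (C.up_mem hw) (h3.trans_le (min_le_left _ _))
    have hpos : 0 < dist (φ w) v := by
      rw [dist_pos]
      intro h0
      have h4 : v ∉ Om P.Q x y := by rw [← hcv]; exact C.real_notMem c
      exact h4 (h0 ▸ C.up_mem hw)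
    exact (hgval w _ ψ hpos hψ.1.le hψ.2.le hz).2
  -- real points
  have hreal : ∀ t : ℝ, (t : ℂ) ∈ ball (c : ℂ) δ → t ≠ c →
      (g t).im = 0 ∧ F t ∈ slitPlane := by
    intro t ht htc
    rw [mem_ball, Complex.dist_eq, ← ofReal_sub, Complex.norm_real, Real.norm_eq_abs] at ht
    obtain ⟨u, hu, hun, hφu, hgt, hlt⟩ := hnp t (ht.trans_le (min_le_right _ _))
    have hu4 := hun.trans_le (min_le_left _ _)
    have hu5 := hun.trans_le ((min_le_right _ _).trans (min_le_left _ _))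
    have hu6 := hun.trans_le ((min_le_right _ _).trans (min_le_right _ _))
    rcases lt_or_gt_of_ne htc with h | h
    · -- incoming side
      have hlt' : u < (m : ℝ) + 1 := hlt.1 h
      rw [abs_lt] at hu4
      have hum : (m : ℝ) < u := by linarith [hu4.1]
      set s := ((m : ℝ) + 1 - u) * len x y (P.side m) with hs
      have hs0 : 0 < s := mul_pos (by linarith) hL0
      have hsr : s < r0 := by
        rw [abs_lt] at hu5
        have : (m : ℝ) + 1 - u < r0 / len x y (P.side m) := by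
          have := hu5.1
          have h7 : 0 < r0 / len x y (P.side m) := by positivity
          linarith
        rw [lt_div_iff₀ hL0] at this
        exact this
      have h8 := (hS1 s ⟨hs0, hsr⟩).2.2.2.1
      have h9 : φ t = v + s * Complex.exp (β * I) := by
        rw [hφu, crv_eq P hum.le hlt'.le, h8]
        congr 1
        rw [hs]
        field_simp
        ring
      obtain ⟨k1, k2⟩ := hgval t s β hs0 (by linarith) le_rfl h9
      refine ⟨?_, k2⟩
      rw [k1]
      have : e * (β - (α + β) / 2) = π / 2 := by rw [← heθ]; ring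
      rw [this]
      push_cast
      rw [Complex.exp_pi_div_two_mul_I]
      have : I * ((((s ^ e : ℝ) : ℂ)) * I) = ((-(s ^ e) : ℝ) : ℂ) := by
        push_cast
        linear_combination ((s ^ e : ℝ) : ℂ) * I_mul_I
      rw [this, ofReal_im]
    · have hgt' : (m : ℝ) + 1 < u := hgt.1 h
      rw [abs_lt] at hu4
      have hum : u < (m : ℝ) + 1 + 1 := by linarith [hu4.2]
      set s := (u - ((m : ℝ) + 1)) * len x y (P.side (m + 1)) with hs
      have hs0 : 0 < s := mul_pos (by linarith) hL1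
      have hsr : s < r0 := by
        rw [abs_lt] at hu6
        have : u - ((m : ℝ) + 1) < r0 / len x y (P.side (m + 1)) := by
          have := hu6.2
          have h7 : 0 < r0 / len x y (P.side (m + 1)) := by positivity
          linarith
        rw [lt_div_iff₀ hL1] at this
        exact this
      have h8 := (hS1 s ⟨hs0, hsr⟩).2.1
      have h9 : φ t = v + s * Complex.exp (α * I) := by
        rw [hφu, crv_eq P (n := m + 1) (by push_cast; exact hgt'.le) (by push_cast; exact hum.le),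
          h8]
        congr 1
        rw [hs]
        push_cast
        field_simp
      obtain ⟨k1, k2⟩ := hgval t s α hs0 le_rfl (by linarith) h9
      refine ⟨?_, k2⟩
      rw [k1]
      have : e * (α - (α + β) / 2) = -(π / 2) := by rw [← heθ]; ring
      rw [this]
      have h10 : Complex.exp (((-(π / 2) : ℝ) : ℂ) * I) = -I := by
        have : (((-(π / 2) : ℝ) : ℂ) * I) = -((π : ℂ) / 2 * I) := by push_cast; ring
        rw [this, Complex.exp_neg, Complex.exp_pi_div_two_mul_I, Complex.inv_I]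
      rw [h10]
      have : I * ((((s ^ e : ℝ) : ℂ)) * -I) = ((s ^ e : ℝ) : ℂ) := by
        linear_combination -((s ^ e : ℝ) : ℂ) * I_mul_I
      rw [this, ofReal_im]
  -- RX
  have hφd : ∀ w : ℂ, 0 < w.im → DifferentiableAt ℂ φ w := fun w hw =>
    C.half.diff.differentiableAt ((isOpen_lt continuous_const Complex.continuous_im).mem_nhds hw)
  have hgd : DifferentiableOn ℂ g (ball (c : ℂ) δ ∩ UP) := by
    rintro w ⟨hw1, hw2⟩
    have h3 : DifferentiableAt ℂ F w := ((hφd w hw2).sub_const v).mul_const _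
    have h4 := (h3.clog (hup w hw2 hw1)).const_mul (e : ℂ)
    exact (h4.cexp.const_mul I).differentiableWithinAt
  have hglim : ∀ t : ℝ, F t ∈ slitPlane → Tendsto g (𝓝[UP] (t : ℂ)) (𝓝 (g t)) := by
    intro t ht
    have h3 : Tendsto F (𝓝[UP] (t : ℂ)) (𝓝 (F t)) := ((C.chart_limit t).sub_const v).mul_const _
    have h4 := (h3.clog ht).const_mul (e : ℂ)
    exact ((Complex.continuous_exp.tendsto _).comp h4).const_mul I
  have hF0 : Tendsto (fun w => ‖F w‖) (𝓝[UP] (c : ℂ)) (𝓝 0) := by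
    have h3 : Tendsto F (𝓝[UP] (c : ℂ)) (𝓝 (F c)) := ((C.chart_limit c).sub_const v).mul_const _
    have h4 : F c = 0 := by simp only [hF]; rw [hcv, sub_self, zero_mul]
    rw [h4] at h3
    simpa using h3.norm
  have hg0 : Tendsto g (𝓝[UP] (c : ℂ)) (𝓝 0) := by
    rw [tendsto_zero_iff_norm_tendsto_zero]
    have h3 : Tendsto (fun w => ‖F w‖ ^ e) (𝓝[UP] (c : ℂ)) (𝓝 0) := by
      have := hF0.rpow_const (p := e) (Or.inr he0.le)
      rwa [Real.zero_rpow he0.ne'] at this
    refine h3.congr' ?_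
    have hb : ball (c : ℂ) δ ∈ 𝓝 (c : ℂ) := ball_mem_nhds _ hδ0
    filter_upwards [self_mem_nhdsWithin, mem_nhdsWithin_of_mem_nhds hb] with w hw1 hw2
    exact (hgn w (slitPlane_ne_zero (hup w hw1 hw2))).symm
  have hRX : RX g c := by
    refine rx_of_growth hδ0 hgd ?_ ?_
    · intro t ht htc
      obtain ⟨k1, k2⟩ := hreal t ht htc
      refine ⟨(g t).re, ?_⟩
      have h3 : g t = ((g t).re : ℂ) := Complex.ext (by simp) (by simp [k1])
      rw [← h3]
      exact hglim t k2
    · have h3 : Tendsto (fun z : ℂ => z - c) (𝓝[UP] (c : ℂ)) (𝓝 0) := by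
        have : Tendsto (fun z : ℂ => z - c) (𝓝 (c : ℂ)) (𝓝 ((c : ℂ) - c)) :=
          (continuous_id.sub continuous_const).tendsto _
        rw [sub_self] at this
        exact this.mono_left nhdsWithin_le_nhds
      have := h3.mul hg0
      rwa [zero_mul] at this
  obtain ⟨G, hG1, hG2, -⟩ := hRX.ra
  have hGc : G c = 0 := by
    have h3 : Tendsto G (𝓝[UP] (c : ℂ)) (𝓝 (G c)) :=
      hG1.continuousAt.tendsto.mono_left nhdsWithin_le_nhds
    have h4 : Tendsto G (𝓝[UP] (c : ℂ)) (𝓝 0) := hg0.congr' hG2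
    have : (𝓝[UP] (c : ℂ)).NeBot := nhdsUP_neBot (by simp)
    exact tendsto_nhds_unique h3 h4
  obtain ⟨K, hK⟩ : ∃ K > 0, ∀ᶠ w in 𝓝 (c : ℂ), ‖G w‖ ≤ K * ‖w - c‖ := by
    obtain ⟨K, hK0, hK⟩ := (hG1.differentiableAt.isBigO_sub).exists_pos
    refine ⟨K, hK0, ?_⟩
    filter_upwards [hK.bound] with w hw
    rwa [hGc, sub_zero] at hw
  obtain ⟨hK0, hK⟩ := hK
  have hfin : ∀ᶠ w in 𝓝[UP] (c : ℂ), dist (φ w) v ≤ K ^ vex P m * dist w (c : ℂ) ^ vex P m := by
    have hb : ball (c : ℂ) δ ∈ 𝓝 (c : ℂ) := ball_mem_nhds _ hδ0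
    filter_upwards [self_mem_nhdsWithin, mem_nhdsWithin_of_mem_nhds hb,
      mem_nhdsWithin_of_mem_nhds hK, hG2] with w hw1 hw2 hw3 hw4
    have hne := slitPlane_ne_zero (hup w hw1 hw2)
    rw [← hw4, hgn w hne] at hw3
    have h3 : ‖F w‖ = (‖F w‖ ^ e) ^ vex P m := by
      rw [← Real.rpow_mul (norm_nonneg _), he, one_div, inv_mul_cancel₀ (by linarith), Real.rpow_one]
    rw [← hFn w, h3, ← Real.mul_rpow hK0.le dist_nonneg, dist_eq_norm]
    exact Real.rpow_le_rpow (Real.rpow_nonneg (norm_nonneg _) _) hw3 (by linarith)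
  rw [eventually_nhdsWithin_iff, Metric.eventually_nhds_iff] at hfin
  obtain ⟨r, hr, hfin⟩ := hfin
  exact ⟨K ^ vex P m, Real.rpow_pos_of_pos hK0 _, r, hr, fun w hw hd => hfin hd hw⟩

end Cht

end Pool.Agent.H19.RH
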